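import Pool.Agent.Helper90.G2.Local

/-!
# G2-OSC: oscillation in a window

Integrate `Fn.loc` along vertical and horizontal segments:
`|F (x₁ + i y) - F (x₂ + i y)| ≤ 500 √ar log (x₂ / x₁)` and
`|F (h + i y₁) - F (h + i y₂)| ≤ 500 √ar |y₁ - y₂| / h`. `osc_two`: from `u` up to the height `h`,
horizontally, down to `v`. `osc_top`: `v` the top point.
-/

set_option autoImplicit false

namespace Pool.Agent.Helper90.G2

open MeasureTheory Set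
open scoped Real

variable {F : ℂ → ℂ} {A : ℝ}

private theorem Fn.diffAt (hF : Fn F A) {u : ℂ} (hu : 0 < u.re) : DifferentiableAt ℂ F u :=
  hF.diff.differentiableAt ((isOpen_lt continuous_const Complex.continuous_re).mem_nhds hu)

private theorem Fn.seg_re (hF : Fn F A) {c ℓ q : ℝ} (hℓ : 0 < ℓ) (hℓ1 : ℓ ≤ 1) (hq : 0 < q)
    (hq1 : q ≤ 1 / 2) {x₁ x₂ y : ℝ} (h1 : q * ℓ ≤ x₁) (h12 : x₁ ≤ x₂) (h2 : x₂ ≤ ℓ)
    (h3 : |y - c| ≤ ℓ / 2) :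
    ‖F ⟨x₂, y⟩ - F ⟨x₁, y⟩‖ ≤ 500 * √(ar F (Wn c ℓ q)) * Real.log (x₂ / x₁) := by
  set K : ℝ := 500 * √(ar F (Wn c ℓ q)) with hK
  have hqℓ : 0 < q * ℓ := mul_pos hq hℓ
  have hx1 : 0 < x₁ := lt_of_lt_of_le hqℓ h1
  have hline : ∀ x : ℝ, HasDerivAt (fun t : ℝ => (⟨t, y⟩ : ℂ)) 1 x := by
    intro x
    have h0 : HasDerivAt (fun t : ℝ => (t : ℂ) + (y : ℂ) * Complex.I) 1 x :=
      (Complex.ofRealCLM.hasDerivAt (x := x)).add_const _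
    have he : (fun t : ℝ => (⟨t, y⟩ : ℂ)) = fun t : ℝ => (t : ℂ) + (y : ℂ) * Complex.I := by
      funext t
      apply Complex.ext <;> simp
    rw [he]
    exact h0
  have hder : ∀ x ∈ Icc x₁ x₂, HasDerivAt (fun t : ℝ => F ⟨t, y⟩ - F ⟨x₁, y⟩)
      (deriv F ⟨x, y⟩) x := by
    intro x hx
    have hre : 0 < (⟨x, y⟩ : ℂ).re := lt_of_lt_of_le hx1 hx.1
    have h0 : HasDerivAt F (deriv F ⟨x, y⟩) (⟨x, y⟩ : ℂ) := (hF.diffAt hre).hasDerivAt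
    have h00 := (h0.comp_of_eq x (hline x) rfl).sub_const (F ⟨x₁, y⟩)
    simpa using h00
  have hB : ∀ x ∈ Icc x₁ x₂, HasDerivAt (fun t : ℝ => K * Real.log (t / x₁)) (K / x) x := by
    intro x hx
    have hx0 : 0 < x := lt_of_lt_of_le hx1 hx.1
    have h0 : HasDerivAt (fun t : ℝ => t / x₁) (1 / x₁) x := (hasDerivAt_id x).div_const x₁
    have h00 := (h0.log (by positivity : x / x₁ ≠ 0)).const_mul K
    have he : K * (1 / x₁ / (x / x₁)) = K / x := by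
      field_simp
    rw [he] at h00
    exact h00
  have key := image_norm_le_of_norm_deriv_right_le_deriv_boundary'
    (f := fun t : ℝ => F ⟨t, y⟩ - F ⟨x₁, y⟩) (f' := fun x : ℝ => deriv F ⟨x, y⟩)
    (a := x₁) (b := x₂) (fun x hx => (hder x hx).continuousAt.continuousWithinAt)
    (fun x hx => (hder x (Ico_subset_Icc_self hx)).hasDerivWithinAt)
    (B := fun t : ℝ => K * Real.log (t / x₁)) (B' := fun x : ℝ => K / x)
    (by simp [div_self hx1.ne'])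
    (fun x hx => (hB x hx).continuousAt.continuousWithinAt)
    (fun x hx => (hB x (Ico_subset_Icc_self hx)).hasDerivWithinAt)
    (by
      intro x hx
      have hx0 : 0 < x := lt_of_lt_of_le hx1 hx.1
      have := hF.loc hℓ hℓ1 hq hq1 (u := ⟨x, y⟩) (c := c) (h1.trans hx.1)
        (hx.2.le.trans h2) h3
      rw [le_div_iff₀ hx0]
      exact this)
  exact key (right_mem_Icc.2 h12)

private theorem Fn.seg_im (hF : Fn F A) {c ℓ q : ℝ} (hℓ : 0 < ℓ) (hℓ1 : ℓ ≤ 1) (hq : 0 < q)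
    (hq1 : q ≤ 1 / 2) {h y₁ y₂ : ℝ} (h1 : q * ℓ ≤ h) (h2 : h ≤ ℓ)
    (h3 : |y₁ - c| ≤ ℓ / 2) (h4 : |y₂ - c| ≤ ℓ / 2) (h5 : |y₁ - y₂| ≤ h) :
    ‖F ⟨h, y₁⟩ - F ⟨h, y₂⟩‖ ≤ 500 * √(ar F (Wn c ℓ q)) := by
  set K : ℝ := 500 * √(ar F (Wn c ℓ q)) with hK
  have hK0 : 0 ≤ K := by positivity
  have hh : 0 < h := lt_of_lt_of_le (mul_pos hq hℓ) h1
  have hconv : Convex ℝ {z : ℂ | z.re = h ∧ |z.im - c| ≤ ℓ / 2} := by
    intro z hz w hw a b ha hb hab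
    obtain ⟨hz1, hz2⟩ := hz
    obtain ⟨hw1, hw2⟩ := hw
    refine ⟨?_, ?_⟩
    · have : (a • z + b • w).re = a * z.re + b * w.re := by simp
      rw [this, hz1, hw1, ← add_mul, hab, one_mul]
    · have : (a • z + b • w).im - c = a * (z.im - c) + b * (w.im - c) := by
        have h0 : (a • z + b • w).im = a * z.im + b * w.im := by simp
        rw [h0]
        have : c = (a + b) * c := by rw [hab, one_mul]
        nth_rewrite 1 [this]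
        ring
      rw [this]
      rw [abs_le] at hz2 hw2 ⊢
      constructor <;> nlinarith [mul_nonneg ha (sub_nonneg.2 hz2.1), mul_nonneg ha (sub_nonneg.2 hz2.2),
        mul_nonneg hb (sub_nonneg.2 hw2.1), mul_nonneg hb (sub_nonneg.2 hw2.2)]
  have key := Convex.norm_image_sub_le_of_norm_deriv_le (𝕜 := ℂ) (f := F) (C := K / h)
    (s := {z : ℂ | z.re = h ∧ |z.im - c| ≤ ℓ / 2}) (x := ⟨h, y₂⟩) (y := ⟨h, y₁⟩)
    (fun z hz => hF.diffAt (by rw [hz.1]; exact hh))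
    (by
      intro z hz
      have := hF.loc hℓ hℓ1 hq hq1 (u := z) (c := c) (by rw [hz.1]; exact h1)
        (by rw [hz.1]; exact h2) hz.2
      rw [hz.1] at this
      rw [le_div_iff₀ hh]
      exact this)
    hconv ⟨rfl, h4⟩ ⟨rfl, h3⟩
  refine key.trans ?_
  have hn : ‖(⟨h, y₁⟩ : ℂ) - ⟨h, y₂⟩‖ = |y₁ - y₂| := by
    have : (⟨h, y₁⟩ : ℂ) - ⟨h, y₂⟩ = ((y₁ - y₂ : ℝ) : ℂ) * Complex.I := by
      apply Complex.ext <;> simp
    rw [this, norm_mul, Complex.norm_I, mul_one, Complex.norm_real, Real.norm_eq_abs]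
  rw [hn]
  calc K / h * |y₁ - y₂| ≤ K / h * h := by gcongr
    _ = K := by field_simp

theorem Fn.osc_two (hF : Fn F A) {c ℓ q : ℝ} (hℓ : 0 < ℓ) (hℓ1 : ℓ ≤ 1) (hq : 0 < q)
    (hq1 : q ≤ 1 / 2) {u v : ℂ} {h : ℝ} (hh : h ≤ ℓ) (h1 : q * ℓ ≤ u.re) (h2 : u.re ≤ h)
    (h3 : |u.im - c| ≤ ℓ / 2) (k1 : q * ℓ ≤ v.re) (k2 : v.re ≤ h) (k3 : |v.im - c| ≤ ℓ / 2)
    (huv : |u.im - v.im| ≤ h) :
    ‖F u - F v‖ ≤ 500 * √(ar F (Wn c ℓ q)) * (1 + Real.log (h / u.re) + Real.log (h / v.re)) := by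
  have e1 := hF.seg_re hℓ hℓ1 hq hq1 h1 h2 hh h3
  have e2 := hF.seg_re hℓ hℓ1 hq hq1 k1 k2 hh k3
  have e3 := hF.seg_im hℓ hℓ1 hq hq1 (h1.trans h2) hh h3 k3 huv
  have hu : F u = F ⟨u.re, u.im⟩ := rfl
  have hv : F v = F ⟨v.re, v.im⟩ := rfl
  have hs : F u - F v = -(F ⟨h, u.im⟩ - F ⟨u.re, u.im⟩) + (F ⟨h, u.im⟩ - F ⟨h, v.im⟩)
      + (F ⟨h, v.im⟩ - F ⟨v.re, v.im⟩) := by
    rw [hu, hv]
    ring
  rw [hs]
  refine (norm_add₃_le).trans ?_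
  rw [norm_neg]
  linarith

theorem Fn.osc_top (hF : Fn F A) {c ℓ q : ℝ} (hℓ : 0 < ℓ) (hℓ1 : ℓ ≤ 1) (hq : 0 < q)
    (hq1 : q ≤ 1 / 2) {u : ℂ} (h1 : q * ℓ ≤ u.re) (h2 : u.re ≤ ℓ) (h3 : |u.im - c| ≤ ℓ / 2) :
    ‖F u - F (zt c ℓ)‖ ≤ 500 * √(ar F (Wn c ℓ q)) * (1 + Real.log (ℓ / u.re)) := by
  have h4 : q * ℓ ≤ (zt c ℓ).re := by
    show q * ℓ ≤ ℓ
    nlinarith
  have h5 : |(zt c ℓ).im - c| ≤ ℓ / 2 := by
    show |c - c| ≤ ℓ / 2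
    rw [sub_self, abs_zero]
    linarith
  have h6 : |u.im - (zt c ℓ).im| ≤ ℓ := by
    show |u.im - c| ≤ ℓ
    linarith
  have key := hF.osc_two hℓ hℓ1 hq hq1 (u := u) (v := zt c ℓ) le_rfl h1 h2 h3 h4 le_rfl h5 h6
  have h7 : Real.log (ℓ / (zt c ℓ).re) = 0 := by
    show Real.log (ℓ / ℓ) = 0
    rw [div_self hℓ.ne', Real.log_one]
  rw [h7, add_zero] at key
  exact key

/-- the radius of the image of a window -/
theorem Fn.osc_rad (hF : Fn F A) {c ℓ q : ℝ} (hℓ : 0 < ℓ) (hℓ1 : ℓ ≤ 1) (hq : 0 < q)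
    (hq1 : q ≤ 1 / 2) {u : ℂ} (h1 : q * ℓ ≤ u.re) (h2 : u.re ≤ ℓ) (h3 : |u.im - c| ≤ ℓ / 2) :
    ‖F u - F (zt c ℓ)‖ ≤ 500 * (1 + Real.log (1 / q)) * √(ar F (Wn c ℓ q)) := by
  have hu : 0 < u.re := lt_of_lt_of_le (mul_pos hq hℓ) h1
  have key := hF.osc_top hℓ hℓ1 hq hq1 h1 h2 h3
  have hlog : Real.log (ℓ / u.re) ≤ Real.log (1 / q) := by
    apply Real.log_le_log (by positivity)
    rw [div_le_div_iff₀ hu hq]
    linarith
  have h0 : 0 ≤ √(ar F (Wn c ℓ q)) := Real.sqrt_nonneg _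
  nlinarith [mul_le_mul_of_nonneg_left hlog h0]

end Pool.Agent.Helper90.G2
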