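import Pool.Agent.Helper90.G2.Cone
import Pool.Agent.Helper90.G2.Osc

/-!
# G2-SHARP: the displacement of the top point in a long window

`ρ₀ = κ ℓ`, `ρ₁ = 2 q ℓ / κ` (`sin κ ≥ κ / 2`), cone at `i c'`: it lies in `Wn c ℓ q`, so `Fn.cone`
(`log (ρ₀ / ρ₁) = log (κ² / (2 q)) ≤ log (1 / q)`) bounds `|Pa ρ₀ - Pa ρ₁|` by
`√(log (1/q) / (π - 2κ)) √ar`. Ends by `Pa_near`: for `u` on the arc `ρ₀`, `re u ≥ κ² ℓ / 2` and
`Fn.osc_top` gives `500 √ar (1 + log (2 / κ²))`; for `u` on the arc `ρ₁`, `Fn.osc_two` with `h = ρ₁`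
and `v = zt c' (q ℓ)` gives `500 √ar (1 + 2 log (2 / κ))` (`re u ≥ ρ₁ κ / 2`, `v.re = q ℓ`).
-/

set_option autoImplicit false

namespace Pool.Agent.Helper90.G2

open MeasureTheory Set
open scoped Real

variable {F : ℂ → ℂ} {A : ℝ}

/-- the square root of the constant `S` -/
noncomputable def sS (κ L : ℝ) : ℝ := √(L / (π - 2 * κ)) + 1000 * (1 + 2 * Real.log (2 / κ))

theorem Sharp_sin {κ : ℝ} (hκ : 0 < κ) (hκ1 : κ ≤ 1 / 4) : κ / 2 ≤ Real.sin κ := by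
  have h1 := Real.mul_le_sin hκ.le (by linarith [Real.pi_gt_three])
  have h2 : κ / 2 ≤ 2 / π * κ := by
    rw [div_mul_eq_mul_div, le_div_iff₀ Real.pi_pos]
    nlinarith [Real.pi_le_four]
  linarith

theorem Sharp_cos {κ φ : ℝ} (hκ : 0 < κ) (hκ1 : κ ≤ 1 / 4) (hφ : |φ| ≤ π / 2 - κ) :
    κ / 2 ≤ Real.cos φ := by
  rw [← Real.cos_abs φ]
  have h1 : Real.cos (π / 2 - κ) ≤ Real.cos |φ| :=
    Real.cos_le_cos_of_nonneg_of_le_pi (abs_nonneg φ) (by linarith [Real.pi_pos]) hφ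
  rw [Real.cos_pi_div_two_sub] at h1
  exact (Sharp_sin hκ hκ1).trans h1

/-- the truncated cone lies in the window -/
theorem Sharp_sub {c c' ℓ q κ : ℝ} (hℓ : 0 < ℓ) (hκ : 0 < κ)
    (hκ1 : κ ≤ 1 / 4) (hq : 0 < q) (hc : |c' - c| ≤ ℓ / 2 - κ * ℓ) :
    Cn κ c' (2 * q * ℓ / κ) (κ * ℓ) ⊆ Wn c ℓ q := by
  rintro u ⟨h1, h2, h3, h4⟩
  set n : ℝ := ‖u - ⟨0, c'⟩‖ with hn
  have hn0 : 0 < n := lt_trans (by positivity) h2
  have hn2 : n ^ 2 = u.re ^ 2 + (u.im - c') ^ 2 := by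
    rw [hn, Complex.sq_norm, Complex.normSq_apply]
    simp only [Complex.sub_re, Complex.sub_im, sub_zero]
    ring
  have hs := Sharp_sin hκ hκ1
  have hre : n * Real.sin κ < u.re := by
    have e1 : (u.im - c') ^ 2 < (Real.cos κ * n) ^ 2 := by
      rw [← sq_abs (u.im - c')]
      exact pow_lt_pow_left₀ h4 (abs_nonneg _) two_ne_zero
    have e2 : (n * Real.sin κ) ^ 2 < u.re ^ 2 := by
      have e3 := Real.sin_sq_add_cos_sq κ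
      nlinarith
    exact lt_of_pow_lt_pow_left₀ 2 h1.le e2
  have hre2 : u.re ≤ n := by
    have e2 : u.re ^ 2 ≤ n ^ 2 := by nlinarith [sq_nonneg (u.im - c')]
    exact le_of_sq_le_sq e2 hn0.le
  refine ⟨?_, ?_, ?_⟩
  · have e1 : q * ℓ = 2 * q * ℓ / κ * (κ / 2) := by
      field_simp
    have e2 : 2 * q * ℓ / κ * (κ / 2) ≤ n * Real.sin κ :=
      mul_le_mul h2.le hs (by positivity) hn0.le
    linarith
  · have e1 : κ * ℓ ≤ ℓ := by nlinarith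
    linarith
  · have e1 : Real.cos κ * n ≤ n := by
      nlinarith [Real.cos_le_one κ]
    have e2 : u.im - c = (u.im - c') + (c' - c) := by ring
    have e3 := abs_add_le (u.im - c') (c' - c)
    rw [← e2] at e3
    linarith

/-- the average over the upper arc is near the value at the top point -/
theorem Sharp_top (hF : Fn F A) {c c' ℓ q κ : ℝ} (hℓ : 0 < ℓ) (hℓ1 : ℓ ≤ 1) (hκ : 0 < κ)
    (hκ1 : κ ≤ 1 / 4) (hq : 0 < q) (hq1 : 2 * q < κ ^ 2) (hc : |c' - c| ≤ ℓ / 2 - κ * ℓ) :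
    ‖Pa F κ c' (κ * ℓ) - F (zt c ℓ)‖ ≤
      500 * √(ar F (Wn c ℓ q)) * (1 + 2 * Real.log (2 / κ)) := by
  have hκ2 : κ ^ 2 ≤ 1 / 16 := by nlinarith
  refine Pa_near hF hκ hκ1 (by positivity) fun φ hφ => ?_
  have hcos := Sharp_cos hκ hκ1 hφ
  have hre : κ ^ 2 * ℓ / 2 ≤ κ * ℓ * Real.cos φ := by
    have e1 : κ * ℓ * (κ / 2) ≤ κ * ℓ * Real.cos φ :=
      mul_le_mul_of_nonneg_left hcos (by positivity)
    linarith
  have hsin : |κ * ℓ * Real.sin φ| ≤ κ * ℓ := by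
    rw [abs_mul, abs_of_pos (by positivity : 0 < κ * ℓ)]
    exact mul_le_of_le_one_right (by positivity) (Real.abs_sin_le_one φ)
  have h1 : q * ℓ ≤ κ * ℓ * Real.cos φ := by
    have e1 : q * ℓ ≤ κ ^ 2 / 2 * ℓ := mul_le_mul_of_nonneg_right (by linarith) hℓ.le
    linarith
  have h2 : κ * ℓ * Real.cos φ ≤ ℓ := by
    have e1 : κ * ℓ * Real.cos φ ≤ κ * ℓ :=
      mul_le_of_le_one_right (by positivity) (Real.cos_le_one φ)
    nlinarith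
  have h3 : |c' + κ * ℓ * Real.sin φ - c| ≤ ℓ / 2 := by
    have e2 : c' + κ * ℓ * Real.sin φ - c = κ * ℓ * Real.sin φ + (c' - c) := by ring
    have e3 := abs_add_le (κ * ℓ * Real.sin φ) (c' - c)
    rw [← e2] at e3
    linarith
  have key := hF.osc_top hℓ hℓ1 hq (by linarith)
    (u := ⟨κ * ℓ * Real.cos φ, c' + κ * ℓ * Real.sin φ⟩) h1 h2 h3
  refine key.trans (mul_le_mul_of_nonneg_left ?_ (by positivity))
  have hpos : 0 < κ * ℓ * Real.cos φ := lt_of_lt_of_le (by positivity) h1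
  have e1 : ℓ / (κ * ℓ * Real.cos φ) ≤ (2 / κ) ^ 2 := by
    rw [div_le_iff₀ hpos, div_pow]
    have e2 : (2 : ℝ) ^ 2 / κ ^ 2 * (κ ^ 2 * ℓ / 2) = 2 * ℓ := by
      field_simp
    have e3 : (2 : ℝ) ^ 2 / κ ^ 2 * (κ ^ 2 * ℓ / 2) ≤
        (2 : ℝ) ^ 2 / κ ^ 2 * (κ * ℓ * Real.cos φ) :=
      mul_le_mul_of_nonneg_left hre (by positivity)
    linarith
  have e4 : Real.log (ℓ / (κ * ℓ * Real.cos φ)) ≤ 2 * Real.log (2 / κ) := by
    have e5 := Real.log_le_log (by positivity) e1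
    rwa [Real.log_pow, Nat.cast_ofNat] at e5
  exact add_le_add_right e4 1

/-- the average over the lower arc is near the value at the lower point -/
theorem Sharp_low (hF : Fn F A) {c c' ℓ q κ : ℝ} (hℓ : 0 < ℓ) (hℓ1 : ℓ ≤ 1) (hκ : 0 < κ)
    (hκ1 : κ ≤ 1 / 4) (hq : 0 < q) (hq1 : 2 * q < κ ^ 2) (hc : |c' - c| ≤ ℓ / 2 - κ * ℓ) :
    ‖Pa F κ c' (2 * q * ℓ / κ) - F (zt c' (q * ℓ))‖ ≤
      500 * √(ar F (Wn c ℓ q)) * (1 + 2 * Real.log (2 / κ)) := by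
  have hκ2 : κ ^ 2 ≤ 1 / 16 := by nlinarith
  set ρ : ℝ := 2 * q * ℓ / κ with hρ
  have hρ0 : 0 < ρ := by positivity
  have hρκ : ρ * κ = 2 * q * ℓ := by
    rw [hρ]
    field_simp
  have hρ1 : ρ ≤ κ * ℓ := by
    have e1 : ρ * κ ≤ κ * ℓ * κ := by
      rw [hρκ]
      have e2 : 2 * q * ℓ ≤ κ ^ 2 * ℓ := mul_le_mul_of_nonneg_right hq1.le hℓ.le
      linarith
    exact le_of_mul_le_mul_right e1 hκ
  have hρ2 : ρ ≤ ℓ := by nlinarith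
  refine Pa_near hF hκ hκ1 hρ0 fun φ hφ => ?_
  have hcos := Sharp_cos hκ hκ1 hφ
  have hre : q * ℓ ≤ ρ * Real.cos φ := by
    have e1 : ρ * (κ / 2) ≤ ρ * Real.cos φ := mul_le_mul_of_nonneg_left hcos hρ0.le
    linarith
  have hre2 : ρ * Real.cos φ ≤ ρ := mul_le_of_le_one_right hρ0.le (Real.cos_le_one φ)
  have hsin : |ρ * Real.sin φ| ≤ ρ := by
    rw [abs_mul, abs_of_pos hρ0]
    exact mul_le_of_le_one_right hρ0.le (Real.abs_sin_le_one φ)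
  have h3 : |c' + ρ * Real.sin φ - c| ≤ ℓ / 2 := by
    have e2 : c' + ρ * Real.sin φ - c = ρ * Real.sin φ + (c' - c) := by ring
    have e3 := abs_add_le (ρ * Real.sin φ) (c' - c)
    rw [← e2] at e3
    linarith
  have k3 : |c' - c| ≤ ℓ / 2 := hc.trans (by nlinarith)
  have hqρ : q * ℓ ≤ ρ := hre.trans hre2
  have huv : |c' + ρ * Real.sin φ - c'| ≤ ρ := by
    rwa [add_sub_cancel_left]
  have key := hF.osc_two hℓ hℓ1 hq (by linarith) (c := c)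
    (u := ⟨ρ * Real.cos φ, c' + ρ * Real.sin φ⟩) (v := zt c' (q * ℓ)) (h := ρ) hρ2 hre hre2 h3
    le_rfl hqρ k3 huv
  refine key.trans (mul_le_mul_of_nonneg_left ?_ (by positivity))
  have hql : 0 < q * ℓ := by positivity
  have hpos : 0 < ρ * Real.cos φ := lt_of_lt_of_le hql hre
  have e1 : ρ / (ρ * Real.cos φ) ≤ 2 / κ := by
    rw [div_le_div_iff₀ hpos hκ]
    have e2 : ρ * (κ / 2) ≤ ρ * Real.cos φ := mul_le_mul_of_nonneg_left hcos hρ0.le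
    linarith
  have e2 : ρ / (q * ℓ) ≤ 2 / κ := by
    rw [div_le_div_iff₀ hql hκ, hρκ]
    linarith
  have e3 := Real.log_le_log (by positivity) e1
  have e4 := Real.log_le_log (by positivity) e2
  show 1 + Real.log (ρ / (ρ * Real.cos φ)) + Real.log (ρ / (q * ℓ)) ≤ 1 + 2 * Real.log (2 / κ)
  linarith

/-- the average moves little between the two arcs -/
theorem Sharp_mid (hF : Fn F A) {c c' ℓ q κ : ℝ} (hℓ : 0 < ℓ) (hℓ1 : ℓ ≤ 1) (hκ : 0 < κ)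
    (hκ1 : κ ≤ 1 / 4) (hq : 0 < q) (hq1 : 2 * q < κ ^ 2) (hc : |c' - c| ≤ ℓ / 2 - κ * ℓ) :
    ‖Pa F κ c' (κ * ℓ) - Pa F κ c' (2 * q * ℓ / κ)‖ ≤
      √(ar F (Wn c ℓ q)) * √(Real.log (1 / q) / (π - 2 * κ)) := by
  have hκ2 : κ ^ 2 ≤ 1 / 16 := by nlinarith
  have hρ1 : 2 * q * ℓ / κ ≤ κ * ℓ := by
    rw [div_le_iff₀ hκ]
    have e2 : 2 * q * ℓ ≤ κ ^ 2 * ℓ := mul_le_mul_of_nonneg_right hq1.le hℓ.le
    linarith
  have hpi : 0 < π - 2 * κ := by linarith [Real.pi_gt_three]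
  have key := hF.cone (c := c') hκ hκ1 (by positivity) hρ1 (by nlinarith)
  have hW : Wn c ℓ q ⊆ Bx c ℓ := fun u hu =>
    ⟨lt_trans (by positivity) hu.1, hu.2.1, hu.2.2⟩
  have har : ar F (Cn κ c' (2 * q * ℓ / κ) (κ * ℓ)) ≤ ar F (Wn c ℓ q) :=
    hF.ar_mono hℓ1 hW (Sharp_sub hℓ hκ hκ1 hq hc)
  have hlog : Real.log (κ * ℓ / (2 * q * ℓ / κ)) ≤ Real.log (1 / q) := by
    refine Real.log_le_log (by positivity) ?_
    have e1 : κ * ℓ / (2 * q * ℓ / κ) = κ ^ 2 / 2 * (1 / q) := by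
      field_simp
    rw [e1]
    exact mul_le_of_le_one_left (by positivity) (by linarith)
  have hlog0 : 0 ≤ Real.log (1 / q) := by
    refine Real.log_nonneg ?_
    rw [le_div_iff₀ hq]
    linarith
  have har0 : 0 ≤ ar F (Wn c ℓ q) := ENNReal.toReal_nonneg
  have har1 : 0 ≤ ar F (Cn κ c' (2 * q * ℓ / κ) (κ * ℓ)) := ENNReal.toReal_nonneg
  rw [← Real.sqrt_mul har0]
  refine Real.le_sqrt_of_sq_le (key.trans ?_)
  rw [mul_comm (ar F (Wn c ℓ q))]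
  exact mul_le_mul (div_le_div_of_nonneg_right hlog hpi.le) har har1
    (div_nonneg hlog0 hpi.le)

theorem Fn.sharp (hF : Fn F A) {c c' ℓ q κ : ℝ} (hℓ : 0 < ℓ) (hℓ1 : ℓ ≤ 1) (hκ : 0 < κ)
    (hκ1 : κ ≤ 1 / 4) (hq : 0 < q) (hq1 : 2 * q < κ ^ 2) (hc : |c' - c| ≤ ℓ / 2 - κ * ℓ) :
    ‖F (zt c' (q * ℓ)) - F (zt c ℓ)‖ ≤
      √(ar F (Wn c ℓ q)) * sS κ (Real.log (1 / q)) := by
  have h1 := Sharp_top hF hℓ hℓ1 hκ hκ1 hq hq1 hc
  have h2 := Sharp_low hF hℓ hℓ1 hκ hκ1 hq hq1 hc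
  have h3 := Sharp_mid hF hℓ hℓ1 hκ hκ1 hq hq1 hc
  have e1 : F (zt c' (q * ℓ)) - F (zt c ℓ) =
      -(Pa F κ c' (2 * q * ℓ / κ) - F (zt c' (q * ℓ))) -
        (Pa F κ c' (κ * ℓ) - Pa F κ c' (2 * q * ℓ / κ)) +
          (Pa F κ c' (κ * ℓ) - F (zt c ℓ)) := by ring
  have e2 : ‖F (zt c' (q * ℓ)) - F (zt c ℓ)‖ ≤
      ‖Pa F κ c' (2 * q * ℓ / κ) - F (zt c' (q * ℓ))‖ +
        ‖Pa F κ c' (κ * ℓ) - Pa F κ c' (2 * q * ℓ / κ)‖ +
          ‖Pa F κ c' (κ * ℓ) - F (zt c ℓ)‖ := by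
    rw [e1]
    refine (norm_add_le _ _).trans (add_le_add_left ((norm_sub_le _ _).trans ?_) _)
    rw [norm_neg]
  unfold sS
  nlinarith

end Pool.Agent.Helper90.G2
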