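import Pool.Agent.Helper90.G2.Defs
import Pool.Agent.Helper84.EK.Koebe

/-!
# G2-KOEBE: distortion

`F` is injective on the disk of radius `re u ≤ 3 < π` around `u`. Bieberbach's `|a_2| ≤ 2`
(`Pool.Agent.Helper84.EK.second_le_two`, see the namespace there) at every point `v` of the disk of
radius `re u / 2` around `u`, for the disk of radius `re u / 2` around `v`:
`|F'' (v) / F' (v)| ≤ 4 / (re u / 2)`; integrate along the segment: `|log |F' u'| - log |F' u|| ≤ 4`,
`e^4 < 55`. (If you only get a slightly larger constant, tell helper90 before changing anything.)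
-/

set_option autoImplicit false

namespace Pool.Agent.Helper90.G2

open MeasureTheory Set
open scoped Real

theorem kb_open : IsOpen {u : ℂ | 0 < u.re} := isOpen_lt continuous_const Complex.continuous_re

/-- the disk of radius at most `re u` and at most `π` -/
theorem kb_sub {u : ℂ} {ρ : ℝ} (h1 : ρ ≤ u.re) (h2 : ρ ≤ π) :
    Metric.ball u ρ ⊆ {v : ℂ | 0 < v.re ∧ |v.im - u.im| < π} := by
  intro v hv
  rw [Metric.mem_ball, dist_eq_norm] at hv
  have h3 := Complex.abs_re_le_norm (v - u)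
  have h4 := Complex.abs_im_le_norm (v - u)
  rw [Complex.sub_re] at h3
  rw [Complex.sub_im] at h4
  refine ⟨?_, by linarith⟩
  have h5 := (abs_le.1 h3).1
  linarith

theorem Fn.dne {F : ℂ → ℂ} {A : ℝ} (hF : Fn F A) {u : ℂ} (hu : 0 < u.re) : deriv F u ≠ 0 := by
  have hρ : 0 < min u.re π := lt_min hu Real.pi_pos
  have hs := kb_sub (u := u) (min_le_left u.re π) (min_le_right u.re π)
  refine Pool.Agent.Helper24.Br.deriv_ne_of_inj (U := Metric.ball u (min u.re π))
    Metric.isOpen_ball (hF.diff.mono fun v hv => (hs hv).1) ((hF.inj u.im).mono hs) ?_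
  exact Metric.mem_ball_self hρ

/-- Bieberbach's inequality at `v` -/
theorem kb_two {F : ℂ → ℂ} {v : ℂ} {r : ℝ} (hr : 0 < r)
    (hd : DifferentiableOn ℂ F (Metric.ball v r)) (hi : InjOn F (Metric.ball v r))
    (hne : deriv F v ≠ 0) : ‖deriv (deriv F) v‖ ≤ 4 / r * ‖deriv F v‖ := by
  have hr0 : (r : ℂ) ≠ 0 := by exact_mod_cast hr.ne'
  have hmem : ∀ z ∈ Metric.ball (0 : ℂ) 1, v + r * z ∈ Metric.ball v r := by
    intro z hz
    rw [mem_ball_zero_iff] at hz
    rw [Metric.mem_ball, dist_eq_norm, add_sub_cancel_left, norm_mul, Complex.norm_real,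
      Real.norm_of_nonneg hr.le]
    nlinarith
  obtain ⟨f, hf⟩ : ∃ f : ℂ → ℂ, f = fun z => (F (v + r * z) - F v) / (r * deriv F v) :=
    ⟨_, rfl⟩
  have hden : (r : ℂ) * deriv F v ≠ 0 := mul_ne_zero hr0 hne
  have hlin : ∀ z : ℂ, HasDerivAt (fun z : ℂ => v + r * z) (r : ℂ) z := fun z => by
    simpa using ((hasDerivAt_id z).const_mul (r : ℂ)).const_add v
  have hder : ∀ z ∈ Metric.ball (0 : ℂ) 1,
      HasDerivAt f (deriv F (v + r * z) / deriv F v) z := by
    intro z hz
    have h1 : HasDerivAt F (deriv F (v + r * z)) (v + r * z) :=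
      (hd.differentiableAt (Metric.isOpen_ball.mem_nhds (hmem z hz))).hasDerivAt
    have h2 := ((h1.comp z (hlin z)).sub_const (F v)).div_const ((r : ℂ) * deriv F v)
    have h3 : deriv F (v + r * z) / deriv F v =
        deriv F (v + r * z) * r / (r * deriv F v) := by
      rw [mul_comm (deriv F (v + r * z)) (r : ℂ), mul_div_mul_left _ _ hr0]
    rw [hf, h3]
    exact h2
  have hfd : DifferentiableOn ℂ f (Metric.ball 0 1) := fun z hz =>
    (hder z hz).differentiableAt.differentiableWithinAt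
  have hfi : InjOn f (Metric.ball 0 1) := by
    intro z hz w hw h
    rw [hf] at h
    simp only at h
    rw [div_left_inj' hden, sub_left_inj] at h
    have h3 := hi (hmem z hz) (hmem w hw) h
    exact mul_left_cancel₀ hr0 (add_left_cancel h3)
  have h0b : (0 : ℂ) ∈ Metric.ball (0 : ℂ) 1 := Metric.mem_ball_self one_pos
  have hf0 : f 0 = 0 := by
    rw [hf]
    simp
  have hf1 : deriv f 0 = 1 := by
    rw [(hder 0 h0b).deriv, mul_zero, add_zero, div_self hne]
  have h2 := Pool.Agent.Helper84.EK.second_le_two hfd hfi hf0 hf1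
  have hdd : deriv (deriv f) 0 = r * deriv (deriv F) v / deriv F v := by
    have h3 : deriv f =ᶠ[nhds 0] fun z => deriv F (v + r * z) / deriv F v := by
      filter_upwards [Metric.ball_mem_nhds (0 : ℂ) one_pos] with z hz
      exact (hder z hz).deriv
    rw [h3.deriv_eq]
    have h4 : DifferentiableAt ℂ (deriv F) v :=
      (hd.deriv Metric.isOpen_ball).differentiableAt (Metric.ball_mem_nhds v hr)
    have h5 : HasDerivAt (deriv F) (deriv (deriv F) v) (v + r * 0) := by
      rw [mul_zero, add_zero]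
      exact h4.hasDerivAt
    have h6 := (h5.comp (0 : ℂ) (hlin 0)).div_const (deriv F v)
    have h7 : deriv (fun z => deriv F (v + r * z) / deriv F v) 0 =
        deriv (deriv F) v * r / deriv F v := h6.deriv
    rw [h7]
    ring
  have hc : Pool.Agent.Helper22.Marshall.coeff f 2 = r * deriv (deriv F) v / deriv F v / 2 := by
    unfold Pool.Agent.Helper22.Marshall.coeff
    rw [iteratedDeriv_succ, iteratedDeriv_one, hdd]
    norm_num
    ring
  rw [hc, norm_div, norm_div, norm_mul, Complex.norm_real, Real.norm_of_nonneg hr.le] at h2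
  have h8 : 0 < ‖deriv F v‖ := norm_pos_iff.2 hne
  have h9 : ‖(2 : ℂ)‖ = 2 := by simp
  rw [h9, div_div, div_le_iff₀ (by positivity)] at h2
  rw [div_mul_eq_mul_div, le_div_iff₀ hr]
  linarith

/-- integration along a segment -/
theorem kb_seg {F : ℂ → ℂ} {p p' : ℂ} {r : ℝ} (hr : 0 < r) (hpp : ‖p' - p‖ ≤ r)
    (hpos : ∀ t ∈ Icc (0 : ℝ) 1, 0 < (p + t * (p' - p)).re)
    (hd : DifferentiableOn ℂ F {u | 0 < u.re})
    (hb : ∀ t ∈ Icc (0 : ℝ) 1, ‖deriv (deriv F) (p + t * (p' - p))‖ ≤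
      4 / r * ‖deriv F (p + t * (p' - p))‖) : ‖deriv F p'‖ ≤ 55 * ‖deriv F p‖ := by
  have hlin : ∀ t : ℝ, HasDerivAt (fun t : ℝ => p + (t : ℂ) * (p' - p)) (p' - p) t := fun t => by
    have h1 := ((Complex.ofRealCLM.hasDerivAt (x := t)).mul_const (p' - p)).const_add p
    simpa using h1
  have hg : ∀ t ∈ Icc (0 : ℝ) 1, HasDerivAt (fun t : ℝ => deriv F (p + (t : ℂ) * (p' - p)))
      ((p' - p) * deriv (deriv F) (p + (t : ℂ) * (p' - p))) t := by
    intro t ht
    have h1 : DifferentiableAt ℂ (deriv F) (p + (t : ℂ) * (p' - p)) :=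
      (hd.deriv kb_open).differentiableAt (kb_open.mem_nhds (hpos t ht))
    have h2 := h1.hasDerivAt.scomp t (hlin t)
    simpa [smul_eq_mul, Function.comp_def] using h2
  have h1 := norm_le_gronwallBound_of_norm_deriv_right_le
    (f := fun t : ℝ => deriv F (p + (t : ℂ) * (p' - p)))
    (f' := fun t : ℝ => (p' - p) * deriv (deriv F) (p + (t : ℂ) * (p' - p)))
    (δ := ‖deriv F p‖) (K := 4) (ε := 0) (a := 0) (b := 1)
    (fun t ht => (hg t ht).continuousAt.continuousWithinAt)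
    (fun t ht => (hg t ⟨ht.1, ht.2.le⟩).hasDerivWithinAt)
    (by simp)
    (fun t ht => by
      have h2 := hb t ⟨ht.1, ht.2.le⟩
      rw [norm_mul, add_zero]
      calc ‖p' - p‖ * ‖deriv (deriv F) (p + t * (p' - p))‖
          ≤ r * (4 / r * ‖deriv F (p + t * (p' - p))‖) :=
            mul_le_mul hpp h2 (norm_nonneg _) hr.le
        _ = 4 * ‖deriv F (p + t * (p' - p))‖ := by
            field_simp)
    1 ⟨zero_le_one, le_refl 1⟩
  rw [gronwallBound_ε0] at h1
  have h2 : p + ((1 : ℝ) : ℂ) * (p' - p) = p' := by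
    push_cast
    ring
  simp only [h2] at h1
  have h3 : Real.exp (4 * (1 - 0)) ≤ 55 := by
    have h4 : Real.exp (4 * (1 - 0)) = Real.exp 1 ^ 4 := by
      rw [← Real.exp_nat_mul]
      norm_num
    rw [h4]
    have h5 := Real.exp_one_lt_d9
    calc Real.exp 1 ^ 4 ≤ 2.7182818286 ^ 4 :=
          pow_le_pow_left₀ (Real.exp_pos 1).le h5.le 4
      _ ≤ 55 := by norm_num
  calc ‖deriv F p'‖ ≤ ‖deriv F p‖ * Real.exp (4 * (1 - 0)) := h1
    _ ≤ ‖deriv F p‖ * 55 := mul_le_mul_of_nonneg_left h3 (norm_nonneg _)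
    _ = 55 * ‖deriv F p‖ := mul_comm _ _

theorem Fn.dist {F : ℂ → ℂ} {A : ℝ} (hF : Fn F A) {u u' : ℂ} (hu : 0 < u.re) (hu3 : u.re ≤ 3)
    (h : ‖u' - u‖ ≤ u.re / 2) :
    ‖deriv F u'‖ ≤ 55 * ‖deriv F u‖ ∧ ‖deriv F u‖ ≤ 55 * ‖deriv F u'‖ := by
  have hr : 0 < u.re / 2 := by linarith
  have hs := kb_sub (u := u) (le_refl u.re) (le_trans hu3 Real.pi_gt_three.le)
  have hre : ∀ v : ℂ, ‖v - u‖ ≤ u.re / 2 → 0 < v.re := by
    intro v hv
    have h1 := Complex.abs_re_le_norm (v - u)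
    rw [Complex.sub_re] at h1
    have h2 := (abs_le.1 h1).1
    linarith
  have hb : ∀ v : ℂ, ‖v - u‖ ≤ u.re / 2 →
      ‖deriv (deriv F) v‖ ≤ 4 / (u.re / 2) * ‖deriv F v‖ := by
    intro v hv
    have hsub : Metric.ball v (u.re / 2) ⊆ Metric.ball u u.re := by
      intro w hw
      rw [Metric.mem_ball, dist_eq_norm] at hw ⊢
      have h1 : w - u = (w - v) + (v - u) := by ring
      rw [h1]
      exact lt_of_le_of_lt (norm_add_le _ _) (by linarith)
    exact kb_two hr (hF.diff.mono fun w hw => (hs (hsub hw)).1)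
      ((hF.inj u.im).mono (hsub.trans hs)) (hF.dne (hre v hv))
  have hn : ∀ t ∈ Icc (0 : ℝ) 1, ‖(t : ℂ) * (u' - u)‖ ≤ u.re / 2 := by
    intro t ht
    rw [norm_mul, Complex.norm_real, Real.norm_of_nonneg ht.1]
    calc t * ‖u' - u‖ ≤ 1 * (u.re / 2) := mul_le_mul ht.2 h (norm_nonneg _) zero_le_one
      _ = u.re / 2 := one_mul _
  have hseg1 : ∀ t ∈ Icc (0 : ℝ) 1, ‖u + t * (u' - u) - u‖ ≤ u.re / 2 := by
    intro t ht
    rw [add_sub_cancel_left]
    exact hn t ht
  have hseg2 : ∀ t ∈ Icc (0 : ℝ) 1, ‖u' + t * (u - u') - u‖ ≤ u.re / 2 := by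
    intro t ht
    have h1 : u' + t * (u - u') - u = ((1 - t : ℝ) : ℂ) * (u' - u) := by
      push_cast
      ring
    rw [h1]
    exact hn (1 - t) ⟨by linarith [ht.2], by linarith [ht.1]⟩
  refine ⟨kb_seg hr h (fun t ht => hre _ (hseg1 t ht)) hF.diff
    (fun t ht => hb _ (hseg1 t ht)), ?_⟩
  rw [norm_sub_rev] at h
  exact kb_seg hr h (fun t ht => hre _ (hseg2 t ht)) hF.diff (fun t ht => hb _ (hseg2 t ht))

end Pool.Agent.Helper90.G2
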