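import Pool.Agent.Helper90.G2.Defs
import Pool.Agent.Helper84.EK.Koebe
import Pool.Agent.Helper39.Area.Exterior

/-!
# G2-SIGF: functions of the class Sigma

`F u = ψ (e^u)`. `inj`: `e^u` is injective on strips of width `2π`. `area`: `F '' Bx c 1` is contained in
the disk of radius `2 e` around `b`, by `|ψ z - b| ≤ 2 |z|` (Bieberbach's `|a_2| ≤ 2` for
`ζ ↦ r / (ψ (r / ζ) - ψ z)`, `r = |z|`). Second part: Cauchy's estimate in the disk of radius `|z| / 2`.
-/

set_option autoImplicit false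

namespace Pool.Agent.Helper90.G2

open MeasureTheory Set
open scoped Real

open Pool.Agent.Helper22.Marshall (coeff coeff_zero coeff_one coeff_mul coeff_congr) in
open Pool.Agent.Helper39.Area (toDisc toDisc_diff) in
/-- growth in the class Sigma -/
theorem sig_grow {ψ : ℂ → ℂ} {b : ℂ} (hψ : DifferentiableOn ℂ ψ {z : ℂ | 1 < ‖z‖})
    (hinj : Set.InjOn ψ {z : ℂ | 1 < ‖z‖})
    (hb : Filter.Tendsto (fun z => ψ z - z) (Bornology.cobounded ℂ) (nhds b))
    {z₀ : ℂ} (hz : 1 < ‖z₀‖) : ‖ψ z₀ - b‖ ≤ 2 * ‖z₀‖ := by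
  obtain ⟨r, hr⟩ : ∃ r : ℝ, r = ‖z₀‖ := ⟨_, rfl⟩
  obtain ⟨w, hw⟩ : ∃ w : ℂ, w = ψ z₀ := ⟨_, rfl⟩
  rw [← hr] at hz ⊢
  rw [← hw]
  have hr0 : 0 < r := by linarith
  have hrc : (r : ℂ) ≠ 0 := by exact_mod_cast hr0.ne'
  have hz₀ : z₀ ∈ {z : ℂ | 1 < ‖z‖} := by
    show 1 < ‖z₀‖
    rw [← hr]; exact hz
  set β : ℂ → ℂ := toDisc b (fun z => ψ z - z) with hβ
  have hβd : DifferentiableOn ℂ β (Metric.ball 0 1) := toDisc_diff (hψ.sub differentiableOn_id) hb
  have hβ0 : β 0 = b := by simp [hβ, toDisc]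
  have hβ' : ∀ ζ : ℂ, ζ ≠ 0 → β ζ = ψ ζ⁻¹ - ζ⁻¹ := by
    intro ζ hζ
    simp only [hβ, toDisc]
    rw [if_neg hζ]
  clear_value β
  have hm : MapsTo (fun ζ : ℂ => ζ / r) (Metric.ball 0 1) (Metric.ball 0 1) := by
    intro ζ hζ
    rw [mem_ball_zero_iff] at hζ ⊢
    rw [norm_div, Complex.norm_real, Real.norm_of_nonneg hr0.le, div_lt_one hr0]
    linarith
  obtain ⟨D, hD⟩ : ∃ D : ℂ → ℂ, ∀ ζ, D ζ = 1 + ζ / r * (β (ζ / r) - w) := ⟨_, fun _ => rfl⟩
  have hDf : D = fun ζ => 1 + ζ / r * (β (ζ / r) - w) := funext hD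
  have hDd : DifferentiableOn ℂ D (Metric.ball 0 1) := by
    rw [hDf]
    apply DifferentiableOn.const_add
    apply DifferentiableOn.mul
    · fun_prop
    · exact (hβd.comp (by fun_prop) hm).sub_const w
  have hD0 : D 0 = 1 := by rw [hD]; simp
  have hinv : ∀ ζ ∈ Metric.ball (0:ℂ) 1, ζ ≠ 0 → r < ‖(ζ / r)⁻¹‖ := by
    intro ζ hζ h0
    rw [mem_ball_zero_iff] at hζ
    rw [norm_inv, norm_div, Complex.norm_real, Real.norm_of_nonneg hr0.le, inv_div,
      lt_div_iff₀ (norm_pos_iff.mpr h0)]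
    nlinarith
  have hDe : ∀ ζ : ℂ, ζ ≠ 0 → D ζ = ζ / r * (ψ (ζ / r)⁻¹ - w) := by
    intro ζ h0
    have h1 : ζ / r ≠ 0 := div_ne_zero h0 hrc
    rw [hD, hβ' _ h1]
    have h2 : ζ / r * (ζ / r)⁻¹ = 1 := mul_inv_cancel₀ h1
    linear_combination -h2
  have hDne : ∀ ζ ∈ Metric.ball (0:ℂ) 1, D ζ ≠ 0 := by
    intro ζ hζ
    by_cases h0 : ζ = 0
    · rw [h0, hD0]; exact one_ne_zero
    · rw [hDe ζ h0]
      refine mul_ne_zero (div_ne_zero h0 hrc) ?_
      intro h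
      have h1 := hinv ζ hζ h0
      have h2 : (ζ / r)⁻¹ = z₀ := by
        apply hinj (show 1 < ‖(ζ / r)⁻¹‖ by linarith) hz₀
        rw [← hw]
        exact sub_eq_zero.mp h
      rw [h2, ← hr] at h1
      exact lt_irrefl _ h1
  obtain ⟨f, hf⟩ : ∃ f : ℂ → ℂ, f = fun ζ => ζ / D ζ := ⟨_, rfl⟩
  have hb0 : Metric.ball (0:ℂ) 1 ∈ nhds (0:ℂ) := Metric.ball_mem_nhds 0 one_pos
  have hfd : DifferentiableOn ℂ f (Metric.ball 0 1) := by
    rw [hf]
    exact differentiableOn_id.div hDd hDne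
  have hf0 : f 0 = 0 := by rw [hf]; simp
  have hDa := (hDd.differentiableAt hb0).hasDerivAt
  have hf1 : deriv f 0 = 1 := by
    have h1 : HasDerivAt f ((1 * D 0 - 0 * deriv D 0) / D 0 ^ 2) 0 := by
      rw [hf]
      exact (hasDerivAt_id (0:ℂ)).div hDa (by rw [hD0]; exact one_ne_zero)
    rw [h1.deriv, hD0]
    simp
  have hfi : InjOn f (Metric.ball 0 1) := by
    intro ζ hζ ω hω h
    rw [hf] at h
    simp only at h
    rw [div_eq_div_iff (hDne ζ hζ) (hDne ω hω)] at h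
    by_cases h0 : ζ = 0
    · rw [h0, zero_mul, hD0, mul_one] at h
      rw [h0, h]
    by_cases h1 : ω = 0
    · rw [h1, zero_mul, hD0, mul_one] at h
      exact absurd h h0
    rw [hDe ζ h0, hDe ω h1] at h
    have h2 : ζ * ω / r * (ψ (ω / r)⁻¹ - ψ (ζ / r)⁻¹) = 0 := by linear_combination h
    have h3 : ζ * ω / r ≠ 0 := div_ne_zero (mul_ne_zero h0 h1) hrc
    have h4 := (mul_eq_zero.mp h2).resolve_left h3
    have h5 : (ω / r)⁻¹ = (ζ / r)⁻¹ :=
      hinj (show 1 < ‖(ω / r)⁻¹‖ from hz.trans (hinv ω hω h1))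
        (show 1 < ‖(ζ / r)⁻¹‖ from hz.trans (hinv ζ hζ h0)) (sub_eq_zero.mp h4)
    have h6 := inv_injective h5
    field_simp at h6
    exact h6.symm
  have hD1 : deriv D 0 = (b - w) / r := by
    have h0r : (fun ζ : ℂ => ζ / r) 0 = 0 := by simp
    have h1 : HasDerivAt (fun ζ : ℂ => ζ / (r:ℂ)) (1 / r) 0 := (hasDerivAt_id (0:ℂ)).div_const _
    have h2 : HasDerivAt β (deriv β 0) ((fun ζ : ℂ => ζ / (r:ℂ)) 0) := by
      rw [h0r]
      exact (hβd.differentiableAt hb0).hasDerivAt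
    have h3 : HasDerivAt (fun ζ : ℂ => β (ζ / r)) (deriv β 0 * (1 / r)) 0 := h2.comp 0 h1
    have h4 := ((h1.mul (h3.sub_const w)).const_add 1).deriv
    rw [hDf]
    rw [show (fun ζ : ℂ => 1 + ζ / (r:ℂ) * (β (ζ / r) - w)) =
      (fun ζ : ℂ => 1 + ((fun ζ : ℂ => ζ / (r:ℂ)) * fun ζ : ℂ => (β (ζ / r) - w)) ζ) from rfl, h4]
    simp only [zero_div, hβ0]
    ring
  have h2 := Pool.Agent.Helper84.EK.second_le_two hfd hfi hf0 hf1
  have hprod : (fun ζ => f ζ * D ζ) =ᶠ[nhds 0] fun ζ => ζ := by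
    filter_upwards [hb0] with ζ hζ
    rw [hf]
    exact div_mul_cancel₀ _ (hDne ζ hζ)
  have hc : coeff f 2 = -((b - w) / r) := by
    have h3 := coeff_congr hprod 2
    rw [coeff_mul (hfd.analyticAt hb0) (hDd.analyticAt hb0)] at h3
    simp only [Finset.sum_range_succ, Finset.sum_range_zero, zero_add, Nat.sub_zero, Nat.sub_self,
      show (2 - 1 : ℕ) = 1 from rfl] at h3
    rw [coeff_zero, hf0, coeff_one, hf1, coeff_one, hD1, coeff_zero, hD0] at h3
    have h4 : coeff (fun ζ : ℂ => ζ) 2 = 0 := by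
      simp [coeff, iteratedDeriv_succ]
    rw [h4] at h3
    linear_combination h3
  rw [hc, norm_neg, norm_div, Complex.norm_real, Real.norm_of_nonneg hr0.le, div_le_iff₀ hr0] at h2
  rw [norm_sub_rev]
  exact h2

theorem sig_fn : ∃ A : ℝ, 0 ≤ A ∧ ∀ ψ : ℂ → ℂ,
    DifferentiableOn ℂ ψ {z : ℂ | 1 < ‖z‖} → Set.InjOn ψ {z : ℂ | 1 < ‖z‖} →
    (∃ b : ℂ, Filter.Tendsto (fun z => ψ z - z) (Bornology.cobounded ℂ) (nhds b)) →
    Fn (fun u => ψ (Complex.exp u)) A ∧ ∀ z : ℂ, Real.exp 1 ≤ ‖z‖ → ‖deriv ψ z‖ ≤ A := by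
  refine ⟨144, by norm_num, ?_⟩
  rintro ψ hψ hinj ⟨b, hb⟩
  have he : Real.exp 1 < 3 := lt_trans Real.exp_one_lt_d9 (by norm_num)
  have he2 : 2 < Real.exp 1 := lt_trans (by norm_num) Real.exp_one_gt_d9
  have hm : ∀ u : ℂ, 0 < u.re → 1 < ‖Complex.exp u‖ := by
    intro u hu
    rw [Complex.norm_exp]
    exact Real.one_lt_exp_iff.mpr hu
  refine ⟨⟨?_, ?_, ?_, ?_⟩, ?_⟩
  · exact hψ.comp (by fun_prop) (fun u hu => hm u hu)
  · intro c u hu v hv h
    have h1 : Complex.exp u = Complex.exp v := hinj (hm u hu.1) (hm v hv.1) h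
    rw [Complex.exp_eq_exp_iff_exists_int] at h1
    obtain ⟨n, hn⟩ := h1
    have h2 : u.im = v.im + n * (2 * π) := by
      rw [hn]
      simp
    have h3 := abs_lt.mp hu.2
    have h4 := abs_lt.mp hv.2
    have h5 : |(n:ℝ)| < 1 := by
      rw [abs_lt]
      constructor <;> nlinarith [Real.pi_pos]
    have h6 : n = 0 := by
      have : |n| < 1 := by exact_mod_cast h5
      exact Int.abs_lt_one_iff.mp this
    rw [hn, h6]
    simp
  · intro u _
    show ψ _ = ψ _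
    congr 1
    rw [Complex.exp_add, Complex.exp_two_pi_mul_I, mul_one]
  · intro c
    have h1 : (fun u => ψ (Complex.exp u)) '' Bx c 1 ⊆ Metric.closedBall b (2 * Real.exp 1) := by
      rintro _ ⟨u, hu, rfl⟩
      rw [mem_closedBall_iff_norm]
      refine (sig_grow hψ hinj hb (hm u hu.1)).trans ?_
      rw [Complex.norm_exp]
      have := Real.exp_le_exp.mpr hu.2.1.le
      linarith
    refine (measure_mono h1).trans ?_
    rw [Complex.volume_closedBall]
    rw [← ENNReal.ofReal_pow (by positivity), ← ENNReal.ofReal_coe_nnreal, NNReal.coe_real_pi,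
      ← ENNReal.ofReal_mul (by positivity)]
    apply ENNReal.ofReal_le_ofReal
    have h2 : (2 * Real.exp 1) ^ 2 ≤ 36 := by nlinarith
    have h3 := mul_le_mul h2 Real.pi_le_four Real.pi_pos.le (by norm_num)
    linarith
  · intro z hz
    have hz0 : 0 < ‖z‖ := by linarith
    have hS : ∀ v ∈ Metric.closedBall z (‖z‖ / 2), ‖z‖ / 2 ≤ ‖v‖ ∧ ‖v‖ ≤ 3 / 2 * ‖z‖ := by
      intro v hv
      rw [mem_closedBall_iff_norm] at hv
      constructor
      · have := norm_sub_norm_le z v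
        rw [norm_sub_rev] at this
        linarith
      · have := norm_sub_norm_le v z
        linarith
    have hsub : Metric.closedBall z (‖z‖ / 2) ⊆ {v : ℂ | 1 < ‖v‖} := by
      intro v hv
      have := (hS v hv).1
      show 1 < ‖v‖
      linarith
    have hd : DiffContOnCl ℂ (fun v => ψ v - b) (Metric.ball z (‖z‖ / 2)) := by
      apply DifferentiableOn.diffContOnCl
      rw [closure_ball z (by positivity)]
      exact (hψ.mono hsub).sub_const b
    have h1 := Complex.norm_deriv_le_of_forall_mem_sphere_norm_le (c := z) (R := ‖z‖ / 2)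
      (C := 3 * ‖z‖) (by positivity) hd (by
        intro v hv
        have h2 := hS v (Metric.sphere_subset_closedBall hv)
        refine (sig_grow hψ hinj hb (hsub (Metric.sphere_subset_closedBall hv))).trans ?_
        linarith [h2.2])
    have h2 : deriv (fun v => ψ v - b) z = deriv ψ z := by
      rw [deriv_sub_const]
    rw [h2] at h1
    refine h1.trans ?_
    rw [div_le_iff₀ (by positivity)]
    linarith

end Pool.Agent.Helper90.G2
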