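import Pool.Agent.Helper90.G2.Window

/-!
# G2-PARAM: choice of the parameters

`L = log (2^M) = M log 2`. As `M → ∞`, `sS κ L² / L → 1 / (π - 2 κ)`, so
`cm M κ ε' δ / L → (1 + 32 δ) π / (4 (π - 2 κ) (1 - ε'))`. Choose `κ` (small, also
`6 κ C2 / log 2 ≤ ε`), `ε'` small (`3 ε' C2 / log 2 ≤ ε / 8` etc.), then `M` large (also `κ 2^M ≥ 2`,
`2 / 2^M < κ²`), then `δ₀` small (depending on everything), `Cθ = 2 C2 M cK / ε'`. With `θ ≤ δ` the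
exponent of `Fn.window` is at most `(1/4 + ε) δ² log (2^M)`.
-/

set_option autoImplicit false

namespace Pool.Agent.Helper90.G2

open MeasureTheory Set
open scoped Real

theorem Param_log2 : 0 < Real.log 2 ∧ Real.log 2 < 1 := by
  refine ⟨Real.log_pos (by norm_num), ?_⟩
  have h := Real.log_two_lt_d9
  linarith

theorem Param_C2 : (C2 : ℝ) = 1200000 := rfl

/-- `κ` and the size of the logarithm -/
theorem Param_kap {e : ℝ} (he : 0 < e) (he1 : e ≤ 1) :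
    ∃ κ : ℝ, 0 < κ ∧ κ ≤ 1 / 4 ∧ 6 * κ * (C2 / Real.log 2) ≤ e ∧ ∃ L₀ : ℝ, ∀ L : ℝ, 0 < L →
      L₀ ≤ L → π * sS κ L ^ 2 ≤ (1 + e / 2) * L := by
  obtain ⟨hl0, hl1⟩ := Param_log2
  have hC := Param_C2
  have hπ := Real.pi_gt_three
  have hκe : e * Real.log 2 / (6 * C2) ≤ e / 10 := by
    rw [hC, div_le_div_iff₀ (by norm_num) (by norm_num)]
    nlinarith
  refine ⟨e * Real.log 2 / (6 * C2), by rw [hC]; positivity, by linarith, le_of_eq ?_, ?_⟩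
  · rw [hC]
    field_simp
  set κ : ℝ := e * Real.log 2 / (6 * C2)
  have hκ0 : 0 ≤ κ := by
    have : 0 < κ := by
      show 0 < e * Real.log 2 / (6 * C2)
      rw [hC]
      positivity
    exact this.le
  have hp : 0 < π - 2 * κ := by linarith
  have hc : π * (π - 2 * κ)⁻¹ ≤ 1 + e / 4 := by
    rw [← div_eq_mul_inv, div_le_iff₀ hp]
    nlinarith
  have hB0 : (0 : ℝ) ≤ (1000 * (1 + 2 * Real.log (2 / κ))) ^ 2 := sq_nonneg _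
  refine ⟨32 * π * (1 + 8 / e) * (1000 * (1 + 2 * Real.log (2 / κ))) ^ 2 / (3 * e),
    fun L hL hL0 => ?_⟩
  rw [div_le_iff₀ (by positivity)] at hL0
  unfold sS
  set B : ℝ := 1000 * (1 + 2 * Real.log (2 / κ))
  set x : ℝ := √(L / (π - 2 * κ)) with hx
  have hx2 : x ^ 2 = L * (π - 2 * κ)⁻¹ := by
    rw [hx, Real.sq_sqrt (by positivity), div_eq_mul_inv]
  have h1 : (x + B) ^ 2 ≤ (1 + e / 8) * x ^ 2 + (1 + 8 / e) * B ^ 2 := by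
    have h2 : 2 * x * B ≤ e / 8 * x ^ 2 + 8 / e * B ^ 2 := by
      have h3 : e / 8 * x ^ 2 + 8 / e * B ^ 2 - 2 * x * B = (e * x - 8 * B) ^ 2 / (8 * e) := by
        field_simp
        ring
      have h4 : 0 ≤ (e * x - 8 * B) ^ 2 / (8 * e) := by positivity
      linarith
    nlinarith
  have h5 : π * x ^ 2 ≤ (1 + e / 4) * L := by
    rw [hx2]
    calc π * (L * (π - 2 * κ)⁻¹) = π * (π - 2 * κ)⁻¹ * L := by ring
      _ ≤ (1 + e / 4) * L := mul_le_mul_of_nonneg_right hc hL.le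
  have h6 : (1 + e / 8) * (π * x ^ 2) ≤ (1 + e / 8) * ((1 + e / 4) * L) :=
    mul_le_mul_of_nonneg_left h5 (by positivity)
  calc π * (x + B) ^ 2 ≤ π * ((1 + e / 8) * x ^ 2 + (1 + 8 / e) * B ^ 2) :=
        mul_le_mul_of_nonneg_left h1 Real.pi_pos.le
    _ = (1 + e / 8) * (π * x ^ 2) + π * (1 + 8 / e) * B ^ 2 := by ring
    _ ≤ (1 + e / 8) * ((1 + e / 4) * L) + 3 * e / 32 * L := by linarith
    _ ≤ (1 + e / 2) * L := by
        have h7 : e * (e * L) ≤ 1 * (e * L) := mul_le_mul_of_nonneg_right he1 (mul_pos he hL).le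
        nlinarith

/-- the number of generations -/
theorem Param_M {κ : ℝ} (hκ : 0 < κ) (hκ1 : κ ≤ 1 / 4) (L₀ : ℝ) : ∃ M : ℕ, 1 ≤ M ∧
    2 ≤ κ * ((2 ^ M : ℕ) : ℝ) ∧ 2 / ((2 ^ M : ℕ) : ℝ) < κ ^ 2 ∧
      L₀ ≤ Real.log ((2 ^ M : ℕ) : ℝ) := by
  obtain ⟨hl0, -⟩ := Param_log2
  obtain ⟨M, hM⟩ := exists_nat_gt (1 + 2 / κ ^ 2 + |L₀| / Real.log 2)
  have h1 : 0 < 2 / κ ^ 2 := by positivity
  have h2 : 0 ≤ |L₀| / Real.log 2 := div_nonneg (abs_nonneg _) hl0.le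
  have hM2 : (M : ℝ) < ((2 ^ M : ℕ) : ℝ) := by exact_mod_cast Nat.lt_two_pow_self
  have h3 : 2 / κ ^ 2 < ((2 ^ M : ℕ) : ℝ) := by linarith
  have h4 : 2 < κ ^ 2 * ((2 ^ M : ℕ) : ℝ) := by
    rw [div_lt_iff₀ (by positivity)] at h3
    linarith
  have h5 : (0 : ℝ) < ((2 ^ M : ℕ) : ℝ) := by positivity
  refine ⟨M, ?_, ?_, ?_, ?_⟩
  · have : (1 : ℝ) ≤ M := by linarith
    exact_mod_cast this
  · have h6 : κ ^ 2 * ((2 ^ M : ℕ) : ℝ) ≤ κ * ((2 ^ M : ℕ) : ℝ) :=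
      mul_le_mul_of_nonneg_right (by nlinarith) h5.le
    linarith
  · rw [div_lt_iff₀ h5]
    linarith
  · rw [Nat.cast_pow, Real.log_pow]
    have h6 : |L₀| / Real.log 2 ≤ M := by linarith
    rw [div_le_iff₀ hl0] at h6
    exact (le_abs_self L₀).trans (by simpa using h6)

theorem Param_log (M : ℕ) : Real.log ((2 ^ M : ℕ) : ℝ) = M * Real.log 2 := by
  rw [Nat.cast_pow, Real.log_pow]
  norm_num

theorem Param_small {X Y : ℝ} (hY : 0 < Y) : ∀ᶠ δ : ℝ in nhdsWithin 0 (Ioi 0), δ * X ≤ Y := by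
  have h : Filter.Tendsto (fun δ : ℝ => δ * X) (nhdsWithin 0 (Ioi 0)) (nhds 0) := by
    have h1 : Filter.Tendsto (fun δ : ℝ => δ * X) (nhds 0) (nhds (0 * X)) :=
      (continuous_id.mul continuous_const).tendsto 0
    rw [zero_mul] at h1
    exact h1.mono_left nhdsWithin_le_nhds
  exact (h.eventually (Iio_mem_nhds hY)).mono fun δ h => le_of_lt h

theorem Param_ex {P : ℝ → Prop} (h : ∀ᶠ δ : ℝ in nhdsWithin 0 (Ioi 0), P δ) :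
    ∃ δ₀ : ℝ, 0 < δ₀ ∧ ∀ δ : ℝ, 0 < δ → δ < δ₀ → P δ := by
  obtain ⟨u, hu, hs⟩ := mem_nhdsGT_iff_exists_Ioo_subset.1 h
  exact ⟨u, hu, fun δ h0 h1 => hs ⟨h0, h1⟩⟩

theorem Param_cK (M : ℕ) {ε : ℝ} (hε : 0 < ε) : 0 ≤ cK M ε := by
  unfold cK
  positivity

/-- the exponent -/
theorem Param_exp {e ε' δ θ L c m b : ℝ} {M : ℕ} (he : 0 < e) (hM : 1 ≤ M)
    (hε' : ε' = e * Real.log 2 / (24 * C2)) (hL : L = M * Real.log 2)
    (hθδ : θ ≤ δ) (hδ1 : δ * (8 * C2) ≤ e * Real.log 2) (hb : b * (1 + 2 * e) * L = c)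
    (hm : m ≤ c) (hb1 : b ≤ 1 / 4) :
    C2 * δ ^ 2 * M * θ + δ ^ 2 * m + 2 * δ ^ 2 * ε' + 3 * ε' * (C2 * δ ^ 2 * M) ≤
      (b + e) * δ ^ 2 * L := by
  obtain ⟨hl0, hl1⟩ := Param_log2
  have hC := Param_C2
  have hMr : (1 : ℝ) ≤ M := by exact_mod_cast hM
  have hL0 : 0 < L := by rw [hL]; positivity
  have heL : 0 < e * L := mul_pos he hL0
  have hel : e * Real.log 2 ≤ e * L := by
    rw [hL]
    exact mul_le_mul_of_nonneg_left (by nlinarith) he.le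
  have k1 : C2 * M * θ ≤ e * L / 8 := by
    have h1 : C2 * M * θ ≤ C2 * M * δ := by
      refine mul_le_mul_of_nonneg_left hθδ ?_
      rw [hC]
      positivity
    have h2 : C2 * M * δ = δ * (8 * C2) * M / 8 := by ring
    have h3 : δ * (8 * C2) * M ≤ e * Real.log 2 * M :=
      mul_le_mul_of_nonneg_right hδ1 (by linarith)
    rw [hL]
    linarith
  have k2 : 3 * ε' * (C2 * M) = e * L / 8 := by
    rw [hε', hL, hC]
    ring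
  have k3 : 2 * ε' ≤ e * L / 8 := by
    have h1 : 2 * ε' = e * Real.log 2 / (12 * 1200000) := by
      rw [hε', hC]
      ring
    rw [h1]
    have h2 : e * Real.log 2 / (12 * 1200000) ≤ e * Real.log 2 / 8 :=
      div_le_div_of_nonneg_left (by positivity) (by norm_num) (by norm_num)
    linarith
  have k4 : m ≤ b * L + e * L / 2 := by
    have h1 : b * (e * L) ≤ 1 / 4 * (e * L) := mul_le_mul_of_nonneg_right hb1 heL.le
    nlinarith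
  have k5 : C2 * M * θ + m + 2 * ε' + 3 * ε' * (C2 * M) ≤ (b + e) * L := by
    rw [k2]
    linarith
  calc C2 * δ ^ 2 * M * θ + δ ^ 2 * m + 2 * δ ^ 2 * ε' + 3 * ε' * (C2 * δ ^ 2 * M)
      = δ ^ 2 * (C2 * M * θ + m + 2 * ε' + 3 * ε' * (C2 * M)) := by ring
    _ ≤ δ ^ 2 * ((b + e) * L) := mul_le_mul_of_nonneg_left k5 (sq_nonneg _)
    _ = (b + e) * δ ^ 2 * L := by ring

/-- the constant `cm` -/
theorem Param_cm {e ε' δ κ : ℝ} {M : ℕ} (he : 0 < e) (he1 : e ≤ 1) (hε' : 0 < ε')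
    (hε1 : ε' ≤ e / 8) (h0 : 0 < δ) (hδ : δ * 32 ≤ e / 8)
    (hL : 0 < Real.log ((2 ^ M : ℕ) : ℝ))
    (hS : π * sS κ (Real.log ((2 ^ M : ℕ) : ℝ)) ^ 2 ≤ (1 + e / 2) * Real.log ((2 ^ M : ℕ) : ℝ)) :
    0 ≤ cm M κ ε' δ ∧ cm M κ ε' δ ≤ 1 / 4 * (1 + 2 * e) * Real.log ((2 ^ M : ℕ) : ℝ) := by
  unfold cm
  generalize Real.log ((2 ^ M : ℕ) : ℝ) = L at *
  have hX0 : 0 ≤ π * sS κ L ^ 2 := mul_nonneg Real.pi_pos.le (sq_nonneg _)
  have h1 : (1 + 32 * δ) * π * sS κ L ^ 2 = (1 + 32 * δ) * (π * sS κ L ^ 2) := by ring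
  rw [h1]
  generalize π * sS κ L ^ 2 = X at *
  have h2 : 0 < 1 - ε' := by linarith
  refine ⟨by positivity, ?_⟩
  rw [div_le_iff₀ (by positivity)]
  have h3 : (1 + 32 * δ) * X ≤ (1 + e / 8) * ((1 + e / 2) * L) :=
    mul_le_mul (by linarith) hS hX0 (by linarith)
  have h4 : (1 + e / 8) * (1 + e / 2) ≤ (1 + 2 * e) * (1 - ε') := by
    have h5 : (1 + 2 * e) * (1 - e / 8) ≤ (1 + 2 * e) * (1 - ε') :=
      mul_le_mul_of_nonneg_left (by linarith) (by linarith)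
    nlinarith
  calc (1 + 32 * δ) * X ≤ (1 + e / 8) * ((1 + e / 2) * L) := h3
    _ = (1 + e / 8) * (1 + e / 2) * L := by ring
    _ ≤ (1 + 2 * e) * (1 - ε') * L := mul_le_mul_of_nonneg_right h4 hL.le
    _ = 1 / 4 * (1 + 2 * e) * L * (4 * (1 - ε')) := by ring

theorem window_ex {ε : ℝ} (hε : 0 < ε) :
    ∃ κ : ℝ, 0 < κ ∧ κ ≤ 1 / 4 ∧ 6 * κ * (C2 / Real.log 2) ≤ ε ∧ ∃ M : ℕ, 1 ≤ M ∧
      2 ≤ κ * ((2 ^ M : ℕ) : ℝ) ∧ ∃ Cθ δ₀ : ℝ, 0 ≤ Cθ ∧ 0 < δ₀ ∧ δ₀ ≤ 1 / 4 ∧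
      ∀ δ : ℝ, 0 < δ → δ < δ₀ → ∀ θ : ℝ, Cθ * δ ^ 2 ≤ θ → θ ≤ δ →
        ∀ (F : ℂ → ℂ) (A : ℝ), Fn F A → ∀ c ℓ : ℝ, 0 < ℓ → ℓ ≤ 1 →
        ∑ d ∈ Finset.range (2 ^ M), chi κ (C2 * δ ^ 2 * M) (2 ^ M) d *
            V F δ (ch (2 ^ M) c ℓ d) (ℓ / ((2 ^ M : ℕ) : ℝ)) ^ (1 + θ) ≤
          ((2 ^ M : ℕ) : ℝ) ^ ((1 / 4 + ε) * δ ^ 2) * V F δ c ℓ ^ (1 + θ) := by
  obtain ⟨hl0, hl1⟩ := Param_log2
  have hC := Param_C2
  have he : 0 < min ε 1 := lt_min hε one_pos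
  have he1 : min ε 1 ≤ 1 := min_le_right _ _
  have hee : min ε 1 ≤ ε := min_le_left _ _
  generalize min ε 1 = e at *
  obtain ⟨κ, hκ, hκ1, hκ2, L₀, hL₀⟩ := Param_kap he he1
  obtain ⟨M, hM1, hM2, hM3, hM4⟩ := Param_M hκ hκ1 L₀
  have hLM := Param_log M
  have hMr : (1 : ℝ) ≤ M := by exact_mod_cast hM1
  have hLpos : 0 < Real.log ((2 ^ M : ℕ) : ℝ) := by rw [hLM]; positivity
  have hN0 : (0 : ℝ) < ((2 ^ M : ℕ) : ℝ) := by positivity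
  have hsS := hL₀ _ hLpos hM4
  obtain ⟨ε', hε'⟩ : ∃ ε' : ℝ, ε' = e * Real.log 2 / (24 * C2) := ⟨_, rfl⟩
  have hε0 : 0 < ε' := by rw [hε', hC]; positivity
  have hε8 : ε' ≤ e / 8 := by
    rw [hε', hC, div_le_div_iff₀ (by norm_num) (by norm_num)]
    nlinarith
  have hK := Param_cK M hε0
  have hsp : 0 < sS κ (Real.log ((2 ^ M : ℕ) : ℝ)) := Window_sS hκ hκ1
  obtain ⟨K, hKd⟩ : ∃ K : ℝ, K = cK M ε' := ⟨_, rfl⟩
  obtain ⟨L, hLd⟩ : ∃ L : ℝ, L = Real.log ((2 ^ M : ℕ) : ℝ) := ⟨_, rfl⟩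
  obtain ⟨δ₁, hδ₁, hδ₁'⟩ := Param_ex ((((Param_small (X := C2) one_pos).and
    (Param_small (X := K) one_pos)).and ((Param_small (X := 4 * K) hε0).and
    (Param_small (X := L) one_pos))).and (((Param_small (X := L * (500 * (1 + L))) hsp).and
    (Param_small (X := 8 * C2) (mul_pos he hl0))).and (Param_small (X := 32)
      (show (0 : ℝ) < e / 8 by linarith))))
  rw [← hKd] at hK
  refine ⟨κ, hκ, hκ1, hκ2.trans hee, M, hM1, hM2, 2 * C2 * M * K / ε', min δ₁ (1 / 4), ?_,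
    lt_min hδ₁ (by norm_num), min_le_right _ _, ?_⟩
  · rw [hC]
    positivity
  intro δ h0 hδ θ hθ hθδ F A hF c ℓ hℓ hℓ1
  obtain ⟨⟨⟨c1, c2⟩, c3, c4⟩, ⟨c5, c6⟩, c7⟩ := hδ₁' δ h0 (hδ.trans_le (min_le_left _ _))
  obtain ⟨hm0, hmE⟩ := Param_cm (κ := κ) he he1 hε0 hε8 h0 c7 hLpos hsS
  rw [← hLd] at hmE
  have hL0 : 0 < L := by rw [hLd]; exact hLpos
  have hm1 : cm M κ ε' δ ≤ L := by
    refine hmE.trans ?_
    calc 1 / 4 * (1 + 2 * e) * L ≤ 1 * L := mul_le_mul_of_nonneg_right (by linarith) hL0.le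
      _ = L := one_mul L
  have k1 : δ ≤ 1 / C2 := by
    rw [le_div_iff₀ (by rw [hC]; norm_num)]
    exact c1
  have k3 : 4 * δ ^ 2 * cK M ε' ^ 2 ≤ ε' := by
    rw [← hKd]
    calc 4 * δ ^ 2 * K ^ 2 = δ * (4 * K) * (δ * K) := by ring
      _ ≤ ε' * 1 := mul_le_mul c3 c2 (mul_nonneg h0.le hK) hε0.le
      _ = ε' := mul_one _
  have k5 : δ * cm M κ ε' δ * (500 * (1 + Real.log ((2 ^ M : ℕ) : ℝ))) ≤
      sS κ (Real.log ((2 ^ M : ℕ) : ℝ)) := by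
    refine le_trans ?_ c5
    rw [← hLd, mul_assoc]
    exact mul_le_mul_of_nonneg_left (mul_le_mul_of_nonneg_right hm1 (by positivity)) h0.le
  have hw := hF.window (θ := θ) (c := c) hκ hκ1 hε0 (by linarith) hM3 h0 k1
    (by rw [← hKd]; exact c2) k3 ((mul_le_mul_of_nonneg_left hm1 h0.le).trans c4) k5
    (by rw [← hKd]; exact hθ) hℓ hℓ1
  refine hw.trans ?_
  have hV : 0 ≤ V F δ c ℓ ^ (1 + θ) := by
    refine Real.rpow_nonneg ?_ _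
    unfold V Vp
    exact integral_nonneg fun w => Real.rpow_nonneg (norm_nonneg _) _
  refine mul_le_mul_of_nonneg_right ?_ hV
  rw [Real.rpow_def_of_pos hN0, ← hLd]
  refine Real.exp_le_exp.2 ?_
  have hE := Param_exp (e := e) (ε' := ε') (δ := δ) (θ := θ) (L := L) (b := 1 / 4) he hM1
    hε' (by rw [hLd, hLM]) hθδ c6 rfl hmE le_rfl
  refine hE.trans ?_
  have h5 : 0 ≤ δ ^ 2 * L := by positivity
  have h6 : e * (δ ^ 2 * L) ≤ ε * (δ ^ 2 * L) := mul_le_mul_of_nonneg_right hee h5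
  calc (1 / 4 + e) * δ ^ 2 * L = 1 / 4 * (δ ^ 2 * L) + e * (δ ^ 2 * L) := by ring
    _ ≤ 1 / 4 * (δ ^ 2 * L) + ε * (δ ^ 2 * L) := by linarith
    _ = L * ((1 / 4 + ε) * δ ^ 2) := by ring

end Pool.Agent.Helper90.G2
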