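import Pool.Agent.Helper90.G2.Avg
import Pool.Agent.Helper90.G2.Param

/-!
# G2-HEIGHTS: all heights, and the exponent

Given `ε`, take `window_ex (ε / 4)`; given `δ₁` small put `δ = δ₁ + C' δ₁²`,
`θ = (δ - δ₁) / (2 - δ) = C' δ₁² / (2 - δ)`, so that `(2 - δ) (1 + θ) = 2 - δ₁`, with `C' ≥ 8 Cθ + 1`
(then `θ ≥ Cθ δ²` as `δ ≤ 2 δ₁`, and `θ ≤ δ` for small `δ₁`). `Fn.avg` with `G = N^((1/4 + ε/4) δ²)`,
`c' = C2 δ² M`, `exp (6 κ c' K) = (N^K)^(6 κ C2 δ² / log 2) ≤ (N^K)^(ε δ²/4)`, and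
`(1/4 + ε/2) δ² ≤ (1/4 + ε) δ₁²` for small `δ₁`. This is the bound at the heights `N^(-K)`. For `y` between
`N^(-K-1)` and `N^(-K)`: `‖F' (y + i ξ)‖ ≤ 55^(M+1) ‖F' (N^(-K) + i ξ)‖` (`Fn.down`, from `Fn.dist`,
halving the height).
-/

set_option autoImplicit false

namespace Pool.Agent.Helper90.G2

open MeasureTheory Set
open scoped Real

theorem Fn.down {F : ℂ → ℂ} {A : ℝ} (hF : Fn F A) {y y' ξ : ℝ} (hy : 0 < y) (hyy : y ≤ y')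
    (hy1 : y' ≤ 1) (M : ℕ) (hM : y' ≤ 2 ^ M * y) :
    ‖deriv F ⟨y, ξ⟩‖ ≤ 55 ^ M * ‖deriv F ⟨y', ξ⟩‖ := by
  induction M generalizing y' with
  | zero =>
    rw [pow_zero, one_mul] at hM
    rw [pow_zero, one_mul, le_antisymm hyy hM]
  | succ M ih =>
    have h2M : (1 : ℝ) ≤ 2 ^ M := one_le_pow₀ one_le_two
    have h1 : y ≤ max y (y' / 2) := le_max_left _ _
    have h2 : max y (y' / 2) ≤ 1 := max_le (hyy.trans hy1) (by linarith)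
    have h3 : max y (y' / 2) ≤ 2 ^ M * y := by
      apply max_le
      · exact le_mul_of_one_le_left hy.le h2M
      · rw [pow_succ] at hM
        linarith
    have h4 : max y (y' / 2) ≤ y' := max_le hyy (by linarith)
    have h5 : y' / 2 ≤ max y (y' / 2) := le_max_right _ _
    have h6 := ih h1 h2 h3
    have h7 : ‖deriv F ⟨max y (y' / 2), ξ⟩‖ ≤ 55 * ‖deriv F ⟨y', ξ⟩‖ := by
      refine (hF.dist (u := ⟨y', ξ⟩) (u' := ⟨max y (y' / 2), ξ⟩) ?_ ?_ ?_).1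
      · exact hy.trans_le hyy
      · show y' ≤ 3
        linarith
      · have h8 : (⟨max y (y' / 2), ξ⟩ : ℂ) - ⟨y', ξ⟩ = ((max y (y' / 2) - y' : ℝ) : ℂ) := by
          apply Complex.ext <;> simp
        rw [h8, Complex.norm_real, Real.norm_eq_abs, abs_le]
        show -(y' / 2) ≤ max y (y' / 2) - y' ∧ max y (y' / 2) - y' ≤ y' / 2
        constructor <;> linarith
    calc ‖deriv F ⟨y, ξ⟩‖ ≤ 55 ^ M * ‖deriv F ⟨max y (y' / 2), ξ⟩‖ := h6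
      _ ≤ 55 ^ M * (55 * ‖deriv F ⟨y', ξ⟩‖) := mul_le_mul_of_nonneg_left h7 (by positivity)
      _ = 55 ^ (M + 1) * ‖deriv F ⟨y', ξ⟩‖ := by ring

theorem Heights_cont {F : ℂ → ℂ} {A : ℝ} (hF : Fn F A) {y p : ℝ} (hy : 0 < y) (hp : 0 ≤ p) :
    Continuous fun ξ : ℝ => ‖deriv F ⟨y, ξ⟩‖ ^ p := by
  have h1 : ContinuousOn (deriv F) {u : ℂ | 0 < u.re} :=
    (hF.diff.deriv (isOpen_lt continuous_const Complex.continuous_re)).continuousOn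
  have h2 : Continuous fun ξ : ℝ => (⟨y, ξ⟩ : ℂ) := by
    have h : (fun ξ : ℝ => (⟨y, ξ⟩ : ℂ)) = fun ξ : ℝ => (y : ℂ) + (ξ : ℂ) * Complex.I := by
      funext ξ
      apply Complex.ext <;> simp
    rw [h]
    fun_prop
  have h3 : Continuous fun ξ : ℝ => deriv F ⟨y, ξ⟩ := h1.comp_continuous h2 fun ξ => hy
  exact h3.norm.rpow_const fun _ => Or.inr hp

theorem Heights_mono {F : ℂ → ℂ} {A : ℝ} (hF : Fn F A) {y y' p : ℝ} (hy : 0 < y) (hyy : y ≤ y')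
    (hy1 : y' ≤ 1) (M : ℕ) (hM : y' ≤ 2 ^ M * y) (hp : 0 ≤ p) (hp2 : p ≤ 2) :
    ∫ ξ in (0:ℝ)..(2 * π), ‖deriv F ⟨y, ξ⟩‖ ^ p ≤
      (55 ^ M) ^ 2 * ∫ ξ in (0:ℝ)..(2 * π), ‖deriv F ⟨y', ξ⟩‖ ^ p := by
  rw [← intervalIntegral.integral_const_mul]
  apply intervalIntegral.integral_mono_on (by positivity)
    ((Heights_cont hF hy hp).intervalIntegrable _ _)
    (((Heights_cont hF (hy.trans_le hyy) hp).const_mul _).intervalIntegrable _ _)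
  intro ξ _
  have h1 := hF.down (ξ := ξ) hy hyy hy1 M hM
  have h55 : (1 : ℝ) ≤ 55 ^ M := one_le_pow₀ (by norm_num)
  calc ‖deriv F ⟨y, ξ⟩‖ ^ p ≤ (55 ^ M * ‖deriv F ⟨y', ξ⟩‖) ^ p :=
        Real.rpow_le_rpow (norm_nonneg _) h1 hp
    _ = ((55 : ℝ) ^ M) ^ p * ‖deriv F ⟨y', ξ⟩‖ ^ p :=
        Real.mul_rpow (by positivity) (norm_nonneg _)
    _ ≤ (55 ^ M) ^ 2 * ‖deriv F ⟨y', ξ⟩‖ ^ p := by
        apply mul_le_mul_of_nonneg_right _ (by positivity)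
        calc ((55 : ℝ) ^ M) ^ p ≤ ((55 : ℝ) ^ M) ^ (2 : ℝ) :=
              Real.rpow_le_rpow_of_exponent_le h55 hp2
          _ = (55 ^ M) ^ 2 := by rw [Real.rpow_two]

theorem Heights_exp {ε κ δ : ℝ} (hκ : 6 * κ * (C2 / Real.log 2) ≤ ε / 4) (M K : ℕ) :
    Real.exp (6 * κ * (C2 * δ ^ 2 * M) * K) ≤
      (((2 ^ M) ^ K : ℕ) : ℝ) ^ (ε / 4 * δ ^ 2) := by
  have h2 : 0 < Real.log 2 := Real.log_pos one_lt_two
  have hx : (0:ℝ) < (((2 ^ M) ^ K : ℕ) : ℝ) := by positivity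
  rw [Real.rpow_def_of_pos hx]
  apply Real.exp_le_exp.mpr
  have hlog : Real.log (((2 ^ M) ^ K : ℕ) : ℝ) = K * (M * Real.log 2) := by
    push_cast
    rw [Real.log_pow, Real.log_pow]
  rw [hlog]
  have h3 : 6 * κ * C2 ≤ ε / 4 * Real.log 2 := by
    have h := mul_le_mul_of_nonneg_right hκ h2.le
    have e : 6 * κ * (C2 / Real.log 2) * Real.log 2 = 6 * κ * C2 := by
      field_simp
    linarith
  have h4 : 0 ≤ δ ^ 2 * M * K := by positivity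
  have h5 := mul_le_mul_of_nonneg_right h3 h4
  calc 6 * κ * (C2 * δ ^ 2 * M) * K = 6 * κ * C2 * (δ ^ 2 * M * K) := by ring
    _ ≤ ε / 4 * Real.log 2 * (δ ^ 2 * M * K) := h5
    _ = K * (M * Real.log 2) * (ε / 4 * δ ^ 2) := by ring

/-- the bound at the heights `N^(-K)`, `N = 2^M` -/
theorem Heights_K {ε κ δ t : ℝ} (hκ : 6 * κ * (C2 / Real.log 2) ≤ ε / 4)
    (ht : (1 / 4 + ε / 2) * δ ^ 2 ≤ (1 / 4 + ε) * t ^ 2) (M K : ℕ) :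
    (((2 ^ M : ℕ) : ℝ) ^ ((1 / 4 + ε / 4) * δ ^ 2)) ^ K *
        (((2 ^ M) ^ K : ℕ) : ℝ) ^ ((2 - t) - 1) * Real.exp (6 * κ * (C2 * δ ^ 2 * M) * K) ≤
      (((2 ^ M) ^ K : ℕ) : ℝ) ^ (1 - t + (1 / 4 + ε) * t ^ 2) := by
  have hx : (0:ℝ) < (((2 ^ M) ^ K : ℕ) : ℝ) := by positivity
  have hx1 : (1:ℝ) ≤ (((2 ^ M) ^ K : ℕ) : ℝ) := by
    push_cast
    exact one_le_pow₀ (one_le_pow₀ one_le_two)
  have hG : (((2 ^ M : ℕ) : ℝ) ^ ((1 / 4 + ε / 4) * δ ^ 2)) ^ K =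
      (((2 ^ M) ^ K : ℕ) : ℝ) ^ ((1 / 4 + ε / 4) * δ ^ 2) := by
    rw [← Real.rpow_natCast, ← Real.rpow_mul (by positivity), mul_comm,
      Real.rpow_mul (by positivity), Real.rpow_natCast]
    push_cast
    rfl
  rw [hG]
  calc (((2 ^ M) ^ K : ℕ) : ℝ) ^ ((1 / 4 + ε / 4) * δ ^ 2) *
        (((2 ^ M) ^ K : ℕ) : ℝ) ^ ((2 - t) - 1) * Real.exp (6 * κ * (C2 * δ ^ 2 * M) * K)
      ≤ (((2 ^ M) ^ K : ℕ) : ℝ) ^ ((1 / 4 + ε / 4) * δ ^ 2) *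
        (((2 ^ M) ^ K : ℕ) : ℝ) ^ ((2 - t) - 1) *
          (((2 ^ M) ^ K : ℕ) : ℝ) ^ (ε / 4 * δ ^ 2) :=
        mul_le_mul_of_nonneg_left (Heights_exp hκ M K) (by positivity)
    _ = (((2 ^ M) ^ K : ℕ) : ℝ) ^ ((1 / 4 + ε / 4) * δ ^ 2 + ((2 - t) - 1) +
          ε / 4 * δ ^ 2) := by
        rw [Real.rpow_add hx, Real.rpow_add hx]
    _ ≤ (((2 ^ M) ^ K : ℕ) : ℝ) ^ (1 - t + (1 / 4 + ε) * t ^ 2) := by
        apply Real.rpow_le_rpow_of_exponent_le hx1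
        linarith

/-- the height `N^(-K)` next to `y` -/
theorem Heights_near {y : ℝ} (hy : 0 < y) (hy1 : y ≤ 1) {M : ℕ} (hM : 1 ≤ M) :
    ∃ K : ℕ, y ≤ ((((2 ^ M) ^ K : ℕ) : ℝ))⁻¹ ∧ ((((2 ^ M) ^ K : ℕ) : ℝ))⁻¹ ≤ 2 ^ M * y := by
  have h1 : (1 : ℝ) ≤ y⁻¹ := (one_le_inv₀ hy).mpr hy1
  have h2 : (1 : ℝ) < 2 ^ M := one_lt_pow₀ one_lt_two (by omega)
  obtain ⟨K, h3, h4⟩ := exists_nat_pow_near h1 h2
  have hx : (0:ℝ) < (2 ^ M) ^ K := by positivity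
  refine ⟨K, ?_, ?_⟩
  · push_cast
    rw [le_inv_comm₀ hy hx]
    exact h3
  · push_cast
    rw [inv_le_iff_one_le_mul₀ hx]
    rw [pow_succ, inv_lt_iff_one_lt_mul₀ hy] at h4
    linarith

/-- from the heights `N^(-L)`, `N = 2^m`, to all heights -/
theorem heights_core {F : ℂ → ℂ} {A : ℝ} (hF : Fn F A) {m : ℕ} (hm : 1 ≤ m) {p b C : ℝ}
    (hp : 0 ≤ p) (hp2 : p ≤ 2) (hb : 0 ≤ b) (hC : 0 ≤ C)
    (h : ∀ L : ℕ, ∫ ξ in (0:ℝ)..(2 * π), ‖deriv F ⟨(((2 ^ m) ^ L : ℕ) : ℝ)⁻¹, ξ⟩‖ ^ p ≤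
      C * (((2 ^ m) ^ L : ℕ) : ℝ) ^ b) {y : ℝ} (hy : 0 < y) (hy1 : y ≤ 1) :
    ∫ ξ in (0:ℝ)..(2 * π), ‖deriv F ⟨y, ξ⟩‖ ^ p ≤ (55 ^ m) ^ 2 * C * y ^ (-b) := by
  obtain ⟨L, hL1, hL2⟩ := Heights_near hy hy1 hm
  have hx : (0:ℝ) < (((2 ^ m) ^ L : ℕ) : ℝ) := by positivity
  have hx1 : (1:ℝ) ≤ (((2 ^ m) ^ L : ℕ) : ℝ) := by
    push_cast
    exact one_le_pow₀ (one_le_pow₀ one_le_two)
  have hmono := Heights_mono hF hy hL1 (inv_le_one_of_one_le₀ hx1) m hL2 hp hp2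
  have hpow : (((2 ^ m) ^ L : ℕ) : ℝ) ^ b ≤ y ^ (-b) := by
    rw [Real.rpow_neg hy.le, ← Real.inv_rpow hy.le]
    apply Real.rpow_le_rpow hx.le _ hb
    rw [le_inv_comm₀ hx hy]
    exact hL1
  calc ∫ ξ in (0:ℝ)..(2 * π), ‖deriv F ⟨y, ξ⟩‖ ^ p
      ≤ (55 ^ m) ^ 2 * ∫ ξ in (0:ℝ)..(2 * π),
          ‖deriv F ⟨(((2 ^ m) ^ L : ℕ) : ℝ)⁻¹, ξ⟩‖ ^ p := hmono
    _ ≤ (55 ^ m) ^ 2 * (C * y ^ (-b)) := by
        apply mul_le_mul_of_nonneg_left _ (by positivity)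
        exact (h L).trans (mul_le_mul_of_nonneg_left hpow hC)
    _ = (55 ^ m) ^ 2 * C * y ^ (-b) := by ring

theorem heights {ε : ℝ} (hε : 0 < ε) :
    ∃ δ₀ : ℝ, 0 < δ₀ ∧ δ₀ ≤ 1 / 4 ∧ ∀ δ : ℝ, 0 < δ → δ < δ₀ → ∀ A : ℝ, 0 ≤ A → ∃ C : ℝ, 0 ≤ C ∧
      ∀ F : ℂ → ℂ, Fn F A → ∀ y : ℝ, 0 < y → y ≤ 1 →
        ∫ ξ in (0:ℝ)..(2 * π), ‖deriv F ⟨y, ξ⟩‖ ^ (2 - δ) ≤
          C * y ^ (-(1 - δ + (1 / 4 + ε) * δ ^ 2)) := by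
  obtain ⟨κ, hκ, hκ1, hκ2, M, hM, hκM, Cθ, δw, hCθ, hδw, hδw1, hw⟩ :=
    window_ex (ε := ε / 4) (by positivity)
  have hC2 : (0:ℝ) < C2 := by
    unfold C2
    norm_num
  obtain ⟨C', hC'⟩ : ∃ C' : ℝ, C' = 8 * Cθ + 1 := ⟨_, rfl⟩
  have hC'0 : 0 < C' := by
    rw [hC']
    positivity
  obtain ⟨s₀, hs₀⟩ : ∃ s₀ : ℝ, s₀ = ε / (3 / 2 + 3 * ε) := ⟨_, rfl⟩
  have hs0 : 0 < s₀ := by
    rw [hs₀]
    positivity
  have hs1 : s₀ ≤ 1 / 3 := by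
    rw [hs₀, div_le_iff₀ (by positivity)]
    linarith
  have hs2 : s₀ * (3 / 2 + 3 * ε) = ε := by
    rw [hs₀]
    field_simp
  have hMC : 0 < 3 * (C2 * M + 1) := by positivity
  refine ⟨min (1 / 4) (min (δw / 2) (min (s₀ / C') (2 / (3 * (C2 * M + 1))))), ?_,
    min_le_left _ _, ?_⟩
  · exact lt_min (by norm_num) (lt_min (by positivity) (lt_min (by positivity) (by positivity)))
  intro t ht ht' A hA
  rw [lt_min_iff, lt_min_iff, lt_min_iff] at ht'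
  obtain ⟨ht1, ht2, ht3, ht4⟩ := ht'
  rw [lt_div_iff₀ hC'0] at ht3
  rw [lt_div_iff₀ hMC] at ht4
  obtain ⟨δ, hδ⟩ : ∃ δ : ℝ, δ = t + C' * t ^ 2 := ⟨_, rfl⟩
  have hδt : δ = t * (1 + t * C') := by
    rw [hδ]
    ring
  have hδ0 : 0 < δ := by
    rw [hδ]
    positivity
  have hδ2 : δ ≤ 2 * t := by
    rw [hδt]
    nlinarith
  have hδw2 : δ < δw := by linarith
  have hδ14 : δ ≤ 1 / 4 := by linarith
  have h2δ : 0 < 2 - δ := by linarith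
  obtain ⟨θ, hθ⟩ : ∃ θ : ℝ, θ = C' * t ^ 2 / (2 - δ) := ⟨_, rfl⟩
  have hθ0 : 0 ≤ θ := by
    rw [hθ]
    positivity
  have hθm : θ * (2 - δ) = C' * t ^ 2 := by
    rw [hθ]
    field_simp
  have hθ1 : Cθ * δ ^ 2 ≤ θ := by
    have h1 : δ ^ 2 ≤ (2 * t) ^ 2 := pow_le_pow_left₀ hδ0.le hδ2 2
    have h2 : Cθ * δ ^ 2 ≤ Cθ * (2 * t) ^ 2 := mul_le_mul_of_nonneg_left h1 hCθ
    have h3 : C' * t ^ 2 ≤ 2 * θ := by
      rw [← hθm]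
      nlinarith
    have h4 : 0 ≤ t ^ 2 := sq_nonneg t
    rw [hC'] at h3
    nlinarith
  have hθ2 : θ ≤ δ := by
    have h1 : θ ≤ C' * t ^ 2 := by
      rw [← hθm]
      nlinarith
    rw [hδ]
    linarith
  have hprod : (2 - δ) * (1 + θ) = 2 - t := by
    have h : (2 - δ) * (1 + θ) = 2 - δ + θ * (2 - δ) := by ring
    rw [h, hθm, hδ]
    ring
  have hexp : (1 / 4 + ε / 2) * δ ^ 2 ≤ (1 / 4 + ε) * t ^ 2 := by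
    have h1 : (1 + t * C') ^ 2 ≤ 1 + 3 * s₀ := by nlinarith
    have h2 : (1 / 4 + ε / 2) * (1 + 3 * s₀) = 1 / 4 + ε := by
      have h : (1 / 4 + ε / 2) * (1 + 3 * s₀) =
        1 / 4 + ε / 2 + s₀ * (3 / 2 + 3 * ε) / 2 := by ring
      rw [h, hs2]
      ring
    rw [hδt, mul_pow]
    calc (1 / 4 + ε / 2) * (t ^ 2 * (1 + t * C') ^ 2)
        = t ^ 2 * ((1 / 4 + ε / 2) * (1 + t * C') ^ 2) := by ring
      _ ≤ t ^ 2 * ((1 / 4 + ε / 2) * (1 + 3 * s₀)) := by gcongr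
      _ = (1 / 4 + ε) * t ^ 2 := by
        rw [h2]
        ring
  have hc1 : 3 * κ * (C2 * δ ^ 2 * M) ≤ 1 / 2 := by
    have h1 : δ ^ 2 ≤ (2 * t) ^ 2 := pow_le_pow_left₀ hδ0.le hδ2 2
    have h2 : C2 * δ ^ 2 * M ≤ C2 * (2 * t) ^ 2 * M := by gcongr
    have h3 : 3 * κ * (C2 * δ ^ 2 * M) ≤ 3 * (1 / 4) * (C2 * (2 * t) ^ 2 * M) := by gcongr
    have h4 : t * (C2 * M) ≤ 2 / 3 := by
      have h5 : t * (3 * (C2 * M + 1)) = 3 * (t * (C2 * M)) + 3 * t := by ring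
      rw [h5] at ht4
      linarith
    have h6 : 0 ≤ t * (C2 * M) := by positivity
    calc 3 * κ * (C2 * δ ^ 2 * M) ≤ 3 * (1 / 4) * (C2 * (2 * t) ^ 2 * M) := h3
      _ = 3 * t * (t * (C2 * M)) := by ring
      _ ≤ 3 * (1 / 4) * (2 / 3) := by gcongr
      _ = 1 / 2 := by norm_num
  refine ⟨(55 ^ M) ^ 2 * (2 * π * 500000 ^ 2 * (A + 7) ^ 2), by positivity, ?_⟩
  intro F hF y hy hy1
  have hb : 0 ≤ 1 - t + (1 / 4 + ε) * t ^ 2 := by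
    have : 0 ≤ (1 / 4 + ε) * t ^ 2 := by positivity
    linarith
  refine heights_core hF hM (by linarith) (by linarith) hb (by positivity) (fun K => ?_) hy hy1
  have havg := hF.avg hA (κ := κ) (c' := C2 * δ ^ 2 * M)
    (G := ((2 ^ M : ℕ) : ℝ) ^ ((1 / 4 + ε / 4) * δ ^ 2)) (N := 2 ^ M) hδ0 hδ14 hθ0
    (by linarith) hκ hκ1 (by positivity) hc1 hκM (by positivity)
    (fun c ℓ hℓ hℓ1 => hw δ hδ0 hδw2 θ hθ1 hθ2 F A hF c ℓ hℓ hℓ1) K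
  rw [hprod] at havg
  exact havg.trans (mul_le_mul_of_nonneg_left (Heights_K hκ2 hexp M K) (by positivity))

end Pool.Agent.Helper90.G2
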