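import Pool.Agent.Helper90.G2.Heights
import Pool.Agent.Helper90.G2.SigF

/-!
# G2-MAIN: the theorem

`R ≤ e`: `y = log R`, `|ψ' (R e^(iθ))| R = |F' (y + i θ)|`, so `|ψ'| ≤ |F'|`, and
`1 / log R ≤ 2 R² / (R² - 1)`. `R > e`: `|ψ'| ≤ A` and `R² / (R² - 1) ≥ 1`.
-/

set_option autoImplicit false

namespace Pool.Agent.Helper90.G2

open MeasureTheory Set
open scoped Real

theorem Main_point {R : ℝ} (hR : 1 < R) (θ : ℝ) :
    Complex.exp (⟨Real.log R, θ⟩ : ℂ) = (R : ℂ) * Complex.exp ((θ : ℂ) * Complex.I) := by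
  have h : (⟨Real.log R, θ⟩ : ℂ) = ((Real.log R : ℝ) : ℂ) + (θ : ℂ) * Complex.I := by
    apply Complex.ext <;> simp
  rw [h, Complex.exp_add, ← Complex.ofReal_exp, Real.exp_log (by linarith)]

theorem Main_norm {R : ℝ} (hR : 1 < R) (θ : ℝ) :
    ‖(R : ℂ) * Complex.exp ((θ : ℂ) * Complex.I)‖ = R := by
  rw [norm_mul, Complex.norm_exp_ofReal_mul_I, mul_one, Complex.norm_real, Real.norm_eq_abs,
    abs_of_pos (by linarith)]

theorem Main_chain {ψ : ℂ → ℂ} (hψ : DifferentiableOn ℂ ψ {z : ℂ | 1 < ‖z‖}) {R : ℝ} (hR : 1 < R)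
    (θ : ℝ) :
    ‖deriv (fun u => ψ (Complex.exp u)) ⟨Real.log R, θ⟩‖ =
      ‖deriv ψ ((R : ℂ) * Complex.exp ((θ : ℂ) * Complex.I))‖ * R := by
  have hopen : IsOpen {z : ℂ | 1 < ‖z‖} := isOpen_lt continuous_const continuous_norm
  have hmem : (R : ℂ) * Complex.exp ((θ : ℂ) * Complex.I) ∈ {z : ℂ | 1 < ‖z‖} := by
    show 1 < ‖(R : ℂ) * Complex.exp ((θ : ℂ) * Complex.I)‖
    rw [Main_norm hR]
    exact hR
  have h1 : HasDerivAt ψ (deriv ψ (Complex.exp (⟨Real.log R, θ⟩ : ℂ)))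
      (Complex.exp (⟨Real.log R, θ⟩ : ℂ)) := by
    rw [Main_point hR]
    exact ((hψ _ hmem).differentiableAt (hopen.mem_nhds hmem)).hasDerivAt
  have h2 := h1.comp (⟨Real.log R, θ⟩ : ℂ) (Complex.hasDerivAt_exp _)
  have h3 : deriv (fun u => ψ (Complex.exp u)) ⟨Real.log R, θ⟩ =
      deriv ψ (Complex.exp (⟨Real.log R, θ⟩ : ℂ)) * Complex.exp (⟨Real.log R, θ⟩ : ℂ) := h2.deriv
  rw [h3, norm_mul, Main_point hR, Main_norm hR]

theorem Main_log {R : ℝ} (hR : 1 < R) : (R ^ 2 - 1) / (2 * R ^ 2) ≤ Real.log R := by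
  have hR0 : 0 < R := by linarith
  have h1 : Real.log ((R ^ 2)⁻¹) ≤ (R ^ 2)⁻¹ - 1 := Real.log_le_sub_one_of_pos (by positivity)
  rw [Real.log_inv, Real.log_pow] at h1
  have h2 : (R ^ 2 - 1) / (2 * R ^ 2) = (1 - (R ^ 2)⁻¹) / 2 := by
    field_simp
  rw [h2]
  push_cast at h1
  linarith

theorem Main_small {R β : ℝ} (hR : 1 < R) (hβ : 0 ≤ β) :
    Real.log R ^ (-β) ≤ 2 ^ β * (R ^ 2 / (R ^ 2 - 1)) ^ β := by
  have hR1 : 0 < R ^ 2 - 1 := by nlinarith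
  have hlog : 0 < Real.log R := Real.log_pos hR
  have h1 := Main_log hR
  have h2 : 0 < (R ^ 2 - 1) / (2 * R ^ 2) := by positivity
  have h3 : (Real.log R)⁻¹ ≤ 2 * (R ^ 2 / (R ^ 2 - 1)) := by
    have h4 : (Real.log R)⁻¹ ≤ ((R ^ 2 - 1) / (2 * R ^ 2))⁻¹ := inv_anti₀ h2 h1
    have h5 : ((R ^ 2 - 1) / (2 * R ^ 2))⁻¹ = 2 * (R ^ 2 / (R ^ 2 - 1)) := by
      rw [inv_div]
      ring
    rw [h5] at h4
    exact h4
  rw [Real.rpow_neg hlog.le, ← Real.inv_rpow hlog.le, ← Real.mul_rpow (by norm_num) (by positivity)]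
  exact Real.rpow_le_rpow (by positivity) h3 hβ

/-- from the right half plane to the class Sigma, any exponent -/
theorem main_core {δ β : ℝ} (hδ1 : δ ≤ 2) (hβ0 : 0 ≤ β)
    (hh : ∀ A : ℝ, 0 ≤ A → ∃ C : ℝ, 0 ≤ C ∧ ∀ F : ℂ → ℂ, Fn F A → ∀ y : ℝ, 0 < y → y ≤ 1 →
      ∫ ξ in (0:ℝ)..(2 * π), ‖deriv F ⟨y, ξ⟩‖ ^ (2 - δ) ≤ C * y ^ (-β)) :
    ∃ C : ℝ, ∀ ψ : ℂ → ℂ, DifferentiableOn ℂ ψ {z : ℂ | 1 < ‖z‖} →
    Set.InjOn ψ {z : ℂ | 1 < ‖z‖} →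
    (∃ b : ℂ, Filter.Tendsto (fun z => ψ z - z) (Bornology.cobounded ℂ) (nhds b)) →
    ∀ R : ℝ, 1 < R →
      (1 / (2 * π)) * ∫ θ in (0:ℝ)..(2 * π),
        ‖deriv ψ ((R : ℂ) * Complex.exp ((θ : ℂ) * Complex.I))‖ ^ (2 - δ) ≤
      C * (R ^ 2 / (R ^ 2 - 1)) ^ β := by
  obtain ⟨A, hA, hsig⟩ := sig_fn
  obtain ⟨C, hC, hh⟩ := hh A hA
  obtain ⟨p, hp⟩ : ∃ p : ℝ, p = 2 - δ := ⟨_, rfl⟩
  have hp0 : 0 ≤ p := by linarith
  have hπ : 0 < π := Real.pi_pos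
  refine ⟨(1 / (2 * π)) * (C * 2 ^ β) + A ^ p, ?_⟩
  intro ψ hψ hinj hlim R hR
  rw [← hp]
  obtain ⟨hF, hbd⟩ := hsig ψ hψ hinj hlim
  have hR0 : 0 < R := by linarith
  have hR1 : 0 < R ^ 2 - 1 := by nlinarith
  have hlog : 0 < Real.log R := Real.log_pos hR
  have hX0 : 0 ≤ (R ^ 2 / (R ^ 2 - 1)) ^ β := by positivity
  have hX1 : 1 ≤ (R ^ 2 / (R ^ 2 - 1)) ^ β := by
    apply Real.one_le_rpow _ hβ0
    rw [one_le_div hR1]
    linarith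
  have hAp : 0 ≤ A ^ p := Real.rpow_nonneg hA p
  have hcont := Heights_cont hF hlog hp0
  have heq : ∀ θ : ℝ, ‖deriv ψ ((R : ℂ) * Complex.exp ((θ : ℂ) * Complex.I))‖ ^ p =
      (R⁻¹) ^ p * ‖deriv (fun u => ψ (Complex.exp u)) ⟨Real.log R, θ⟩‖ ^ p := by
    intro θ
    rw [Main_chain hψ hR, ← Real.mul_rpow (by positivity) (by positivity)]
    congr 1
    field_simp
  rcases le_or_gt R (Real.exp 1) with hRe | hRe
  · have hlog1 : Real.log R ≤ 1 := by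
      rw [← Real.log_exp 1]
      exact Real.log_le_log hR0 hRe
    have h1 := hh _ hF (Real.log R) hlog hlog1
    rw [← hp] at h1
    have h2 : ∫ θ in (0:ℝ)..(2 * π),
        ‖deriv ψ ((R : ℂ) * Complex.exp ((θ : ℂ) * Complex.I))‖ ^ p =
        (R⁻¹) ^ p * ∫ θ in (0:ℝ)..(2 * π),
          ‖deriv (fun u => ψ (Complex.exp u)) ⟨Real.log R, θ⟩‖ ^ p := by
      rw [← intervalIntegral.integral_const_mul]
      exact intervalIntegral.integral_congr fun θ _ => heq θ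
    have h3 : (R⁻¹) ^ p ≤ 1 :=
      Real.rpow_le_one (by positivity) (inv_le_one_of_one_le₀ hR.le) hp0
    have h4 : 0 ≤ ∫ θ in (0:ℝ)..(2 * π),
        ‖deriv (fun u => ψ (Complex.exp u)) ⟨Real.log R, θ⟩‖ ^ p := by
      apply intervalIntegral.integral_nonneg (by positivity)
      intro θ _
      positivity
    have h5 := Main_small hR hβ0
    rw [h2]
    calc (1 / (2 * π)) * ((R⁻¹) ^ p * ∫ θ in (0:ℝ)..(2 * π),
          ‖deriv (fun u => ψ (Complex.exp u)) ⟨Real.log R, θ⟩‖ ^ p)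
        ≤ (1 / (2 * π)) * (1 * (C * Real.log R ^ (-β))) := by gcongr
      _ ≤ (1 / (2 * π)) * (1 * (C * (2 ^ β * (R ^ 2 / (R ^ 2 - 1)) ^ β))) := by gcongr
      _ = (1 / (2 * π)) * (C * 2 ^ β) * (R ^ 2 / (R ^ 2 - 1)) ^ β := by ring
      _ ≤ ((1 / (2 * π)) * (C * 2 ^ β) + A ^ p) * (R ^ 2 / (R ^ 2 - 1)) ^ β := by
        apply mul_le_mul_of_nonneg_right _ hX0
        linarith
  · have hcont2 : Continuous fun θ : ℝ =>
        ‖deriv ψ ((R : ℂ) * Complex.exp ((θ : ℂ) * Complex.I))‖ ^ p := by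
      have : (fun θ : ℝ => ‖deriv ψ ((R : ℂ) * Complex.exp ((θ : ℂ) * Complex.I))‖ ^ p) =
          fun θ : ℝ => (R⁻¹) ^ p *
            ‖deriv (fun u => ψ (Complex.exp u)) ⟨Real.log R, θ⟩‖ ^ p := funext heq
      rw [this]
      exact continuous_const.mul hcont
    have h2 : ∫ θ in (0:ℝ)..(2 * π),
        ‖deriv ψ ((R : ℂ) * Complex.exp ((θ : ℂ) * Complex.I))‖ ^ p ≤
        ∫ _ in (0:ℝ)..(2 * π), A ^ p := by
      apply intervalIntegral.integral_mono_on (by positivity)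
        (hcont2.intervalIntegrable _ _) (continuous_const.intervalIntegrable _ _)
      intro θ _
      apply Real.rpow_le_rpow (norm_nonneg _) _ hp0
      apply hbd
      rw [Main_norm hR]
      exact hRe.le
    rw [intervalIntegral.integral_const, smul_eq_mul, sub_zero] at h2
    have h0 : 0 ≤ (1 / (2 * π)) * (C * 2 ^ β) := by positivity
    calc (1 / (2 * π)) * ∫ θ in (0:ℝ)..(2 * π),
          ‖deriv ψ ((R : ℂ) * Complex.exp ((θ : ℂ) * Complex.I))‖ ^ p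
        ≤ (1 / (2 * π)) * (2 * π * A ^ p) := by gcongr
      _ = A ^ p := by field_simp
      _ ≤ A ^ p * (R ^ 2 / (R ^ 2 - 1)) ^ β := le_mul_of_one_le_right hAp hX1
      _ ≤ ((1 / (2 * π)) * (C * 2 ^ β) + A ^ p) * (R ^ 2 / (R ^ 2 - 1)) ^ β := by
        apply mul_le_mul_of_nonneg_right _ hX0
        linarith

theorem main : ∀ ε : ℝ, 0 < ε → ∃ δ₀ : ℝ, 0 < δ₀ ∧ ∀ δ : ℝ, 0 < δ → δ < δ₀ → ∃ C : ℝ,
    ∀ ψ : ℂ → ℂ, DifferentiableOn ℂ ψ {z : ℂ | 1 < ‖z‖} → Set.InjOn ψ {z : ℂ | 1 < ‖z‖} →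
    (∃ b : ℂ, Filter.Tendsto (fun z => ψ z - z) (Bornology.cobounded ℂ) (nhds b)) →
    ∀ R : ℝ, 1 < R →
      (1 / (2 * π)) * ∫ θ in (0:ℝ)..(2 * π),
        ‖deriv ψ ((R : ℂ) * Complex.exp ((θ : ℂ) * Complex.I))‖ ^ (2 - δ) ≤
      C * (R ^ 2 / (R ^ 2 - 1)) ^ (1 - δ + (1 / 4 + ε) * δ ^ 2) := by
  intro ε hε
  obtain ⟨δ₀, hδ₀, hδ₁, h⟩ := heights hε
  refine ⟨δ₀, hδ₀, ?_⟩
  intro δ hδ hδ'
  have hβ0 : 0 ≤ 1 - δ + (1 / 4 + ε) * δ ^ 2 := by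
    have : 0 ≤ (1 / 4 + ε) * δ ^ 2 := by positivity
    linarith
  exact main_core (by linarith) hβ0 (h δ hδ hδ')

end Pool.Agent.Helper90.G2
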