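import Pool.Agent.Helper90.G2.Defs

/-!
# G2-AREA: images of boxes

Change of variables `MeasureTheory.lintegral_image_eq_lintegral_abs_det_fderiv_mul` (many examples
in the tree: search for `abs_det_fderiv`), images of measurable sets under injective continuous
maps are measurable (`MeasurableSet.image_of_continuousOn_injOn`). `area_ball`: mean value
property of `F'^2` on circles, averaged with the invariance of the disk under rotations.
-/

set_option autoImplicit false

namespace Pool.Agent.Helper90.G2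

open MeasureTheory Set
open scoped Real

variable {F : ℂ → ℂ} {A : ℝ}

theorem meas_bx (c ℓ : ℝ) : MeasurableSet (Bx c ℓ) := by
  have h1 : MeasurableSet {u : ℂ | 0 < u.re} := measurableSet_lt measurable_const
    Complex.measurable_re
  have h2 : MeasurableSet {u : ℂ | u.re < ℓ} := measurableSet_lt Complex.measurable_re
    measurable_const
  have h3 : MeasurableSet {u : ℂ | |u.im - c| < ℓ / 2} := measurableSet_lt
    ((Complex.measurable_im.sub_const c).abs) measurable_const
  exact h1.inter (h2.inter h3)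

theorem meas_wn (c ℓ q : ℝ) : MeasurableSet (Wn c ℓ q) := by
  have h1 : MeasurableSet {u : ℂ | q * ℓ < u.re} := measurableSet_lt measurable_const
    Complex.measurable_re
  have h2 : MeasurableSet {u : ℂ | u.re < ℓ} := measurableSet_lt Complex.measurable_re
    measurable_const
  have h3 : MeasurableSet {u : ℂ | |u.im - c| < ℓ / 2} := measurableSet_lt
    ((Complex.measurable_im.sub_const c).abs) measurable_const
  exact h1.inter (h2.inter h3)

theorem Fn.meas (hF : Fn F A) {S : Set ℂ} (hS : MeasurableSet S) {c : ℝ}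
    (h : S ⊆ {u | 0 < u.re ∧ |u.im - c| < π}) : MeasurableSet (F '' S) :=
  hS.image_of_continuousOn_injOn (hF.diff.continuousOn.mono fun _ hu => (h hu).1)
    ((hF.inj c).mono h)

/-- the determinant of multiplication by a complex number -/
theorem area_det_smul_one (c : ℂ) : |(c • (1 : ℂ →L[ℝ] ℂ)).det| = ‖c‖ ^ 2 := by
  have h : (c • (1 : ℂ →L[ℝ] ℂ)).det = ‖c‖ ^ 2 := by
    have h1 : (((c • (1 : ℂ →L[ℝ] ℂ)) : ℂ →L[ℝ] ℂ) : ℂ →ₗ[ℝ] ℂ) =
        ((c • (LinearMap.id : ℂ →ₗ[ℂ] ℂ)).restrictScalars ℝ) := by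
      ext
      all_goals simp
    rw [ContinuousLinearMap.det, h1, LinearMap.det_restrictScalars]
    simp [Algebra.norm_complex_eq, Complex.normSq_eq_norm_sq]
  rw [h, abs_of_nonneg (by positivity)]

theorem area_isOpen_rp : IsOpen {u : ℂ | 0 < u.re} := isOpen_lt continuous_const Complex.continuous_re

theorem Fn.vol (hF : Fn F A) {S : Set ℂ} (hS : MeasurableSet S) {c : ℝ}
    (h : S ⊆ {u | 0 < u.re ∧ |u.im - c| < π}) :
    volume (F '' S) = ∫⁻ u in S, ENNReal.ofReal (‖deriv F u‖ ^ 2) := by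
  have h1 : ∀ u ∈ S, HasFDerivWithinAt F (deriv F u • (1 : ℂ →L[ℝ] ℂ)) S u := by
    intro u hu
    have h2 : HasDerivAt F (deriv F u) u :=
      (hF.diff.differentiableAt (area_isOpen_rp.mem_nhds (h hu).1)).hasDerivAt
    exact h2.complexToReal_fderiv.hasFDerivWithinAt
  rw [← lintegral_abs_det_fderiv_eq_addHaar_image volume hS h1 ((hF.inj c).mono h)]
  simp_rw [area_det_smul_one]

theorem Fn.fin (hF : Fn F A) {c ℓ : ℝ} (hℓ1 : ℓ ≤ 1) {S : Set ℂ}
    (h : S ⊆ Bx c ℓ) : volume (F '' S) < ⊤ := by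
  have h1 : S ⊆ Bx c 1 := by
    intro u hu
    obtain ⟨h2, h3, h4⟩ := h hu
    exact ⟨h2, h3.trans_le hℓ1, h4.trans_le (by linarith)⟩
  exact ((measure_mono (image_mono h1)).trans (hF.area c)).trans_lt ENNReal.ofReal_lt_top

theorem Fn.ar_mono (hF : Fn F A) {c ℓ : ℝ} (hℓ1 : ℓ ≤ 1) {S T : Set ℂ}
    (hT : T ⊆ Bx c ℓ) (h : S ⊆ T) : ar F S ≤ ar F T :=
  ENNReal.toReal_mono (hF.fin hℓ1 hT).ne (measure_mono (image_mono h))

/-- a function on the plane which is dominated from below in the mean on circles around `0` -/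
theorem area_circ_mean {f : ℂ → ENNReal} (hf : Measurable f) {s : Set ℂ} (hs : MeasurableSet s)
    {a : ENNReal}
    (h : ∀ z ∈ s, a * ENNReal.ofReal (2 * π) ≤
      ∫⁻ θ in Ioc 0 (2 * π), f (Complex.exp (θ * Complex.I) * z)) :
    a * volume s ≤ ∫⁻ z, f z := by
  have hπ : 0 < 2 * π := by positivity
  have hrot : ∀ θ : ℝ, ∫⁻ z, f (Complex.exp (θ * Complex.I) * z) = ∫⁻ z, f z := by
    intro θ
    have h1 := (rotation (Circle.exp θ)).measurePreserving.lintegral_comp hf
    simpa using h1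
  have h2 : ENNReal.ofReal (2 * π) * ∫⁻ z, f z =
      ∫⁻ θ in Ioc 0 (2 * π), ∫⁻ z, f (Complex.exp (θ * Complex.I) * z) := by
    simp_rw [hrot]
    rw [lintegral_const, Measure.restrict_apply_univ, Real.volume_Ioc, sub_zero, mul_comm]
  have hm : Measurable (fun p : ℝ × ℂ => f (Complex.exp (p.1 * Complex.I) * p.2)) := by
    apply hf.comp
    fun_prop
  have h3 : (∫⁻ θ in Ioc 0 (2 * π), ∫⁻ z, f (Complex.exp (θ * Complex.I) * z)) =
      ∫⁻ z, ∫⁻ θ in Ioc 0 (2 * π), f (Complex.exp (θ * Complex.I) * z) :=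
    lintegral_lintegral_swap hm.aemeasurable
  have h4 : a * ENNReal.ofReal (2 * π) * volume s ≤
      ∫⁻ z, ∫⁻ θ in Ioc 0 (2 * π), f (Complex.exp (θ * Complex.I) * z) := by
    calc a * ENNReal.ofReal (2 * π) * volume s
        = ∫⁻ _ in s, a * ENNReal.ofReal (2 * π) := by
          rw [lintegral_const, Measure.restrict_apply_univ]
      _ ≤ ∫⁻ z in s, ∫⁻ θ in Ioc 0 (2 * π), f (Complex.exp (θ * Complex.I) * z) :=
          setLIntegral_mono' hs h
      _ ≤ _ := setLIntegral_le_lintegral _ _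
  rw [← h3, ← h2] at h4
  have h5 : ENNReal.ofReal (2 * π) * (a * volume s) ≤ ENNReal.ofReal (2 * π) * ∫⁻ z, f z := by
    calc ENNReal.ofReal (2 * π) * (a * volume s) = a * ENNReal.ofReal (2 * π) * volume s := by ring
      _ ≤ _ := h4
  exact (ENNReal.mul_le_mul_iff_right (by simpa using hπ) ENNReal.ofReal_ne_top).1 h5

/-- mean value inequality for the square of a holomorphic function on a disk around `0` -/
theorem area_mean_disk {g : ℂ → ℂ} {r : ℝ} (hg : DifferentiableOn ℂ g (Metric.ball 0 r)) :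
    ENNReal.ofReal (‖g 0‖ ^ 2) * volume (Metric.ball (0:ℂ) r) ≤
      ∫⁻ z in Metric.ball 0 r, ENNReal.ofReal (‖g z‖ ^ 2) := by
  classical
  rw [← lintegral_indicator Metric.isOpen_ball.measurableSet]
  have hm : Measurable ((Metric.ball (0:ℂ) r).indicator
      fun z => ENNReal.ofReal (‖g z‖ ^ 2)) := by
    rw [← piecewise_eq_indicator]
    apply ContinuousOn.measurable_piecewise _ continuousOn_const
      Metric.isOpen_ball.measurableSet
    exact ENNReal.continuous_ofReal.comp_continuousOn (hg.continuousOn.norm.pow 2)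
  apply area_circ_mean hm Metric.isOpen_ball.measurableSet
  intro z hz
  rw [mem_ball_zero_iff] at hz
  have hmap : MapsTo (fun w : ℂ => w * z) (closure (Metric.ball 0 1)) (Metric.ball 0 r) := by
    intro w hw
    rw [closure_ball _ one_ne_zero, mem_closedBall_zero_iff] at hw
    rw [mem_ball_zero_iff, norm_mul]
    exact (mul_le_of_le_one_left (norm_nonneg z) hw).trans_lt hz
  have hh : DiffContOnCl ℂ (fun w => g (w * z) ^ 2) (Metric.ball (0:ℂ) |1|) := by
    rw [abs_one]
    apply DifferentiableOn.diffContOnCl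
    exact (hg.comp (differentiableOn_id.mul_const z) hmap).pow 2
  have h1 := hh.circleAverage
  rw [Real.circleAverage_def, zero_mul] at h1
  have h2 : ‖g 0 ^ 2‖ₑ * ENNReal.ofReal (2 * π) =
      ‖∫ θ in (0:ℝ)..2 * π, g (circleMap 0 1 θ * z) ^ 2‖ₑ := by
    have hπ : (0:ℝ) < 2 * π := by positivity
    rw [← h1, enorm_smul, mul_comm, ← mul_assoc, ← Real.enorm_of_nonneg hπ.le, ← enorm_mul,
      mul_inv_cancel₀ hπ.ne', enorm_one, one_mul]
  have h3 : ENNReal.ofReal (‖g 0‖ ^ 2) = ‖g 0 ^ 2‖ₑ := by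
    rw [← norm_pow, ofReal_norm]
  rw [h3, h2, intervalIntegral.integral_of_le (by positivity)]
  refine (enorm_integral_le_lintegral_enorm _).trans (lintegral_mono fun θ => ?_)
  have h4 : circleMap 0 1 θ * z ∈ Metric.ball (0:ℂ) r := by
    apply hmap
    rw [closure_ball _ one_ne_zero]
    simp
  have h5 : Complex.exp (θ * Complex.I) = circleMap 0 1 θ := by simp [circleMap]
  rw [h5, indicator_of_mem h4, ← norm_pow, ofReal_norm]

theorem Fn.area_ball (hF : Fn F A) {u : ℂ} {r : ℝ} (hr : 0 < r) (hru : r ≤ u.re) (hu : u.re ≤ 3)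
    (hfin : volume (F '' Metric.ball u r) < ⊤) :
    π * r ^ 2 * ‖deriv F u‖ ^ 2 ≤ ar F (Metric.ball u r) := by
  have hπ3 := Real.pi_gt_three
  have hsub : Metric.ball u r ⊆ {w : ℂ | 0 < w.re ∧ |w.im - u.im| < π} := by
    intro w hw
    rw [Metric.mem_ball, Complex.dist_eq] at hw
    have h1 := (Complex.abs_re_le_norm (w - u)).trans_lt hw
    have h2 := (Complex.abs_im_le_norm (w - u)).trans_lt hw
    rw [Complex.sub_re] at h1
    rw [Complex.sub_im] at h2
    refine ⟨?_, h2.trans_le (by linarith)⟩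
    have := (abs_lt.1 h1).1
    linarith
  have hball : ∀ z : ℂ, u + z ∈ Metric.ball u r ↔ z ∈ Metric.ball 0 r := by
    intro z
    rw [Metric.mem_ball, dist_eq_norm, add_sub_cancel_left, ← mem_ball_zero_iff]
  have hg : DifferentiableOn ℂ (fun z => deriv F (u + z)) (Metric.ball 0 r) := by
    apply (hF.diff.deriv area_isOpen_rp).comp (differentiableOn_id.const_add u)
    intro z hz
    exact (hsub ((hball z).2 hz)).1
  have h1 := area_mean_disk hg
  rw [add_zero] at h1
  have h2 : (∫⁻ z in Metric.ball (0:ℂ) r, ENNReal.ofReal (‖deriv F (u + z)‖ ^ 2)) =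
      volume (F '' Metric.ball u r) := by
    rw [hF.vol Metric.isOpen_ball.measurableSet hsub,
      ← lintegral_indicator Metric.isOpen_ball.measurableSet,
      ← lintegral_indicator Metric.isOpen_ball.measurableSet,
      ← lintegral_add_left_eq_self ((Metric.ball u r).indicator
        fun z => ENNReal.ofReal (‖deriv F z‖ ^ 2)) u]
    congr 1
    ext z
    by_cases hz : z ∈ Metric.ball (0:ℂ) r
    · rw [indicator_of_mem hz, indicator_of_mem ((hball z).2 hz)]
    · rw [indicator_of_notMem hz, indicator_of_notMem (mt (hball z).1 hz)]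
  rw [h2, Complex.volume_ball] at h1
  have h3 := ENNReal.toReal_mono hfin.ne h1
  rw [ENNReal.toReal_mul, ENNReal.toReal_mul, ENNReal.toReal_pow,
    ENNReal.toReal_ofReal (by positivity), ENNReal.toReal_ofReal hr.le, ENNReal.coe_toReal,
    NNReal.coe_real_pi] at h3
  unfold ar
  linarith

end Pool.Agent.Helper90.G2
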