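import Pool.Agent.Helper90.G2.Pot
import Pool.Agent.Helper39.G2.Shift

/-!
# G2-MOVE: moving the point (the Ahlfors-Beurling inequality)

Pointwise, with `X = log (|w - p| / |w - p'|)`: `|w - p'|^(-δ) ≤ e^(δ m) |w - p|^(-δ) +
|w - p'|^(-δ) δ max (X - m) 0`, because `1 ≤ e^(δ (m - X)) + δ max (X - m) 0` (`w ≠ p, p'`). The
integral of the last term over the plane is bounded with Apollonius disks and the layer cake formula
in `Pool.Agent.Helper39.G2.Shift`; only `2 * 2^δ / ((2 - δ) (1 - δ)) ≤ 1 + 32 δ` is proved here.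
-/

set_option autoImplicit false
set_option linter.unusedVariables false

namespace Pool.Agent.Helper90.G2

open MeasureTheory Set
open scoped Real

/-- the error term -/
noncomputable def er (δ m s : ℝ) : ℝ := δ * (1 + 32 * δ) * (π * s ^ 2 / (4 * m)) * (s / m) ^ (-δ)

theorem two_rpow_bound {δ : ℝ} (h0 : 0 < δ) (h1 : δ ≤ 1 / 4) :
    2 * (2 : ℝ) ^ δ ≤ (1 + 32 * δ) * ((2 - δ) * (1 - δ)) := by
  have h2 : (2 : ℝ) ^ δ ≤ 1 + δ := by
    have h := _root_.rpow_one_add_le_one_add_mul_self (s := 1) (by norm_num) h0.le (by linarith)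
    have h3 : (1 : ℝ) + 1 = 2 := by norm_num
    rw [h3, mul_one] at h
    exact h
  nlinarith [mul_nonneg h0.le (sub_nonneg.mpr h1), mul_nonneg (mul_nonneg h0.le h0.le) h0.le]

theorem vp_move {δ m s : ℝ} (hm : 0 < m) (hm1 : m ≤ 1) (h0 : 0 < δ) (h1 : δ ≤ 1 / 4) (hs : 0 < s)
    {Q : Set ℂ} (hQ : MeasurableSet Q) (hv : volume Q < ⊤) {p p' : ℂ} (h : ‖p' - p‖ ≤ s) :
    Vp δ Q p' ≤ Real.exp (δ * m) * Vp δ Q p + er δ m s := by
  have h2 := Helper39.G2.shift (d := δ) (m := m) (s := s) h0 (by linarith) hm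
    (p := p) (q := p') (by rwa [norm_sub_rev] at h) (Q := Q) hv.ne
  refine h2.trans ?_
  unfold Vp
  gcongr
  unfold er
  have h3 : 0 < 2 - δ := by linarith
  have h4 : 0 < 1 - δ := by linarith
  have h5 : (s / 2) ^ (2 - δ) = s ^ 2 / 4 * (2 : ℝ) ^ δ * s ^ (-δ) := by
    rw [Real.div_rpow hs.le (by norm_num), sub_eq_add_neg, Real.rpow_add hs,
      Real.rpow_add (by norm_num : (0 : ℝ) < 2), Real.rpow_neg (by norm_num : (0 : ℝ) ≤ 2) δ]
    have h6 : (2 : ℝ) ^ δ ≠ 0 := (Real.rpow_pos_of_pos (by norm_num) _).ne'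
    rw [Real.rpow_two, Real.rpow_two]
    field_simp
    norm_num
  have h7 : m ^ (-(1 - δ)) = m⁻¹ * m ^ δ := by
    have h8 : -(1 - δ) = -1 + δ := by ring
    rw [h8, Real.rpow_add hm, Real.rpow_neg_one]
  have h9 : (s / m) ^ (-δ) = s ^ (-δ) * m ^ δ := by
    rw [Real.div_rpow hs.le hm.le, Real.rpow_neg hm.le δ, div_inv_eq_mul]
  rw [h5, h7, h9]
  have h10 : 0 < s ^ (-δ) := Real.rpow_pos_of_pos hs _
  have h11 : 0 < m ^ δ := Real.rpow_pos_of_pos hm _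
  have h12 : δ * (2 / (2 - δ)) * (1 / (1 - δ)) * (π * (s ^ 2 / 4 * (2 : ℝ) ^ δ * s ^ (-δ)) *
      (m⁻¹ * m ^ δ)) = (2 * (2 : ℝ) ^ δ / ((2 - δ) * (1 - δ))) *
        (δ * (π * s ^ 2 / (4 * m)) * (s ^ (-δ) * m ^ δ)) := by
    field_simp
  rw [h12]
  have h13 : 2 * (2 : ℝ) ^ δ / ((2 - δ) * (1 - δ)) ≤ 1 + 32 * δ := by
    rw [div_le_iff₀ (mul_pos h3 h4)]
    exact two_rpow_bound h0 h1
  have h14 : 0 ≤ δ * (π * s ^ 2 / (4 * m)) * (s ^ (-δ) * m ^ δ) := by positivity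
  calc _ ≤ (1 + 32 * δ) * (δ * (π * s ^ 2 / (4 * m)) * (s ^ (-δ) * m ^ δ)) :=
        mul_le_mul_of_nonneg_right h13 h14
    _ = _ := by ring

end Pool.Agent.Helper90.G2
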