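import Pool.Agent.Helper90.G2.Osc
import Pool.Agent.Helper90.G2.Move

/-!
# G2-KIDS: a box, its window and its children

The boxes `Bx (ch N c ℓ d) (ℓ / N)`, `d < N`, are disjoint, contained in `Bx c ℓ` and disjoint from
`Wn c ℓ (1 / N)`; `F` is injective on `Bx c ℓ`, so the images are disjoint (`vp_add`). The image of the
window is contained in the disk of radius `500 (1 + log N) √ar` around `F (zt c ℓ)` (`Fn.osc_rad`), as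
are the images of the top points of the children (they are on the lower side of the window).
-/

set_option autoImplicit false

namespace Pool.Agent.Helper90.G2

open MeasureTheory Set
open scoped Real

variable {F : ℂ → ℂ} {A : ℝ}

/-- the part of `V` carried by child `d` before the point is moved -/
noncomputable def Vc (F : ℂ → ℂ) (δ c ℓ : ℝ) (N d : ℕ) : ℝ :=
  Vp δ (F '' Bx (ch N c ℓ d) (ℓ / N)) (F (zt c ℓ))

/-- the part of `V` carried by the window -/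
noncomputable def Vw (F : ℂ → ℂ) (δ c ℓ : ℝ) (N : ℕ) : ℝ :=
  Vp δ (F '' Wn c ℓ (1 / N)) (F (zt c ℓ))

/-! ### elementary facts on the boxes -/

lemma ch_bound {c ℓ : ℝ} (hℓ : 0 < ℓ) {N d : ℕ} (hN : 2 ≤ N) (hd : d < N) :
    -(ℓ / 2) ≤ ch N c ℓ d - c - ℓ / N / 2 ∧ ch N c ℓ d - c + ℓ / N / 2 ≤ ℓ / 2 := by
  have hN0 : (0:ℝ) < N := by
    have : 0 < N := by omega
    exact_mod_cast this
  have hd0 : (0:ℝ) ≤ d := Nat.cast_nonneg d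
  have hd1 : (d:ℝ) + 1 ≤ N := by exact_mod_cast hd
  have e1 : ch N c ℓ d - c - ℓ / N / 2 = (d / N - 1 / 2) * ℓ := by
    unfold ch
    field_simp
    ring
  have e2 : ch N c ℓ d - c + ℓ / N / 2 = ((d + 1) / N - 1 / 2) * ℓ := by
    unfold ch
    field_simp
    ring
  have h1 : 0 ≤ (d:ℝ) / N := by positivity
  have h2 : ((d:ℝ) + 1) / N ≤ 1 := by rwa [div_le_one hN0]
  rw [e1, e2]
  constructor <;> nlinarith

lemma div_N_le {ℓ : ℝ} (hℓ : 0 < ℓ) {N : ℕ} (hN : 2 ≤ N) : ℓ / N ≤ ℓ := by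
  have h2 : (2:ℝ) ≤ N := by exact_mod_cast hN
  exact div_le_self hℓ.le (by linarith)

lemma bx_child_sub {c ℓ : ℝ} (hℓ : 0 < ℓ) {N d : ℕ} (hN : 2 ≤ N) (hd : d < N) :
    Bx (ch N c ℓ d) (ℓ / N) ⊆ Bx c ℓ := by
  rintro u ⟨h1, h2, h3⟩
  obtain ⟨h4, h5⟩ := ch_bound (c := c) hℓ hN hd
  rw [abs_lt] at h3
  refine ⟨h1, h2.trans_le (div_N_le hℓ hN), ?_⟩
  rw [abs_lt]
  constructor <;> linarith [h3.1, h3.2]

lemma wn_sub {c ℓ : ℝ} (hℓ : 0 < ℓ) {N : ℕ} (hN : 2 ≤ N) : Wn c ℓ (1 / N) ⊆ Bx c ℓ := by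
  rintro u ⟨h1, h2, h3⟩
  have h2' : (2:ℝ) ≤ N := by exact_mod_cast hN
  have h4 : 0 < 1 / (N:ℝ) * ℓ := by positivity
  exact ⟨h4.trans h1, h2, h3⟩

lemma bx_sub_strip {c ℓ : ℝ} (hℓ1 : ℓ ≤ 1) : Bx c ℓ ⊆ {u | 0 < u.re ∧ |u.im - c| < π} := by
  rintro u ⟨h1, h2, h3⟩
  exact ⟨h1, by linarith [Real.pi_gt_three]⟩

lemma bx_disj {c ℓ : ℝ} (hℓ : 0 < ℓ) {N d e : ℕ} (hN : 2 ≤ N) (hde : d ≠ e) :
    Disjoint (Bx (ch N c ℓ d) (ℓ / N)) (Bx (ch N c ℓ e) (ℓ / N)) := by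
  rw [Set.disjoint_left]
  rintro u ⟨-, -, h3⟩ ⟨-, -, k3⟩
  have hN0 : (0:ℝ) < N := by
    have : 0 < N := by omega
    exact_mod_cast this
  have e1 : ch N c ℓ d - ch N c ℓ e = ((d:ℝ) - e) * (ℓ / N) := by
    unfold ch
    field_simp
    ring
  have h4 : (1:ℝ) ≤ |(d:ℝ) - e| := by
    have h5 : (1:ℤ) ≤ |(d:ℤ) - e| := Int.one_le_abs (by omega)
    exact_mod_cast h5
  have h6 : 0 < ℓ / N := by positivity
  have h7 : |ch N c ℓ d - ch N c ℓ e| = |(d:ℝ) - e| * (ℓ / N) := by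
    rw [e1, abs_mul, abs_of_pos h6]
  have h8 : |ch N c ℓ d - ch N c ℓ e| ≤ |u.im - ch N c ℓ d| + |u.im - ch N c ℓ e| := by
    have h9 : ch N c ℓ d - ch N c ℓ e = (u.im - ch N c ℓ e) - (u.im - ch N c ℓ d) := by ring
    rw [h9]
    exact (abs_sub _ _).trans_eq (add_comm _ _)
  nlinarith

lemma wn_disj {c ℓ : ℝ} {N d : ℕ} :
    Disjoint (Wn c ℓ (1 / N)) (Bx (ch N c ℓ d) (ℓ / N)) := by
  rw [Set.disjoint_left]
  rintro u ⟨h1, -, -⟩ ⟨-, k2, -⟩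
  have : 1 / (N:ℝ) * ℓ = ℓ / N := by ring
  linarith

lemma image_disj {S T U : Set ℂ} (hF : InjOn F U) (hS : S ⊆ U) (hT : T ⊆ U) (h : Disjoint S T) :
    Disjoint (F '' S) (F '' T) := by
  rw [Set.disjoint_left] at h ⊢
  rintro _ ⟨x, hx, rfl⟩ ⟨y, hy, hxy⟩
  have := hF (hT hy) (hS hx) hxy
  exact h hx (this ▸ hy)

lemma one_div_N {N : ℕ} (hN : 2 ≤ N) : 0 < 1 / (N:ℝ) ∧ 1 / (N:ℝ) ≤ 1 / 2 := by
  have h2 : (2:ℝ) ≤ N := by exact_mod_cast hN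
  exact ⟨by positivity, one_div_le_one_div_of_le (by norm_num) h2⟩

theorem Fn.kids_add (hF : Fn F A) {δ c ℓ : ℝ} (h0 : 0 < δ) (h1 : δ ≤ 1) (hℓ : 0 < ℓ)
    (hℓ1 : ℓ ≤ 1) {N : ℕ} (hN : 2 ≤ N) :
    Vw F δ c ℓ N + ∑ d ∈ Finset.range N, Vc F δ c ℓ N d ≤ V F δ c ℓ := by
  have hst := bx_sub_strip (c := c) hℓ1
  refine vp_add h0 h1 (fun d => F '' Bx (ch N c ℓ d) (ℓ / N)) (F '' Wn c ℓ (1 / N)) (F '' Bx c ℓ)
    (fun d hd => hF.meas (meas_bx _ _) ((bx_child_sub hℓ hN hd).trans hst))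
    (hF.meas (meas_wn _ _ _) ((wn_sub hℓ hN).trans hst)) (hF.meas (meas_bx _ _) hst)
    (hF.fin hℓ1 (Subset.refl _)) (fun d hd => image_mono (bx_child_sub hℓ hN hd))
    (image_mono (wn_sub hℓ hN))
    (fun d hd e he hde => image_disj (hF.inj c) ((bx_child_sub hℓ hN hd).trans hst)
      ((bx_child_sub hℓ hN he).trans hst) (bx_disj hℓ hN hde))
    (fun d hd => image_disj (hF.inj c) ((wn_sub hℓ hN).trans hst)
      ((bx_child_sub hℓ hN hd).trans hst) wn_disj) _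

/-- the radius -/
theorem Fn.kids_rad (hF : Fn F A) {c ℓ : ℝ} (hℓ : 0 < ℓ) (hℓ1 : ℓ ≤ 1) {N d : ℕ} (hN : 2 ≤ N)
    (hd : d < N) :
    ‖F (zt (ch N c ℓ d) (ℓ / N)) - F (zt c ℓ)‖ ≤
      500 * (1 + Real.log N) * √(ar F (Wn c ℓ (1 / N))) := by
  obtain ⟨hq, hq1⟩ := one_div_N hN
  obtain ⟨h4, h5⟩ := ch_bound (c := c) hℓ hN hd
  have h6 : 0 < ℓ / N := by
    have : (0:ℝ) < N := by
      have : 0 < N := by omega
      exact_mod_cast this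
    positivity
  have h7 := hF.osc_rad (c := c) hℓ hℓ1 hq hq1 (u := zt (ch N c ℓ d) (ℓ / N))
    (by show 1 / (N:ℝ) * ℓ ≤ ℓ / N; exact le_of_eq (by ring)) (div_N_le hℓ hN)
    (by
      show |ch N c ℓ d - c| ≤ ℓ / 2
      rw [abs_le]
      constructor <;> linarith)
  rwa [one_div_one_div] at h7

/-- the loss -/
theorem Fn.loss (hF : Fn F A) {δ c ℓ : ℝ} (h0 : 0 < δ) (h1 : δ ≤ 1) (hℓ : 0 < ℓ)
    (hℓ1 : ℓ ≤ 1) {N : ℕ} (hN : 2 ≤ N) :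
    ar F (Wn c ℓ (1 / N)) * (500 * (1 + Real.log N) * √(ar F (Wn c ℓ (1 / N)))) ^ (-δ) ≤
      Vw F δ c ℓ N := by
  obtain ⟨hq, hq1⟩ := one_div_N hN
  have hst := bx_sub_strip (c := c) hℓ1
  have hpos := hF.ar_pos (c := c) hℓ hℓ1 hq hq1
  have hlog : 0 ≤ Real.log N := Real.log_natCast_nonneg N
  refine vp_lower h0 h1 (hF.meas (meas_wn _ _ _) ((wn_sub hℓ hN).trans hst))
    (hF.fin hℓ1 (wn_sub hℓ hN)) _ (by positivity) ?_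
  rintro _ ⟨u, ⟨k1, k2, k3⟩, rfl⟩
  have h7 := hF.osc_rad (c := c) hℓ hℓ1 hq hq1 (u := u) k1.le k2.le k3.le
  rwa [one_div_one_div] at h7

/-- moving the point of one child, with any bound `s` of the displacement -/
theorem Fn.kids_move (hF : Fn F A) {δ m s c ℓ : ℝ} (hm : 0 < m) (hm1 : m ≤ 1) (h0 : 0 < δ)
    (h1 : δ ≤ 1 / 4) (hs : 0 < s) (hℓ : 0 < ℓ) (hℓ1 : ℓ ≤ 1) {N d : ℕ} (hN : 2 ≤ N) (hd : d < N)
    (h : ‖F (zt (ch N c ℓ d) (ℓ / N)) - F (zt c ℓ)‖ ≤ s) :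
    V F δ (ch N c ℓ d) (ℓ / N) ≤ Real.exp (δ * m) * Vc F δ c ℓ N d + er δ m s :=
  vp_move hm hm1 h0 h1 hs
    (hF.meas (meas_bx _ _) ((bx_child_sub hℓ hN hd).trans (bx_sub_strip (c := c) hℓ1)))
    (hF.fin hℓ1 (bx_child_sub hℓ hN hd)) h

end Pool.Agent.Helper90.G2
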