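import Pool.Agent.Helper90.G2.Koebe
import Pool.Agent.Helper90.G2.Area

/-!
# G2-LOCAL: the derivative in a window is controlled by the area of the image of the window

`x = re u`. Choose `u'` with `re u' = 17 x / 16` if `x ≤ 3 ℓ / 4`, `re u' = 15 x / 16` otherwise, and
`im u' = im u ∓ x / 16` (towards `c`). The disk of radius `x / 16` around `u'` lies in `Wn c ℓ q`, so
`π (x / 16)^2 |F' u'|^2 ≤ ar F (Wn c ℓ q)`, and `|F' u| ≤ 55 |F' u'|`: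
`|F' u| x ≤ 55 * 16 / √π √ar ≤ 500 √ar`.
-/

set_option autoImplicit false

namespace Pool.Agent.Helper90.G2

open MeasureTheory Set
open scoped Real

variable {F : ℂ → ℂ} {A : ℝ}

theorem local_wn_sub_bx {c ℓ q : ℝ} (hℓ : 0 < ℓ) (hq : 0 < q) : Wn c ℓ q ⊆ Bx c ℓ := by
  intro w hw
  obtain ⟨h1, h2, h3⟩ := hw
  exact ⟨lt_trans (mul_pos hq hℓ) h1, h2, h3⟩

/-- a disk of radius `x / 16` inside the window, close to a given point of the window -/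
theorem local_exists_disk {c ℓ q : ℝ} (hℓ : 0 < ℓ) (hq : 0 < q) (hq1 : q ≤ 1 / 2)
    {u : ℂ} (h1 : q * ℓ ≤ u.re) (h2 : u.re ≤ ℓ) (h3 : |u.im - c| ≤ ℓ / 2) :
    ∃ v : ℂ, ‖v - u‖ ≤ u.re / 2 ∧ u.re / 16 ≤ v.re ∧ v.re ≤ 2 * ℓ ∧
      Metric.ball v (u.re / 16) ⊆ Wn c ℓ q := by
  obtain ⟨x, y⟩ := u
  simp only at h1 h2 h3 ⊢
  have hx : 0 < x := lt_of_lt_of_le (mul_pos hq hℓ) h1
  have hqℓ : q * ℓ ≤ ℓ / 2 := by nlinarith
  obtain ⟨h3a, h3b⟩ := abs_le.1 h3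
  -- the real part
  obtain ⟨a, ha1, ha2, ha3, ha4⟩ : ∃ a : ℝ, |a - x| ≤ x / 16 ∧ q * ℓ ≤ a - x / 16 ∧
      a + x / 16 ≤ ℓ ∧ x / 16 ≤ a := by
    rcases le_or_gt x (3 * ℓ / 4) with h | h
    · refine ⟨17 * x / 16, ?_, by linarith, by linarith, by linarith⟩
      rw [abs_le]
      constructor <;> linarith
    · refine ⟨15 * x / 16, ?_, by linarith, by linarith, by linarith⟩
      rw [abs_le]
      constructor <;> linarith
  -- the imaginary part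
  obtain ⟨b, hb1, hb2, hb3⟩ : ∃ b : ℝ, |b - y| ≤ x / 16 ∧ -(ℓ / 2) ≤ b - x / 16 - c ∧
      b + x / 16 - c ≤ ℓ / 2 := by
    rcases le_or_gt c y with h | h
    · refine ⟨y - x / 16, ?_, by linarith, by linarith⟩
      rw [abs_le]
      constructor <;> linarith
    · refine ⟨y + x / 16, ?_, by linarith, by linarith⟩
      rw [abs_le]
      constructor <;> linarith
  refine ⟨⟨a, b⟩, ?_, ha4, by simp only; linarith, ?_⟩
  · refine (Complex.norm_le_abs_re_add_abs_im _).trans ?_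
    simp only [Complex.sub_re, Complex.sub_im]
    linarith
  · intro w hw
    rw [Metric.mem_ball, dist_eq_norm] at hw
    have hr := (Complex.abs_re_le_norm (w - ⟨a, b⟩)).trans_lt hw
    have hi := (Complex.abs_im_le_norm (w - ⟨a, b⟩)).trans_lt hw
    simp only [Complex.sub_re, Complex.sub_im] at hr hi
    obtain ⟨hr1, hr2⟩ := abs_lt.1 hr
    obtain ⟨hi1, hi2⟩ := abs_lt.1 hi
    refine ⟨by linarith, by linarith, ?_⟩
    rw [abs_lt]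
    constructor <;> linarith

theorem Fn.loc (hF : Fn F A) {c ℓ q : ℝ} (hℓ : 0 < ℓ) (hℓ1 : ℓ ≤ 1) (hq : 0 < q) (hq1 : q ≤ 1 / 2)
    {u : ℂ} (h1 : q * ℓ ≤ u.re) (h2 : u.re ≤ ℓ) (h3 : |u.im - c| ≤ ℓ / 2) :
    ‖deriv F u‖ * u.re ≤ 500 * √(ar F (Wn c ℓ q)) := by
  have hx : 0 < u.re := lt_of_lt_of_le (mul_pos hq hℓ) h1
  obtain ⟨v, hv1, hv2, hv3, hv4⟩ := local_exists_disk hℓ hq hq1 h1 h2 h3
  have hd := (hF.dist hx (by linarith) hv1).2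
  have hsub := local_wn_sub_bx (c := c) hℓ hq
  have hb := hF.area_ball (u := v) (r := u.re / 16) (by positivity) hv2 (by linarith)
    (hF.fin hℓ1 (hv4.trans hsub))
  have hm := hF.ar_mono hℓ1 hsub hv4
  have har : π * (u.re / 16) ^ 2 * ‖deriv F v‖ ^ 2 ≤ ar F (Wn c ℓ q) := hb.trans hm
  have hpi : (3.14 : ℝ) < π := Real.pi_gt_d2
  have hn := norm_nonneg (deriv F v)
  have hkey : (‖deriv F u‖ * u.re) ^ 2 ≤ 500 ^ 2 * ar F (Wn c ℓ q) := by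
    have h4 : ‖deriv F u‖ * u.re ≤ 55 * ‖deriv F v‖ * u.re :=
      mul_le_mul_of_nonneg_right hd hx.le
    have h5 : (‖deriv F u‖ * u.re) ^ 2 ≤ (55 * ‖deriv F v‖ * u.re) ^ 2 :=
      pow_le_pow_left₀ (by positivity) h4 2
    refine h5.trans ?_
    have h6 : (55 * ‖deriv F v‖ * u.re) ^ 2 ≤
        500 ^ 2 * (π * (u.re / 16) ^ 2 * ‖deriv F v‖ ^ 2) := by
      have h7 : 0 ≤ (u.re * ‖deriv F v‖) ^ 2 := sq_nonneg _
      have e1 : (55 * ‖deriv F v‖ * u.re) ^ 2 = 3025 * (u.re * ‖deriv F v‖) ^ 2 := by ring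
      have e2 : 500 ^ 2 * (π * (u.re / 16) ^ 2 * ‖deriv F v‖ ^ 2) =
          (250000 / 256 * π) * (u.re * ‖deriv F v‖) ^ 2 := by ring
      rw [e1, e2]
      refine mul_le_mul_of_nonneg_right ?_ h7
      nlinarith
    exact h6.trans (by nlinarith)
  have hsq : 0 ≤ ‖deriv F u‖ * u.re := by positivity
  have h8 : ‖deriv F u‖ * u.re ≤ √(500 ^ 2 * ar F (Wn c ℓ q)) :=
    Real.le_sqrt_of_sq_le hkey
  rwa [Real.sqrt_mul (by norm_num), Real.sqrt_sq (by norm_num)] at h8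

theorem Fn.ar_pos (hF : Fn F A) {c ℓ q : ℝ} (hℓ : 0 < ℓ) (hℓ1 : ℓ ≤ 1) (hq : 0 < q)
    (hq1 : q ≤ 1 / 2) : 0 < ar F (Wn c ℓ q) := by
  have h := hF.loc (c := c) (u := ⟨ℓ, c⟩) hℓ hℓ1 hq hq1 (by simp only; nlinarith) le_rfl
    (by simp only [sub_self, abs_zero]; positivity)
  simp only at h
  have h1 : 0 < ‖deriv F ⟨ℓ, c⟩‖ * ℓ :=
    mul_pos (norm_pos_iff.2 (hF.dne (u := ⟨ℓ, c⟩) hℓ)) hℓ
  have h2 : 0 < √(ar F (Wn c ℓ q)) := by
    by_contra hcon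
    push Not at hcon
    linarith
  exact Real.sqrt_pos.1 h2

end Pool.Agent.Helper90.G2
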