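import Pool.Agent.Helper90.G2.Defs

/-!
# G2-APO: Apollonius disks and the layer cake

`{v | e^μ |v| < |v + 1|}` is the open disk with centre `1 / (e^(2μ) - 1)` and radius
`e^μ / (e^(2μ) - 1)` (square both sides). Layer cake (`MeasureTheory.lintegral_eq_lintegral_meas_lt`
or similar): `∫ (log (|v + 1| / |v|) - m)_+ = ∫_m^∞ π e^(2μ) / (e^(2μ) - 1)^2 dμ =
π / (2 (e^(2m) - 1)) ≤ π / (4 m)`.
-/

set_option autoImplicit false

namespace Pool.Agent.Helper90.G2

open MeasureTheory Set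
open scoped Real

theorem apo_set {k : ℝ} (hk : 1 < k) :
    {v : ℂ | k * ‖v‖ < ‖v + 1‖} =
      Metric.ball ((1 / (k ^ 2 - 1) : ℝ) : ℂ) (k / (k ^ 2 - 1)) := by
  have hD : 0 < k ^ 2 - 1 := by nlinarith
  ext v
  rw [Set.mem_ofPred_eq, Metric.mem_ball, dist_eq_norm]
  have h1 : k * ‖v‖ < ‖v + 1‖ ↔ (k * ‖v‖) ^ 2 < ‖v + 1‖ ^ 2 :=
    (pow_lt_pow_iff_left₀ (by positivity) (norm_nonneg _) two_ne_zero).symm
  have h2 : ‖v - ((1 / (k ^ 2 - 1) : ℝ) : ℂ)‖ < k / (k ^ 2 - 1) ↔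
      ‖v - ((1 / (k ^ 2 - 1) : ℝ) : ℂ)‖ ^ 2 < (k / (k ^ 2 - 1)) ^ 2 :=
    (pow_lt_pow_iff_left₀ (norm_nonneg _) (by positivity) two_ne_zero).symm
  rw [h1, h2, mul_pow, Complex.sq_norm, Complex.sq_norm, Complex.sq_norm, Complex.normSq_apply,
    Complex.normSq_apply, Complex.normSq_apply]
  simp only [Complex.sub_re, Complex.sub_im, Complex.add_re, Complex.add_im, Complex.ofReal_re,
    Complex.ofReal_im, Complex.one_re, Complex.one_im]
  obtain ⟨x, y⟩ := v
  simp only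
  have e1 : (x - 1 / (k ^ 2 - 1)) * (x - 1 / (k ^ 2 - 1)) + (y - 0) * (y - 0) -
      (k / (k ^ 2 - 1)) ^ 2 =
      (k ^ 2 * (x * x + y * y) - ((x + 1) * (x + 1) + (y + 0) * (y + 0))) / (k ^ 2 - 1) := by
    field_simp
    ring
  constructor
  · intro h
    have h3 : (k ^ 2 * (x * x + y * y) - ((x + 1) * (x + 1) + (y + 0) * (y + 0))) /
        (k ^ 2 - 1) < 0 := div_neg_of_neg_of_pos (by linarith) hD
    linarith
  · intro h
    have h3 : (k ^ 2 * (x * x + y * y) - ((x + 1) * (x + 1) + (y + 0) * (y + 0))) /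
        (k ^ 2 - 1) < 0 := by linarith
    rw [div_neg_iff] at h3
    rcases h3 with h3 | h3
    · linarith [h3.2]
    · linarith [h3.1]

theorem apo_vol {μ : ℝ} (hμ : 0 < μ) :
    volume {v : ℂ | Real.exp μ * ‖v‖ < ‖v + 1‖} =
      ENNReal.ofReal (π * Real.exp (2 * μ) / (Real.exp (2 * μ) - 1) ^ 2) := by
  have hk1 : 1 < Real.exp μ := Real.one_lt_exp_iff.2 hμ
  have hk2 : Real.exp (2 * μ) = Real.exp μ ^ 2 := by
    rw [← Real.exp_nat_mul]
    norm_num
  have hD : 0 < Real.exp μ ^ 2 - 1 := by nlinarith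
  have h2 : ((NNReal.pi : NNReal) : ENNReal) = ENNReal.ofReal Real.pi := by
    rw [← NNReal.coe_real_pi, ENNReal.ofReal_coe_nnreal]
  rw [apo_set hk1, Complex.volume_ball, h2, ← ENNReal.ofReal_pow (by positivity),
    ← ENNReal.ofReal_mul (by positivity), hk2]
  congr 1
  rw [div_pow]
  ring

/-- `e^μ / (e^(2μ) - 1) ≤ 1 / (2 μ)` -/
theorem apo_sinh {μ : ℝ} (hμ : 0 < μ) :
    π * Real.exp (2 * μ) / (Real.exp (2 * μ) - 1) ^ 2 ≤ π / 4 * μ ^ (-2 : ℝ) := by
  have hk1 : 1 < Real.exp μ := Real.one_lt_exp_iff.2 hμ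
  have hk2 : Real.exp (2 * μ) = Real.exp μ ^ 2 := by
    rw [← Real.exp_nat_mul]
    norm_num
  have hD : 0 < Real.exp μ ^ 2 - 1 := by nlinarith
  have h1 : μ ≤ Real.sinh μ := Real.self_le_sinh_iff.2 hμ.le
  have h2 : Real.exp μ ^ 2 - 1 = Real.exp μ * (2 * Real.sinh μ) := by
    rw [Real.sinh_eq, Real.exp_neg]
    field_simp
  have h3 : Real.exp μ / (Real.exp μ ^ 2 - 1) ≤ 1 / (2 * μ) := by
    rw [h2, div_mul_eq_div_div, div_self (Real.exp_pos μ).ne']
    exact one_div_le_one_div_of_le (by positivity) (by linarith)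
  have h4 : (Real.exp μ / (Real.exp μ ^ 2 - 1)) ^ 2 ≤ (1 / (2 * μ)) ^ 2 :=
    pow_le_pow_left₀ (by positivity) h3 2
  have h5 : μ ^ (-2 : ℝ) = 1 / μ ^ 2 := by
    rw [show (-2 : ℝ) = -((2 : ℕ) : ℝ) by norm_num, Real.rpow_neg hμ.le, Real.rpow_natCast,
      one_div]
  rw [hk2, h5]
  calc π * Real.exp μ ^ 2 / (Real.exp μ ^ 2 - 1) ^ 2
      = π * (Real.exp μ / (Real.exp μ ^ 2 - 1)) ^ 2 := by
        rw [div_pow]
        ring
    _ ≤ π * (1 / (2 * μ)) ^ 2 := mul_le_mul_of_nonneg_left h4 Real.pi_pos.le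
    _ = π / 4 * (1 / μ ^ 2) := by
        field_simp
        ring

theorem apo_int {m : ℝ} (hm : 0 < m) :
    ∫⁻ v : ℂ, ENNReal.ofReal (max (Real.log (‖v + 1‖ / ‖v‖) - m) 0) ≤
      ENNReal.ofReal (π / (4 * m)) := by
  have hL : Measurable fun v : ℂ => max (Real.log (‖v + 1‖ / ‖v‖) - m) 0 := by fun_prop
  rw [lintegral_eq_lintegral_meas_lt volume
    (f := fun v : ℂ => max (Real.log (‖v + 1‖ / ‖v‖) - m) 0)
    (Filter.Eventually.of_forall fun w => le_max_right _ _) hL.aemeasurable]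
  have h2 : ∀ t ∈ Ioi (0 : ℝ), volume {a : ℂ | t < max (Real.log (‖a + 1‖ / ‖a‖) - m) 0} ≤
      ENNReal.ofReal (π / 4 * (t + m) ^ (-2 : ℝ)) := by
    intro t ht
    have ht0 : 0 < t := ht
    refine (measure_mono ?_).trans ((apo_vol (μ := t + m) (by linarith)).le.trans
      (ENNReal.ofReal_le_ofReal (apo_sinh (by linarith))))
    intro a ha
    rw [mem_ofPred_eq] at ha ⊢
    have h4 : t < Real.log (‖a + 1‖ / ‖a‖) - m := by
      rcases lt_max_iff.mp ha with h | h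
      · exact h
      · linarith
    have h5 : 0 < Real.log (‖a + 1‖ / ‖a‖) := by linarith
    have h6 : 0 < ‖a + 1‖ / ‖a‖ := by
      by_contra hcon
      have h7 : 0 ≤ ‖a + 1‖ / ‖a‖ := by positivity
      have h8 : ‖a + 1‖ / ‖a‖ = 0 := le_antisymm (not_lt.mp hcon) h7
      rw [h8, Real.log_zero] at h5
      exact lt_irrefl _ h5
    have h9 : 0 < ‖a‖ := by
      by_contra hcon
      have h10 : ‖a‖ = 0 := le_antisymm (not_lt.mp hcon) (norm_nonneg _)
      rw [h10, div_zero] at h6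
      exact lt_irrefl _ h6
    have h11 : Real.exp (t + m) < ‖a + 1‖ / ‖a‖ := by
      rw [← Real.lt_log_iff_exp_lt h6]
      linarith
    rwa [lt_div_iff₀ h9] at h11
  refine (setLIntegral_mono' measurableSet_Ioi h2).trans (le_of_eq ?_)
  rw [← ofReal_integral_eq_lintegral_ofReal
    ((integrableOn_add_rpow_Ioi_of_lt (by norm_num) (by linarith)).const_mul _)
    ((ae_restrict_iff' measurableSet_Ioi).2 (Filter.Eventually.of_forall fun t ht => by
      have ht0 : (0 : ℝ) < t := ht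
      positivity))]
  congr 1
  rw [integral_const_mul]
  have h4 : ∫ t in Ioi (0 : ℝ), (t + m) ^ (-2 : ℝ) = ∫ t in Ioi m, t ^ (-2 : ℝ) := by
    rw [← integral_indicator measurableSet_Ioi, ← integral_indicator measurableSet_Ioi,
      ← integral_add_right_eq_self ((Ioi m).indicator fun t : ℝ => t ^ (-2 : ℝ)) m]
    refine integral_congr_ae (Filter.Eventually.of_forall fun t => ?_)
    by_cases ht : 0 < t
    · have ht' : m < t + m := by linarith
      simp only [indicator, mem_Ioi, ht, ht', if_true]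
    · have ht' : ¬ m < t + m := by linarith
      simp only [indicator, mem_Ioi, ht, ht', if_false]
  rw [h4, integral_Ioi_rpow_of_lt (by norm_num) hm]
  have h5 : (-2 : ℝ) + 1 = -1 := by norm_num
  rw [h5, Real.rpow_neg_one]
  field_simp

end Pool.Agent.Helper90.G2
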