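import Pool.Agent.Helper90.G2.Defs
import Pool.Agent.Helper39.G2.Shift

/-!
# G2-POT: elementary facts on `Vp`

`‖w - p‖ ^ (-δ)` is integrable on every set of finite area (at `w = p` its value is `0` in Lean; that
is a null set, argue almost everywhere). `vp_upper`: `|w - p|^(-δ) ≤ 1` outside the unit disk around
`p`, and the integral over the unit disk is `2 π / (2 - δ) ≤ 7`
(`Complex.integral_comp_polarCoord_symm` or `integrable_fun_norm_addHaar`).
-/

set_option autoImplicit false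
set_option linter.unusedVariables false

namespace Pool.Agent.Helper90.G2

open MeasureTheory Set
open scoped Real

theorem vp_int {δ : ℝ} (h0 : 0 < δ) (h1 : δ ≤ 1) {Q : Set ℂ} (hQ : MeasurableSet Q)
    (hv : volume Q < ⊤) (p : ℂ) : IntegrableOn (fun w : ℂ => ‖w - p‖ ^ (-δ)) Q :=
  Helper39.G2.integrableOn_weight h0 (by linarith) p hv.ne

theorem vp_nonneg (δ : ℝ) (Q : Set ℂ) (p : ℂ) : 0 ≤ Vp δ Q p :=
  integral_nonneg fun w => Real.rpow_nonneg (norm_nonneg _) _

theorem vp_mono {δ : ℝ} (h0 : 0 < δ) (h1 : δ ≤ 1) {Q Q' : Set ℂ} (hQ : MeasurableSet Q')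
    (hv : volume Q' < ⊤) (h : Q ⊆ Q') (p : ℂ) : Vp δ Q p ≤ Vp δ Q' p :=
  setIntegral_mono_set (vp_int h0 h1 hQ hv p)
    (Filter.Eventually.of_forall fun w => Real.rpow_nonneg (norm_nonneg _) _) h.eventuallyLE

/-- disjoint subsets -/
theorem vp_add {δ : ℝ} (h0 : 0 < δ) (h1 : δ ≤ 1) {N : ℕ} (Q : ℕ → Set ℂ) (W Q' : Set ℂ)
    (hQ : ∀ d < N, MeasurableSet (Q d)) (hW : MeasurableSet W) (hQ' : MeasurableSet Q')
    (hv : volume Q' < ⊤) (hs : ∀ d < N, Q d ⊆ Q') (hWs : W ⊆ Q')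
    (hd : ∀ d < N, ∀ e < N, d ≠ e → Disjoint (Q d) (Q e)) (hWd : ∀ d < N, Disjoint W (Q d)) (p : ℂ) :
    Vp δ W p + ∑ d ∈ Finset.range N, Vp δ (Q d) p ≤ Vp δ Q' p := by
  have hI := vp_int h0 h1 hQ' hv p
  have hU : ⋃ d ∈ Finset.range N, Q d ⊆ Q' := by
    intro w hw
    simp only [mem_iUnion, Finset.mem_range, exists_prop] at hw
    obtain ⟨d, hdN, hw⟩ := hw
    exact hs d hdN hw
  have hUm : MeasurableSet (⋃ d ∈ Finset.range N, Q d) :=
    Finset.measurableSet_biUnion _ fun d hdN => hQ d (Finset.mem_range.mp hdN)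
  have h2 : ∫ w in ⋃ d ∈ Finset.range N, Q d, ‖w - p‖ ^ (-δ) =
      ∑ d ∈ Finset.range N, Vp δ (Q d) p := by
    refine integral_biUnion_finset (Finset.range N) (fun d hdN => hQ d (Finset.mem_range.mp hdN))
      ?_ (fun d hdN => hI.mono_set (hs d (Finset.mem_range.mp hdN)))
    intro a ha b hb hab
    exact hd a (Finset.mem_range.mp ha) b (Finset.mem_range.mp hb) hab
  have h3 : Disjoint W (⋃ d ∈ Finset.range N, Q d) := by
    rw [disjoint_iUnion₂_right]
    exact fun d hdN => hWd d (Finset.mem_range.mp hdN)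
  have h4 : ∫ w in W ∪ ⋃ d ∈ Finset.range N, Q d, ‖w - p‖ ^ (-δ) =
      Vp δ W p + ∑ d ∈ Finset.range N, Vp δ (Q d) p := by
    rw [← h2]
    exact setIntegral_union h3 hUm (hI.mono_set hWs) (hI.mono_set hU)
  rw [← h4]
  exact vp_mono h0 h1 hQ' hv (union_subset hWs hU) p

theorem vp_lower {δ : ℝ} (h0 : 0 < δ) (h1 : δ ≤ 1) {Q : Set ℂ} (hQ : MeasurableSet Q)
    (hv : volume Q < ⊤) (p : ℂ) {r : ℝ} (hr : 0 < r) (h : ∀ w ∈ Q, ‖w - p‖ ≤ r) :
    (volume Q).toReal * r ^ (-δ) ≤ Vp δ Q p := by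
  have hI := vp_int h0 h1 hQ hv p
  have h2 : ∫ w in Q, (r ^ (-δ) : ℝ) = (volume Q).toReal * r ^ (-δ) := by
    rw [setIntegral_const]
    rfl
  rw [← h2]
  refine integral_mono_ae ?_ hI ?_
  · exact integrableOn_const hv.ne
  · have hp : ∀ᵐ w ∂(volume.restrict Q), w ≠ p :=
      ae_restrict_of_ae (by simp [ae_iff])
    filter_upwards [hp, ae_restrict_mem hQ] with w hwp hw
    have h3 : 0 < ‖w - p‖ := norm_pos_iff.mpr (sub_ne_zero.mpr hwp)
    exact Real.rpow_le_rpow_of_nonpos h3 (h w hw) (by linarith)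

theorem vp_upper {δ : ℝ} (h0 : 0 < δ) (h1 : δ ≤ 1) {Q : Set ℂ} (hQ : MeasurableSet Q)
    (hv : volume Q < ⊤) (p : ℂ) : Vp δ Q p ≤ (volume Q).toReal + 7 := by
  have hI := vp_int h0 h1 hQ hv p
  have hB : MeasurableSet (Metric.ball p 1) := Metric.isOpen_ball.measurableSet
  have h2 : Vp δ Q p = (∫ w in Q ∩ Metric.ball p 1, ‖w - p‖ ^ (-δ)) +
      ∫ w in Q \ Metric.ball p 1, ‖w - p‖ ^ (-δ) :=
    (integral_inter_add_diff hB hI).symm
  have hvb : volume (Q ∩ Metric.ball p 1) ≠ ⊤ := ((measure_mono inter_subset_left).trans_lt hv).ne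
  have h3 : (∫ w in Q ∩ Metric.ball p 1, ‖w - p‖ ^ (-δ)) ≤ 7 := by
    have h4 := Helper39.G2.weight_le h0 (by linarith : δ < 2) p (Q ∩ Metric.ball p 1) one_pos (by
      refine (measure_mono inter_subset_right).trans ?_
      rw [Complex.volume_ball]
      simp only [one_pow, mul_one, ENNReal.ofReal_one, one_mul]
      rw [← NNReal.coe_real_pi, ENNReal.ofReal_coe_nnreal])
    rw [← Helper39.G2.ofReal_integral_weight h0 (by linarith) p hvb, Real.one_rpow, mul_one] at h4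
    have h5 : 2 * Real.pi / (2 - δ) ≤ 7 := by
      rw [div_le_iff₀ (by linarith)]
      have := Real.pi_lt_d2
      nlinarith
    exact ((ENNReal.ofReal_le_ofReal_iff (by
      have := Real.pi_pos
      have h6 : 0 < 2 - δ := by linarith
      positivity)).mp h4).trans h5
  have h6 : ∫ w in Q \ Metric.ball p 1, ‖w - p‖ ^ (-δ) ≤ (volume Q).toReal := by
    have h7 : ∫ w in Q \ Metric.ball p 1, (1 : ℝ) = (volume (Q \ Metric.ball p 1)).toReal := by
      rw [setIntegral_const, smul_eq_mul, mul_one]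
      rfl
    have h8 : (volume (Q \ Metric.ball p 1)).toReal ≤ (volume Q).toReal :=
      ENNReal.toReal_mono hv.ne (measure_mono diff_subset)
    refine le_trans ?_ (h7.le.trans h8)
    refine integral_mono_ae (hI.mono_set diff_subset) ?_ ?_
    · exact integrableOn_const ((measure_mono diff_subset).trans_lt hv).ne
    · filter_upwards [ae_restrict_mem (hQ.diff hB)] with w hw
      have h9 : 1 ≤ ‖w - p‖ := by
        have := hw.2
        rw [Metric.mem_ball, not_lt, dist_eq_norm] at this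
        exact this
      exact Real.rpow_le_one_of_one_le_of_nonpos h9 (by linarith)
  rw [h2]
  linarith

end Pool.Agent.Helper90.G2
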