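import Pool.Agent.Helper90.G2.Koebe
import Pool.Agent.Helper90.G2.Area
import Pool.Agent.Helper90.G2.Pot

/-!
# G2-LOW: bounds of `V`

`V_lower`: the disk of radius `ℓ / 16` around `15 ℓ / 16 + i c` lies in the box; there
`|F u - F (zt)| ≤ (ℓ / 8) 55 |F' (zt)|` (`Fn.dist` at `zt` along the segment) and the area of its image is at
least `π (ℓ / 16)^2 (|F' (zt)| / 55)^2` (`Fn.area_ball`, `Fn.dist`). So
`V ≥ π / (16 * 55)^2 * (55 / 8)^(-δ) * (ℓ |F'|)^(2 - δ)` (`vp_mono`, `vp_lower`), and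
`π / 774400 * (55/8)^(-1/4) ≥ 1 / 500000`. `V_upper`: `vp_upper`.
-/

set_option autoImplicit false

namespace Pool.Agent.Helper90.G2

open MeasureTheory Set
open scoped Real

variable {F : ℂ → ℂ} {A : ℝ}

private theorem low_strip {c ℓ : ℝ} (hℓ1 : ℓ ≤ 1) :
    Bx c ℓ ⊆ {u | 0 < u.re ∧ |u.im - c| < π} := by
  intro u hu
  refine ⟨hu.1, hu.2.2.trans ?_⟩
  have := Real.pi_gt_three
  linarith

private theorem low_meas (hF : Fn F A) {c ℓ : ℝ} (hℓ1 : ℓ ≤ 1) : MeasurableSet (F '' Bx c ℓ) :=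
  hF.meas (meas_bx c ℓ) (low_strip hℓ1)

/-- the disk in the upper part of the box -/
private theorem low_ball {c ℓ : ℝ} :
    Metric.ball (⟨15 / 16 * ℓ, c⟩ : ℂ) (ℓ / 16) ⊆ Bx c ℓ := by
  intro w hw
  rw [Metric.mem_ball, dist_eq_norm] at hw
  have h3 := (Complex.abs_re_le_norm (w - ⟨15 / 16 * ℓ, c⟩)).trans_lt hw
  have h4 := (Complex.abs_im_le_norm (w - ⟨15 / 16 * ℓ, c⟩)).trans_lt hw
  rw [Complex.sub_re] at h3
  rw [Complex.sub_im] at h4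
  have h5 := abs_lt.1 h3
  have h6 : 0 < ℓ := by
    have := norm_nonneg (w - ⟨15 / 16 * ℓ, c⟩)
    linarith
  refine ⟨?_, ?_, ?_⟩
  · have := h5.1
    simp only at this
    linarith
  · have := h5.2
    simp only at this
    linarith
  · exact h4.trans (by linarith)

private theorem low_near {c ℓ : ℝ} {w : ℂ}
    (hw : w ∈ Metric.ball (⟨15 / 16 * ℓ, c⟩ : ℂ) (ℓ / 16)) (hℓ : 0 < ℓ) :
    ‖w - zt c ℓ‖ ≤ ℓ / 8 := by
  rw [Metric.mem_ball, dist_eq_norm] at hw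
  have h1 : (⟨15 / 16 * ℓ, c⟩ : ℂ) - zt c ℓ = ((-(ℓ / 16) : ℝ) : ℂ) := by
    apply Complex.ext
    · simp only [zt, Complex.sub_re, Complex.ofReal_re]
      ring
    · simp only [zt, Complex.sub_im, Complex.ofReal_im]
      ring
  have h2 : w - zt c ℓ = (w - ⟨15 / 16 * ℓ, c⟩) + (⟨15 / 16 * ℓ, c⟩ - zt c ℓ) := by ring
  rw [h2]
  refine (norm_add_le _ _).trans ?_
  rw [h1, Complex.norm_real, norm_neg, Real.norm_of_nonneg (by positivity)]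
  linarith

private theorem low_mvt (hF : Fn F A) {c ℓ : ℝ} (hℓ : 0 < ℓ) (hℓ1 : ℓ ≤ 1) {w : ℂ}
    (hw : ‖w - zt c ℓ‖ ≤ ℓ / 8) :
    ‖F w - F (zt c ℓ)‖ ≤ 55 / 8 * (ℓ * ‖deriv F (zt c ℓ)‖) := by
  have hre : (zt c ℓ).re = ℓ := rfl
  have hs : ∀ v ∈ Metric.closedBall (zt c ℓ) (ℓ / 8), 0 < v.re ∧ ‖v - zt c ℓ‖ ≤ ℓ / 2 := by
    intro v hv
    rw [mem_closedBall_iff_norm] at hv
    have h1 := (abs_le.1 ((Complex.abs_re_le_norm (v - zt c ℓ)).trans hv)).1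
    rw [Complex.sub_re, hre] at h1
    exact ⟨by linarith, by linarith⟩
  have h2 := Convex.norm_image_sub_le_of_norm_deriv_le (f := F) (C := 55 * ‖deriv F (zt c ℓ)‖)
    (s := Metric.closedBall (zt c ℓ) (ℓ / 8)) (x := zt c ℓ) (y := w)
    (fun v hv => hF.diff.differentiableAt (area_isOpen_rp.mem_nhds (hs v hv).1))
    (fun v hv => (hF.dist (u := zt c ℓ) (u' := v) (by rw [hre]; exact hℓ)
      (by rw [hre]; linarith) (by rw [hre]; exact (hs v hv).2)).1)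
    (convex_closedBall _ _) (Metric.mem_closedBall_self (by positivity))
    (by rw [mem_closedBall_iff_norm]; exact hw)
  refine h2.trans ?_
  calc 55 * ‖deriv F (zt c ℓ)‖ * ‖w - zt c ℓ‖ ≤ 55 * ‖deriv F (zt c ℓ)‖ * (ℓ / 8) :=
        mul_le_mul_of_nonneg_left hw (by positivity)
    _ = 55 / 8 * (ℓ * ‖deriv F (zt c ℓ)‖) := by ring

private theorem low_num {δ x a : ℝ} (h0 : 0 < δ) (h1 : δ ≤ 1 / 4) (hx : 0 < x)
    (ha : π / 774400 * x ^ 2 ≤ a) :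
    1 / 500000 * x ^ (2 - δ) ≤ a * (55 / 8 * x) ^ (-δ) := by
  have e1 : (55 / 8 * x) ^ (-δ) = (55 / 8 : ℝ) ^ (-δ) * x ^ (-δ) :=
    Real.mul_rpow (by norm_num) hx.le
  have e2 : x ^ (2 - δ) = x ^ 2 * x ^ (-δ) := by
    rw [sub_eq_add_neg, Real.rpow_add hx, Real.rpow_two]
  have e3 : (3 / 5 : ℝ) ≤ (55 / 8 : ℝ) ^ (-δ) := by
    rw [Real.rpow_neg (by norm_num)]
    have e4 : (55 / 8 : ℝ) ^ δ ≤ 5 / 3 := by
      have e5 : (55 / 8 : ℝ) ^ δ ≤ (55 / 8 : ℝ) ^ (1 / 4 : ℝ) :=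
        Real.rpow_le_rpow_of_exponent_le (by norm_num) h1
      have e6 : (55 / 8 : ℝ) ^ (1 / 4 : ℝ) ≤ ((5 / 3 : ℝ) ^ (4 : ℝ)) ^ (1 / 4 : ℝ) := by
        apply Real.rpow_le_rpow (by norm_num) _ (by norm_num)
        have : (5 / 3 : ℝ) ^ (4 : ℝ) = (5 / 3 : ℝ) ^ (4 : ℕ) := by
          rw [← Real.rpow_natCast]
          norm_num
        rw [this]
        norm_num
      rw [← Real.rpow_mul (by norm_num)] at e6
      have e7 : (4 : ℝ) * (1 / 4) = 1 := by norm_num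
      rw [e7, Real.rpow_one] at e6
      exact e5.trans e6
    have e8 : 0 < (55 / 8 : ℝ) ^ δ := Real.rpow_pos_of_pos (by norm_num) _
    rw [le_inv_comm₀ (by norm_num) e8]
    calc (55 / 8 : ℝ) ^ δ ≤ 5 / 3 := e4
      _ = (3 / 5 : ℝ)⁻¹ := by norm_num
  have hxd : 0 < x ^ (-δ) := Real.rpow_pos_of_pos hx _
  have hx2 : 0 < x ^ 2 := by positivity
  have hπ := Real.pi_gt_d2
  rw [e1, e2]
  calc 1 / 500000 * (x ^ 2 * x ^ (-δ)) ≤ π / 774400 * (3 / 5) * (x ^ 2 * x ^ (-δ)) := by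
        apply mul_le_mul_of_nonneg_right _ (by positivity)
        linarith
    _ = π / 774400 * x ^ 2 * (3 / 5 * x ^ (-δ)) := by ring
    _ ≤ a * ((55 / 8 : ℝ) ^ (-δ) * x ^ (-δ)) := by
        apply mul_le_mul ha _ (by positivity) (le_trans (by positivity) ha)
        exact mul_le_mul_of_nonneg_right e3 hxd.le

theorem Fn.V_lower (hF : Fn F A) {δ c ℓ : ℝ} (h0 : 0 < δ) (h1 : δ ≤ 1 / 4) (hℓ : 0 < ℓ)
    (hℓ1 : ℓ ≤ 1) :
    1 / 500000 * (ℓ * ‖deriv F (zt c ℓ)‖) ^ (2 - δ) ≤ V F δ c ℓ := by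
  have hre : (zt c ℓ).re = ℓ := rfl
  have hd : 0 < ‖deriv F (zt c ℓ)‖ := norm_pos_iff.2 (hF.dne (u := zt c ℓ) (by rw [hre]; exact hℓ))
  have hx : 0 < ℓ * ‖deriv F (zt c ℓ)‖ := mul_pos hℓ hd
  obtain ⟨u0, hu0⟩ : ∃ u0 : ℂ, u0 = ⟨15 / 16 * ℓ, c⟩ := ⟨_, rfl⟩
  have hu0r : u0.re = 15 / 16 * ℓ := by rw [hu0]
  have hsub : Metric.ball u0 (ℓ / 16) ⊆ Bx c ℓ := by
    rw [hu0]
    exact low_ball
  have hfinB : volume (F '' Metric.ball u0 (ℓ / 16)) < ⊤ := hF.fin hℓ1 hsub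
  have hfin : volume (F '' Bx c ℓ) < ⊤ := hF.fin hℓ1 (subset_refl _)
  have hmeasB : MeasurableSet (F '' Metric.ball u0 (ℓ / 16)) :=
    hF.meas Metric.isOpen_ball.measurableSet (hsub.trans (low_strip hℓ1))
  have harea := hF.area_ball (u := u0) (r := ℓ / 16) (by positivity) (by rw [hu0r]; linarith)
    (by rw [hu0r]; linarith) hfinB
  have hdist := (hF.dist (u := zt c ℓ) (u' := u0) (by rw [hre]; exact hℓ)
    (by rw [hre]; linarith) (by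
      rw [hre]
      have h3 := low_near (c := c) (ℓ := ℓ) (w := u0) (by
        rw [hu0]
        exact Metric.mem_ball_self (by positivity)) hℓ
      linarith)).2
  have hsq : ‖deriv F (zt c ℓ)‖ ^ 2 ≤ 3025 * ‖deriv F u0‖ ^ 2 := by
    calc ‖deriv F (zt c ℓ)‖ ^ 2 ≤ (55 * ‖deriv F u0‖) ^ 2 := pow_le_pow_left₀ hd.le hdist 2
      _ = 3025 * ‖deriv F u0‖ ^ 2 := by ring
  have ha : π / 774400 * (ℓ * ‖deriv F (zt c ℓ)‖) ^ 2 ≤
      (volume (F '' Metric.ball u0 (ℓ / 16))).toReal := by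
    refine le_trans ?_ harea
    calc π / 774400 * (ℓ * ‖deriv F (zt c ℓ)‖) ^ 2
        = π * (ℓ / 16) ^ 2 * (‖deriv F (zt c ℓ)‖ ^ 2 / 3025) := by ring
      _ ≤ π * (ℓ / 16) ^ 2 * ‖deriv F u0‖ ^ 2 := by
          apply mul_le_mul_of_nonneg_left _ (by positivity)
          rw [div_le_iff₀ (by norm_num)]
          linarith
  refine (low_num h0 h1 hx ha).trans ?_
  unfold V
  refine (vp_lower h0 (by linarith) hmeasB hfinB (F (zt c ℓ)) (by positivity) ?_).trans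
    (vp_mono h0 (by linarith) (low_meas hF hℓ1) hfin (image_mono hsub) _)
  rintro _ ⟨w, hw, rfl⟩
  rw [hu0] at hw
  exact low_mvt hF hℓ hℓ1 (low_near hw hℓ)

theorem Fn.V_upper (hF : Fn F A) (hA : 0 ≤ A) {δ c ℓ : ℝ} (h0 : 0 < δ) (h1 : δ ≤ 1 / 4)
    (hℓ : 0 < ℓ) (hℓ1 : ℓ ≤ 1) : V F δ c ℓ ≤ A + 7 := by
  have hfin : volume (F '' Bx c ℓ) < ⊤ := hF.fin hℓ1 (subset_refl _)
  have h2 := vp_upper h0 (by linarith) (low_meas hF hℓ1) hfin (F (zt c ℓ))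
  have h3 : volume (F '' Bx c ℓ) ≤ ENNReal.ofReal A := by
    refine (measure_mono (image_mono ?_)).trans (hF.area c)
    intro u hu
    exact ⟨hu.1, hu.2.1.trans_le hℓ1, hu.2.2.trans_le (by linarith)⟩
  have h4 : (volume (F '' Bx c ℓ)).toReal ≤ A := by
    have h5 := ENNReal.toReal_mono ENNReal.ofReal_ne_top h3
    rwa [ENNReal.toReal_ofReal hA] at h5
  unfold V
  linarith

end Pool.Agent.Helper90.G2
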