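import Pool.Agent.Helper90.G2.Words
import Pool.Agent.Helper90.G2.Low

/-!
# G2-AVG: averaging over translations

`words` for `f c ℓ = V F δ c ℓ ^ (1 + θ)` at `ℓ = 1`, `c = ξ`, `Fn.V_lower` for each term,
`Fn.V_upper` on the right; integrate over `ξ` in `[0, 2π]`. `ch (N^K) ξ 1 d = ξ + const`, and
`ξ ↦ ‖F' (N^(-K) + i ξ)‖` has period `2π`, so every term has the same integral
(`Function.Periodic.intervalIntegral_add_eq`). `sum_chK`, `sum_chi_ge`.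

`Fn.avg_core` is the version for one level.
-/

set_option autoImplicit false

namespace Pool.Agent.Helper90.G2

open MeasureTheory Set
open scoped Real

variable {F : ℂ → ℂ} {A : ℝ}

theorem Fn.per_deriv (hF : Fn F A) {y : ℝ} (hy : 0 < y) :
    Function.Periodic (fun ξ : ℝ => deriv F ⟨y, ξ⟩) (2 * π) := by
  intro ξ
  have h1 : (⟨y, ξ + 2 * π⟩ : ℂ) = ⟨y, ξ⟩ + 2 * π * Complex.I := by
    apply Complex.ext <;> simp
  show deriv F ⟨y, ξ + 2 * π⟩ = deriv F ⟨y, ξ⟩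
  rw [h1, ← deriv_comp_add_const]
  apply Filter.EventuallyEq.deriv_eq
  have h2 : {u : ℂ | 0 < u.re} ∈ nhds (⟨y, ξ⟩ : ℂ) :=
    (isOpen_lt continuous_const Complex.continuous_re).mem_nhds hy
  filter_upwards [h2] with u hu
  exact hF.per u hu

theorem Avg_cont (hF : Fn F A) {y p : ℝ} (hy : 0 < y) (hp : 0 ≤ p) :
    Continuous fun ξ : ℝ => ‖deriv F ⟨y, ξ⟩‖ ^ p := by
  have h1 : ContinuousOn (deriv F) {u : ℂ | 0 < u.re} :=
    (hF.diff.deriv (isOpen_lt continuous_const Complex.continuous_re)).continuousOn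
  have h2 : Continuous fun ξ : ℝ => (⟨y, ξ⟩ : ℂ) := by
    have h : (fun ξ : ℝ => (⟨y, ξ⟩ : ℂ)) = fun ξ : ℝ => (y : ℂ) + (ξ : ℂ) * Complex.I := by
      funext ξ
      apply Complex.ext <;> simp
    rw [h]
    fun_prop
  have h3 : Continuous fun ξ : ℝ => deriv F ⟨y, ξ⟩ := h1.comp_continuous h2 fun ξ => hy
  exact h3.norm.rpow_const fun _ => Or.inr hp

/-- the integral of a translate -/
theorem Avg_shift (hF : Fn F A) {y p : ℝ} (hy : 0 < y) (s : ℝ) :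
    ∫ ξ in (0:ℝ)..(2 * π), ‖deriv F ⟨y, ξ + s⟩‖ ^ p =
      ∫ ξ in (0:ℝ)..(2 * π), ‖deriv F ⟨y, ξ⟩‖ ^ p := by
  have hper : Function.Periodic (fun ξ : ℝ => ‖deriv F ⟨y, ξ⟩‖ ^ p) (2 * π) := by
    intro ξ
    have h := hF.per_deriv hy ξ
    show ‖deriv F ⟨y, ξ + 2 * π⟩‖ ^ p = ‖deriv F ⟨y, ξ⟩‖ ^ p
    have h' : deriv F ⟨y, ξ + 2 * π⟩ = deriv F ⟨y, ξ⟩ := h
    rw [h']
  rw [intervalIntegral.integral_comp_add_right (fun ξ : ℝ => ‖deriv F ⟨y, ξ⟩‖ ^ p) s]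
  have h := hper.intervalIntegral_add_eq (0 + s) 0
  rw [zero_add] at h
  rw [zero_add, add_comm (2 * π) s, h]
  simp

theorem Avg_exp {x : ℝ} (hx : 0 ≤ x) (hx1 : x ≤ 1 / 2) : Real.exp (-(2 * x)) ≤ 1 - x := by
  have h1 : Real.exp (-(2 * x)) = (Real.exp (2 * x))⁻¹ := Real.exp_neg _
  have h2 : 2 * x + 1 ≤ Real.exp (2 * x) := Real.add_one_le_exp _
  have h3 : 0 < 1 - x := by linarith
  rw [h1, inv_le_comm₀ (Real.exp_pos _) h3]
  refine le_trans ?_ h2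
  rw [inv_le_iff_one_le_mul₀ h3]
  nlinarith

/-- one level -/
theorem Fn.avg_core (hF : Fn F A) (hA : 0 ≤ A) {δ q κ c' G' : ℝ} {N : ℕ} (h0 : 0 < δ)
    (h1 : δ ≤ 1 / 4) (hq : 1 ≤ q) (hq1 : q ≤ 2) (hκ : 0 < κ) (hκ1 : κ ≤ 1 / 4) (hc : 0 ≤ c')
    (hc1 : 3 * κ * c' ≤ 1 / 2) (hN : 2 ≤ κ * N) (hG : 0 ≤ G') {J : ℕ}
    (h : ∀ ξ : ℝ, ∑ d ∈ Finset.range (N ^ J), chK κ c' N J d *
        V F δ (ch (N ^ J) ξ 1 d) (1 / ((N ^ J : ℕ) : ℝ)) ^ q ≤ G' * V F δ ξ 1 ^ q) :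
    ∫ ξ in (0:ℝ)..(2 * π), ‖deriv F ⟨((N ^ J : ℕ) : ℝ)⁻¹, ξ⟩‖ ^ ((2 - δ) * q) ≤
      2 * π * 500000 ^ 2 * (A + 7) ^ 2 *
        (G' * ((N ^ J : ℕ) : ℝ) ^ ((2 - δ) * q - 1) * Real.exp (6 * κ * c' * J)) := by
  have hN0 : 0 < N := by
    rcases Nat.eq_zero_or_pos N with h | h
    · rw [h] at hN
      norm_num at hN
    · exact h
  obtain ⟨m, hm⟩ : ∃ m : ℝ, m = ((N ^ J : ℕ) : ℝ) := ⟨_, rfl⟩
  have hm1 : 1 ≤ m := by
    rw [hm]
    exact_mod_cast Nat.one_le_pow _ _ hN0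
  have hm0 : 0 < m := by linarith
  obtain ⟨p, hp⟩ : ∃ p : ℝ, p = (2 - δ) * q := ⟨_, rfl⟩
  have hp0 : 0 ≤ p := by
    rw [hp]
    exact mul_nonneg (by linarith) (by linarith)
  rw [← hp, ← hm]
  obtain ⟨I, hI⟩ : ∃ I : ℝ, I = ∫ ξ in (0:ℝ)..(2 * π), ‖deriv F ⟨m⁻¹, ξ⟩‖ ^ p := ⟨_, rfl⟩
  rw [← hI]
  have hmi : 0 < m⁻¹ := by positivity
  have hmi1 : m⁻¹ ≤ 1 := inv_le_one_of_one_le₀ hm1
  -- pointwise
  have hpt : ∀ ξ : ℝ, ∑ d ∈ Finset.range (N ^ J), chK κ c' N J d *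
      ‖deriv F ⟨m⁻¹, ξ + (((d : ℝ) + 1 / 2) / m - 1 / 2)⟩‖ ^ p ≤
        500000 ^ 2 * (A + 7) ^ 2 * G' * m ^ p := by
    intro ξ
    have hlow : ∀ d ∈ Finset.range (N ^ J), chK κ c' N J d *
        (1 / (500000 ^ 2 * m ^ p) * ‖deriv F ⟨m⁻¹, ξ + (((d : ℝ) + 1 / 2) / m - 1 / 2)⟩‖ ^ p) ≤
        chK κ c' N J d * V F δ (ch (N ^ J) ξ 1 d) (1 / ((N ^ J : ℕ) : ℝ)) ^ q := by
      intro d _
      refine mul_le_mul_of_nonneg_left ?_ (chK_nonneg _ _ _ _ _)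
      have e1 : ch (N ^ J) ξ 1 d = ξ + (((d : ℝ) + 1 / 2) / m - 1 / 2) := by
        unfold ch
        rw [← hm, mul_one]
      rw [e1, ← hm, one_div m]
      have h2 := hF.V_lower (c := ξ + (((d : ℝ) + 1 / 2) / m - 1 / 2)) h0 h1 hmi hmi1
      have e2 : zt (ξ + (((d : ℝ) + 1 / 2) / m - 1 / 2)) m⁻¹ =
          ⟨m⁻¹, ξ + (((d : ℝ) + 1 / 2) / m - 1 / 2)⟩ := rfl
      rw [e2] at h2
      obtain ⟨D, hD⟩ : ∃ D : ℝ, D = ‖deriv F ⟨m⁻¹, ξ + (((d : ℝ) + 1 / 2) / m - 1 / 2)⟩‖ :=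
        ⟨_, rfl⟩
      have hD0 : 0 ≤ D := by
        rw [hD]
        exact norm_nonneg _
      rw [← hD] at h2 ⊢
      have h3 : (1 / 500000 * (m⁻¹ * D) ^ (2 - δ)) ^ q ≤
          V F δ (ξ + (((d : ℝ) + 1 / 2) / m - 1 / 2)) m⁻¹ ^ q :=
        Real.rpow_le_rpow (by positivity) h2 (by linarith)
      refine le_trans ?_ h3
      have e3 : (1 / 500000 * (m⁻¹ * D) ^ (2 - δ)) ^ q =
          (1 / 500000 : ℝ) ^ q * ((m ^ p)⁻¹ * D ^ p) := by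
        rw [Real.mul_rpow (by positivity) (by positivity), ← Real.rpow_mul (by positivity), ← hp,
          Real.mul_rpow hmi.le hD0, Real.inv_rpow hm0.le]
      have h4 : (1 / 500000 : ℝ) ^ (2 : ℝ) ≤ (1 / 500000 : ℝ) ^ q :=
        Real.rpow_le_rpow_of_exponent_ge (by norm_num) (by norm_num) hq1
      rw [Real.rpow_two] at h4
      have h5 : 0 ≤ (m ^ p)⁻¹ * D ^ p := by positivity
      rw [e3]
      calc 1 / (500000 ^ 2 * m ^ p) * D ^ p = (1 / 500000) ^ 2 * ((m ^ p)⁻¹ * D ^ p) := by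
            field_simp
        _ ≤ (1 / 500000 : ℝ) ^ q * ((m ^ p)⁻¹ * D ^ p) := mul_le_mul_of_nonneg_right h4 h5
    have hup : V F δ ξ 1 ^ q ≤ (A + 7) ^ 2 := by
      have h2 := hF.V_upper hA (c := ξ) h0 h1 one_pos le_rfl
      have h3 : 0 ≤ V F δ ξ 1 := by
        have h4 := hF.V_lower (c := ξ) h0 h1 one_pos le_rfl
        refine le_trans ?_ h4
        positivity
      calc V F δ ξ 1 ^ q ≤ (A + 7) ^ q := Real.rpow_le_rpow h3 h2 (by linarith)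
        _ ≤ (A + 7) ^ (2 : ℝ) := Real.rpow_le_rpow_of_exponent_le (by linarith) hq1
        _ = (A + 7) ^ 2 := Real.rpow_two _
    have h6 := (Finset.sum_le_sum hlow).trans ((h ξ).trans (mul_le_mul_of_nonneg_left hup hG))
    have e4 : ∑ d ∈ Finset.range (N ^ J), chK κ c' N J d *
        (1 / (500000 ^ 2 * m ^ p) * ‖deriv F ⟨m⁻¹, ξ + (((d : ℝ) + 1 / 2) / m - 1 / 2)⟩‖ ^ p) =
        1 / (500000 ^ 2 * m ^ p) * ∑ d ∈ Finset.range (N ^ J), chK κ c' N J d *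
          ‖deriv F ⟨m⁻¹, ξ + (((d : ℝ) + 1 / 2) / m - 1 / 2)⟩‖ ^ p := by
      rw [Finset.mul_sum]
      exact Finset.sum_congr rfl fun d _ => by ring
    rw [e4] at h6
    have hmp : 0 < m ^ p := Real.rpow_pos_of_pos hm0 p
    rw [one_div, inv_mul_le_iff₀ (by positivity)] at h6
    linarith
  -- the integral
  have hcont : ∀ d : ℕ, Continuous fun ξ : ℝ =>
      ‖deriv F ⟨m⁻¹, ξ + (((d : ℝ) + 1 / 2) / m - 1 / 2)⟩‖ ^ p := fun d =>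
    (Avg_cont hF hmi hp0).comp (continuous_id.add continuous_const)
  have hint : ∫ ξ in (0:ℝ)..(2 * π), ∑ d ∈ Finset.range (N ^ J), chK κ c' N J d *
      ‖deriv F ⟨m⁻¹, ξ + (((d : ℝ) + 1 / 2) / m - 1 / 2)⟩‖ ^ p =
        (∑ d ∈ Finset.range (N ^ J), chK κ c' N J d) * I := by
    rw [intervalIntegral.integral_finsetSum fun d _ =>
      ((hcont d).const_mul _).intervalIntegrable _ _, Finset.sum_mul]
    refine Finset.sum_congr rfl fun d _ => ?_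
    rw [intervalIntegral.integral_const_mul, Avg_shift hF hmi, hI]
  have hle : (∑ d ∈ Finset.range (N ^ J), chK κ c' N J d) * I ≤
      2 * π * (500000 ^ 2 * (A + 7) ^ 2 * G' * m ^ p) := by
    rw [← hint]
    have h7 : ∫ ξ in (0:ℝ)..(2 * π), ∑ d ∈ Finset.range (N ^ J), chK κ c' N J d *
        ‖deriv F ⟨m⁻¹, ξ + (((d : ℝ) + 1 / 2) / m - 1 / 2)⟩‖ ^ p ≤
        ∫ _ in (0:ℝ)..(2 * π), (500000 ^ 2 * (A + 7) ^ 2 * G' * m ^ p) := by
      apply intervalIntegral.integral_mono_on (by positivity)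
      · exact (continuous_finsetSum _ fun d _ => (hcont d).const_mul _).intervalIntegrable _ _
      · exact continuous_const.intervalIntegrable _ _
      · exact fun ξ _ => hpt ξ
    refine h7.trans (le_of_eq ?_)
    rw [intervalIntegral.integral_const, smul_eq_mul, sub_zero]
  have hI0 : 0 ≤ I := by
    rw [hI]
    apply intervalIntegral.integral_nonneg (by positivity)
    intro ξ _
    positivity
  have hsum : m * Real.exp (-(6 * κ * c' * J)) ≤ ∑ d ∈ Finset.range (N ^ J), chK κ c' N J d := by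
    rw [sum_chK κ c' hN0 J]
    have hx0 : 0 ≤ 3 * κ * c' := by positivity
    have h8 := Avg_exp hx0 hc1
    have h9 : (N : ℝ) * Real.exp (-(2 * (3 * κ * c'))) ≤
        ∑ e ∈ Finset.range N, chi κ c' N e :=
      (mul_le_mul_of_nonneg_left h8 (Nat.cast_nonneg N)).trans (sum_chi_ge hκ hκ1 hc hN)
    have h10 := pow_le_pow_left₀ (by positivity) h9 J
    refine le_trans (le_of_eq ?_) h10
    rw [mul_pow, ← Real.exp_nat_mul, hm]
    push_cast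
    congr 2
    ring
  have h11 := (mul_le_mul_of_nonneg_right hsum hI0).trans hle
  have hE : Real.exp (-(6 * κ * c' * J)) * Real.exp (6 * κ * c' * J) = 1 := by
    rw [← Real.exp_add]
    simp
  have h12 : m ^ p = m ^ (p - 1) * m := by
    rw [Real.rpow_sub hm0, Real.rpow_one]
    field_simp
  have h13 := mul_le_mul_of_nonneg_right h11 (Real.exp_pos (6 * κ * c' * J)).le
  rw [h12] at h13
  have h14 : m * I ≤ m * (2 * π * 500000 ^ 2 * (A + 7) ^ 2 *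
      (G' * m ^ (p - 1) * Real.exp (6 * κ * c' * J))) := by
    calc m * I = m * Real.exp (-(6 * κ * c' * J)) * I * Real.exp (6 * κ * c' * J) := by
          rw [show m * Real.exp (-(6 * κ * c' * J)) * I * Real.exp (6 * κ * c' * J) =
            m * I * (Real.exp (-(6 * κ * c' * J)) * Real.exp (6 * κ * c' * J)) by ring, hE,
            mul_one]
      _ ≤ _ := h13
      _ = _ := by ring
  exact le_of_mul_le_mul_left h14 hm0

theorem Fn.avg (hF : Fn F A) (hA : 0 ≤ A) {δ θ κ c' G : ℝ} {N : ℕ} (h0 : 0 < δ) (h1 : δ ≤ 1 / 4)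
    (hθ : 0 ≤ θ) (hθ1 : θ ≤ 1) (hκ : 0 < κ) (hκ1 : κ ≤ 1 / 4) (hc : 0 ≤ c')
    (hc1 : 3 * κ * c' ≤ 1 / 2) (hN : 2 ≤ κ * N) (hG : 0 ≤ G)
    (h : ∀ c ℓ : ℝ, 0 < ℓ → ℓ ≤ 1 →
      ∑ d ∈ Finset.range N, chi κ c' N d * V F δ (ch N c ℓ d) (ℓ / N) ^ (1 + θ) ≤
        G * V F δ c ℓ ^ (1 + θ)) (K : ℕ) :
    ∫ ξ in (0:ℝ)..(2 * π), ‖deriv F ⟨((N ^ K : ℕ) : ℝ)⁻¹, ξ⟩‖ ^ ((2 - δ) * (1 + θ)) ≤
      2 * π * 500000 ^ 2 * (A + 7) ^ 2 *
        (G ^ K * ((N ^ K : ℕ) : ℝ) ^ ((2 - δ) * (1 + θ) - 1) * Real.exp (6 * κ * c' * K)) := by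
  have hN0 : 1 ≤ N := by
    rcases Nat.eq_zero_or_pos N with h | h
    · rw [h] at hN
      norm_num at hN
    · exact h
  exact hF.avg_core hA h0 h1 (by linarith) (by linarith) hκ hκ1 hc hc1 hN (pow_nonneg hG K)
    fun ξ => words (f := fun c ℓ => V F δ c ℓ ^ (1 + θ)) hN0 hG h K ξ 1 one_pos le_rfl

end Pool.Agent.Helper90.G2
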