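import Pool.Agent.Helper90.G2.Area

/-!
# G2-CONE: the length-area inequality in a cone

Angles `|φ| < π/2 - κ`. `Pa ρ₀ - Pa ρ₁ = (1/(π - 2κ)) ∫∫ F' e^(iφ) dρ dφ`, Cauchy-Schwarz with
`dρ dφ = (1/ρ) ρ dρ dφ`: `|..|² ≤ (1/(π-2κ))² (log (ρ₀/ρ₁) (π - 2κ)) ∫∫ |F'|² ρ dρ dφ`, and the last
integral is the area of the image of the cone (`Fn.vol` and polar coordinates
`Complex.lintegral_comp_polarCoord_symm`, after the translation by `i c`).
-/

set_option autoImplicit false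

namespace Pool.Agent.Helper90.G2

open MeasureTheory Set
open scoped Real

/-- the truncated cone of angle `|φ| < π/2 - κ` at `i c` -/
def Cn (κ c ρ₁ ρ₀ : ℝ) : Set ℂ :=
  {u | 0 < u.re ∧ ρ₁ < ‖u - ⟨0, c⟩‖ ∧ ‖u - ⟨0, c⟩‖ < ρ₀ ∧
    |u.im - c| < Real.cos κ * ‖u - ⟨0, c⟩‖}

/-- average of `F` over an arc -/
noncomputable def Pa (F : ℂ → ℂ) (κ c ρ : ℝ) : ℂ :=
  ((1 / (π - 2 * κ) : ℝ) : ℂ) *
    ∫ φ in (-(π / 2 - κ))..(π / 2 - κ), F ⟨ρ * Real.cos φ, c + ρ * Real.sin φ⟩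

variable {F : ℂ → ℂ} {A : ℝ}

/-- the point with polar coordinates `ρ, φ` around `i c` -/
noncomputable def pp (c ρ φ : ℝ) : ℂ := ⟨ρ * Real.cos φ, c + ρ * Real.sin φ⟩

theorem pp_eq (c ρ φ : ℝ) :
    pp c ρ φ = Complex.I * c + ρ * Complex.exp (φ * Complex.I) := by
  apply Complex.ext <;>
    simp [pp, Complex.exp_re, Complex.exp_im, Complex.mul_re, Complex.mul_im]

theorem continuous_pp (c : ℝ) : Continuous (fun p : ℝ × ℝ => pp c p.1 p.2) := by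
  have : (fun p : ℝ × ℝ => pp c p.1 p.2) =
      fun p : ℝ × ℝ => Complex.I * c + p.1 * Complex.exp (p.2 * Complex.I) := by
    funext p; exact pp_eq _ _ _
  rw [this]
  fun_prop

theorem pp_re_pos {κ c ρ φ : ℝ} (hκ : 0 < κ) (hρ : 0 < ρ) (hφ : |φ| ≤ π / 2 - κ) :
    0 < (pp c ρ φ).re := by
  have h := abs_le.1 hφ
  have : 0 < Real.cos φ := Real.cos_pos_of_mem_Ioo ⟨by linarith, by linarith⟩
  simpa [pp] using mul_pos hρ this

theorem pp_sub (c ρ φ : ℝ) : pp c ρ φ - ⟨0, c⟩ = ρ * Complex.exp (φ * Complex.I) := by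
  rw [pp_eq]
  have : (⟨0, c⟩ : ℂ) = Complex.I * c := by
    apply Complex.ext <;> simp
  rw [this]; ring

theorem pp_norm {c ρ φ : ℝ} (hρ : 0 < ρ) : ‖pp c ρ φ - ⟨0, c⟩‖ = ρ := by
  rw [pp_sub, norm_mul, Complex.norm_exp_ofReal_mul_I, mul_one, Complex.norm_real,
    Real.norm_of_nonneg hρ.le]

theorem pp_mem {κ c ρ φ ρ₁ ρ₀ : ℝ} (hκ : 0 < κ) (hκ1 : κ ≤ 1 / 4) (h1 : 0 < ρ₁)
    (hρ : ρ ∈ Ioo ρ₁ ρ₀) (hφ : φ ∈ Ioo (-(π / 2 - κ)) (π / 2 - κ)) : pp c ρ φ ∈ Cn κ c ρ₁ ρ₀ := by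
  have hρ0 : 0 < ρ := h1.trans hρ.1
  have hpi := Real.pi_gt_three
  refine ⟨pp_re_pos hκ hρ0 (abs_le.2 ⟨hφ.1.le, hφ.2.le⟩), ?_, ?_, ?_⟩
  · rw [pp_norm hρ0]; exact hρ.1
  · rw [pp_norm hρ0]; exact hρ.2
  · rw [pp_norm hρ0]
    have e : (pp c ρ φ).im - c = ρ * Real.sin φ := by simp [pp]
    rw [e, abs_mul, abs_of_pos hρ0, mul_comm]
    refine mul_lt_mul_of_pos_right ?_ hρ0
    have hc : Real.cos κ = Real.sin (π / 2 - κ) := by rw [Real.sin_pi_div_two_sub]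
    rw [hc, abs_lt]
    constructor
    · have := Real.sin_lt_sin_of_lt_of_le_pi_div_two (x := -(π / 2 - κ)) (y := φ)
        (by linarith) (by linarith [hφ.2]) hφ.1
      rwa [Real.sin_neg] at this
    · exact Real.sin_lt_sin_of_lt_of_le_pi_div_two (by linarith [hφ.1]) (by linarith) hφ.2

theorem Fn.hasDeriv_pp (hF : Fn F A) {c ρ φ : ℝ} (h : 0 < (pp c ρ φ).re) :
    HasDerivAt (fun r : ℝ => F (pp c r φ))
      (deriv F (pp c ρ φ) * Complex.exp (φ * Complex.I)) ρ := by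
  have ho : IsOpen {u : ℂ | 0 < u.re} := isOpen_lt continuous_const Complex.continuous_re
  have hd : HasDerivAt F (deriv F (pp c ρ φ)) (pp c ρ φ) :=
    ((hF.diff _ h).differentiableAt (ho.mem_nhds h)).hasDerivAt
  have hp : HasDerivAt (fun r : ℝ => pp c r φ) (Complex.exp (φ * Complex.I)) ρ := by
    have e : (fun r : ℝ => pp c r φ) =
        fun r : ℝ => Complex.I * c + r * Complex.exp (φ * Complex.I) := by
      funext r; exact pp_eq _ _ _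
    rw [e]
    have h1 : HasDerivAt (fun r : ℝ => (r : ℂ)) 1 ρ := Complex.ofRealCLM.hasDerivAt
    simpa using (h1.mul_const (Complex.exp (φ * Complex.I))).const_add (Complex.I * c)
  exact hd.comp_of_eq ρ hp rfl

theorem Fn.cont_deriv (hF : Fn F A) : ContinuousOn (deriv F) {u : ℂ | 0 < u.re} := by
  have ho : IsOpen {u : ℂ | 0 < u.re} := isOpen_lt continuous_const Complex.continuous_re
  exact (hF.diff.deriv ho).continuousOn

theorem Fn.sub_le (hF : Fn F A) {κ c ρ₁ ρ₀ φ : ℝ} (hκ : 0 < κ) (h1 : 0 < ρ₁) (h01 : ρ₁ ≤ ρ₀)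
    (hφ : |φ| ≤ π / 2 - κ) :
    ‖F (pp c ρ₀ φ) - F (pp c ρ₁ φ)‖ₑ ≤ ∫⁻ ρ in Ioc ρ₁ ρ₀, ‖deriv F (pp c ρ φ)‖ₑ := by
  have hpos : ∀ ρ ∈ uIcc ρ₁ ρ₀, 0 < (pp c ρ φ).re := by
    intro ρ hρ
    rw [uIcc_of_le h01] at hρ
    exact pp_re_pos hκ (lt_of_lt_of_le h1 hρ.1) hφ
  have hcont : ContinuousOn (fun ρ : ℝ => deriv F (pp c ρ φ) * Complex.exp (φ * Complex.I))
      (uIcc ρ₁ ρ₀) := by
    refine ContinuousOn.mul ?_ continuousOn_const
    refine hF.cont_deriv.comp ?_ hpos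
    exact ((continuous_pp c).comp (by fun_prop : Continuous fun ρ : ℝ => (ρ, φ))).continuousOn
  have := intervalIntegral.integral_eq_sub_of_hasDerivAt
    (fun ρ hρ => hF.hasDeriv_pp (hpos ρ hρ)) hcont.intervalIntegrable
  rw [← this, intervalIntegral.integral_of_le h01]
  refine (enorm_integral_le_lintegral_enorm _).trans (le_of_eq ?_)
  refine lintegral_congr fun ρ => ?_
  rw [enorm_mul]
  have : ‖Complex.exp (φ * Complex.I)‖ₑ = 1 := by
    rw [← ofReal_norm, Complex.norm_exp_ofReal_mul_I, ENNReal.ofReal_one]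
  rw [this, mul_one]

theorem Fn.diff_le (hF : Fn F A) {κ c ρ₁ ρ₀ : ℝ} (hκ : 0 < κ) (hκ1 : κ ≤ 1 / 4) (h1 : 0 < ρ₁)
    (h01 : ρ₁ ≤ ρ₀) :
    ‖∫ φ in (-(π / 2 - κ))..(π / 2 - κ), (F (pp c ρ₀ φ) - F (pp c ρ₁ φ))‖ₑ ≤
      ∫⁻ p in Ioo ρ₁ ρ₀ ×ˢ Ioo (-(π / 2 - κ)) (π / 2 - κ), ‖deriv F (pp c p.1 p.2)‖ₑ := by
  have hpi := Real.pi_gt_three
  have hb : -(π / 2 - κ) ≤ π / 2 - κ := by linarith
  rw [intervalIntegral.integral_of_le hb]
  refine (enorm_integral_le_lintegral_enorm _).trans ?_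
  have hm : Measurable fun p : ℝ × ℝ => ‖deriv F (pp c p.1 p.2)‖ₑ :=
    ((measurable_deriv F).comp (continuous_pp c).measurable).enorm
  rw [Measure.volume_eq_prod, ← Measure.prod_restrict,
    restrict_Ioo_eq_restrict_Ioc, restrict_Ioo_eq_restrict_Ioc,
    lintegral_prod_symm _ hm.aemeasurable]
  refine setLIntegral_mono' measurableSet_Ioc fun φ hφ => ?_
  exact hF.sub_le hκ h1 h01 (abs_le.2 ⟨hφ.1.le, hφ.2⟩)

theorem Fn.polar_le (hF : Fn F A) {κ c ρ₁ ρ₀ : ℝ} (hκ : 0 < κ) (hκ1 : κ ≤ 1 / 4) (h1 : 0 < ρ₁)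
    (h01 : ρ₁ ≤ ρ₀) (hC : MeasurableSet (Cn κ c ρ₁ ρ₀)) :
    ∫⁻ p in Ioo ρ₁ ρ₀ ×ˢ Ioo (-(π / 2 - κ)) (π / 2 - κ),
      ENNReal.ofReal p.1 * ENNReal.ofReal (‖deriv F (pp c p.1 p.2)‖ ^ 2) ≤
      ∫⁻ u in Cn κ c ρ₁ ρ₀, ENNReal.ofReal (‖deriv F u‖ ^ 2) := by
  have hpi := Real.pi_gt_three
  set f : ℂ → ENNReal := (Cn κ c ρ₁ ρ₀).indicator fun u => ENNReal.ofReal (‖deriv F u‖ ^ 2) with hf
  have e1 : ∫⁻ u in Cn κ c ρ₁ ρ₀, ENNReal.ofReal (‖deriv F u‖ ^ 2) = ∫⁻ u, f u := by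
    rw [hf, lintegral_indicator hC]
  have e2 : ∫⁻ u, f u = ∫⁻ v : ℂ, f (v + Complex.I * c) :=
    (lintegral_add_right_eq_self f (Complex.I * c)).symm
  rw [e1, e2, ← Complex.lintegral_comp_polarCoord_symm]
  have hs : Ioo ρ₁ ρ₀ ×ˢ Ioo (-(π / 2 - κ)) (π / 2 - κ) ⊆ polarCoord.target := by
    rintro ⟨ρ, φ⟩ ⟨hρ, hφ⟩
    simp only [mem_Ioo] at hρ hφ
    simp only [polarCoord_target, mem_prod, mem_Ioi, mem_Ioo]
    exact ⟨h1.trans hρ.1, by linarith [hφ.1], by linarith [hφ.2]⟩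
  refine le_trans ?_ (lintegral_mono_set hs)
  refine setLIntegral_mono' (measurableSet_Ioo.prod measurableSet_Ioo) fun p hp => ?_
  have e3 : Complex.polarCoord.symm p + Complex.I * c = pp c p.1 p.2 := by
    rw [Complex.polarCoord_symm_apply, pp_eq, Complex.exp_mul_I, add_comm]
    push_cast
    ring
  rw [e3, hf, indicator_of_mem (pp_mem hκ hκ1 h1 hp.1 hp.2), smul_eq_mul]

theorem lin_inv {κ ρ₁ ρ₀ t : ℝ} (hκ : 0 < κ) (hκ1 : κ ≤ 1 / 4) (h1 : 0 < ρ₁)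
    (h01 : ρ₁ ≤ ρ₀) (ht : 0 < t) :
    ∫⁻ p in Ioo ρ₁ ρ₀ ×ˢ Ioo (-(π / 2 - κ)) (π / 2 - κ), ENNReal.ofReal (1 / (2 * t) * p.1⁻¹) =
      ENNReal.ofReal ((π - 2 * κ) * Real.log (ρ₀ / ρ₁) / (2 * t)) := by
  have hpi := Real.pi_gt_three
  have hm : Measurable fun p : ℝ × ℝ => ENNReal.ofReal (1 / (2 * t) * p.1⁻¹) := by fun_prop
  rw [Measure.volume_eq_prod, ← Measure.prod_restrict, lintegral_prod _ hm.aemeasurable]
  simp only [lintegral_const, Measure.restrict_apply MeasurableSet.univ, univ_inter,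
    Real.volume_Ioo]
  rw [lintegral_mul_const _ (by fun_prop)]
  have hi : IntegrableOn (fun r : ℝ => 1 / (2 * t) * r⁻¹) (Ioc ρ₁ ρ₀) := by
    have : ContinuousOn (fun r : ℝ => 1 / (2 * t) * r⁻¹) (uIcc ρ₁ ρ₀) := by
      refine continuousOn_const.mul (ContinuousOn.inv₀ continuousOn_id fun r hr => ?_)
      rw [uIcc_of_le h01] at hr
      exact (lt_of_lt_of_le h1 hr.1).ne'
    exact (intervalIntegrable_iff_integrableOn_Ioc_of_le h01).1 this.intervalIntegrable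
  rw [restrict_Ioo_eq_restrict_Ioc, ← ofReal_integral_eq_lintegral_ofReal hi
    ((ae_restrict_iff' measurableSet_Ioc).2 (Filter.Eventually.of_forall fun r hr => by
      have : 0 < r := h1.trans hr.1
      positivity)),
    ← intervalIntegral.integral_of_le h01, intervalIntegral.integral_const_mul,
    integral_inv_of_pos h1 (lt_of_lt_of_le h1 h01), ← ENNReal.ofReal_mul (by
      have : 0 ≤ Real.log (ρ₀ / ρ₁) := Real.log_nonneg ((one_le_div h1).2 h01)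
      positivity)]
  congr 1
  field_simp
  ring

theorem meas_cn (κ c ρ₁ ρ₀ : ℝ) : MeasurableSet (Cn κ c ρ₁ ρ₀) := by
  have hn : Continuous fun u : ℂ => ‖u - ⟨0, c⟩‖ := (continuous_id.sub continuous_const).norm
  have h1 : IsOpen {u : ℂ | 0 < u.re} := isOpen_lt continuous_const Complex.continuous_re
  have h2 : IsOpen {u : ℂ | ρ₁ < ‖u - ⟨0, c⟩‖} := isOpen_lt continuous_const hn
  have h3 : IsOpen {u : ℂ | ‖u - ⟨0, c⟩‖ < ρ₀} := isOpen_lt hn continuous_const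
  have h4 : IsOpen {u : ℂ | |u.im - c| < Real.cos κ * ‖u - ⟨0, c⟩‖} :=
    isOpen_lt (Complex.continuous_im.sub continuous_const).abs (continuous_const.mul hn)
  exact (h1.inter (h2.inter (h3.inter h4))).measurableSet

theorem Fn.cone (hF : Fn F A) {κ c ρ₁ ρ₀ : ℝ} (hκ : 0 < κ) (hκ1 : κ ≤ 1 / 4) (h1 : 0 < ρ₁)
    (h01 : ρ₁ ≤ ρ₀) (h0 : ρ₀ ≤ 1 / 2) :
    ‖Pa F κ c ρ₀ - Pa F κ c ρ₁‖ ^ 2 ≤
      Real.log (ρ₀ / ρ₁) / (π - 2 * κ) * ar F (Cn κ c ρ₁ ρ₀) := by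
  have hpi := Real.pi_gt_three
  have hb : 0 < π - 2 * κ := by linarith
  have hC := meas_cn κ c ρ₁ ρ₀
  have hlog : 0 ≤ Real.log (ρ₀ / ρ₁) := Real.log_nonneg ((one_le_div h1).2 h01)
  have hsub : Cn κ c ρ₁ ρ₀ ⊆ Bx c 1 := by
    rintro u ⟨hu0, hu1, hu2, hu3⟩
    have hre : u.re ≤ ‖u - ⟨0, c⟩‖ := by
      have := Complex.abs_re_le_norm (u - ⟨0, c⟩)
      simp only [Complex.sub_re, sub_zero] at this
      exact (le_abs_self _).trans this
    have him : |u.im - c| ≤ ‖u - ⟨0, c⟩‖ := by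
      have := Complex.abs_im_le_norm (u - ⟨0, c⟩)
      simpa only [Complex.sub_im] using this
    exact ⟨hu0, by linarith, by linarith⟩
  have hstrip : Cn κ c ρ₁ ρ₀ ⊆ {u | 0 < u.re ∧ |u.im - c| < π} := by
    intro u hu
    have := hsub hu
    exact ⟨hu.1, by linarith [this.2.2]⟩
  have hfin := hF.fin le_rfl hsub
  set D : ℂ := ∫ φ in (-(π / 2 - κ))..(π / 2 - κ), (F (pp c ρ₀ φ) - F (pp c ρ₁ φ)) with hD
  set a : ℝ := ar F (Cn κ c ρ₁ ρ₀) with ha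
  have ha0 : 0 ≤ a := ENNReal.toReal_nonneg
  -- the difference
  have hInt : ∀ ρ : ℝ, 0 < ρ → IntervalIntegrable (fun φ => F (pp c ρ φ)) volume
      (-(π / 2 - κ)) (π / 2 - κ) := by
    intro ρ hρ
    refine ContinuousOn.intervalIntegrable ?_
    refine hF.diff.continuousOn.comp ?_ ?_
    · exact ((continuous_pp c).comp (by fun_prop : Continuous fun φ : ℝ => (ρ, φ))).continuousOn
    · intro φ hφ
      rw [uIcc_of_le (by linarith)] at hφ
      exact pp_re_pos hκ hρ (abs_le.2 ⟨hφ.1, hφ.2⟩)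
  have hPa : Pa F κ c ρ₀ - Pa F κ c ρ₁ = ((1 / (π - 2 * κ) : ℝ) : ℂ) * D := by
    rw [hD, intervalIntegral.integral_sub (hInt ρ₀ (lt_of_lt_of_le h1 h01)) (hInt ρ₁ h1), mul_sub]
    rfl
  -- the main inequality with a parameter
  have key : ∀ t : ℝ, 0 < t → ‖D‖ ≤ t / 2 * a + (π - 2 * κ) * Real.log (ρ₀ / ρ₁) / (2 * t) := by
    intro t ht
    have h2 := hF.diff_le (c := c) hκ hκ1 h1 h01
    rw [← hD] at h2
    have hv : volume (F '' Cn κ c ρ₁ ρ₀) = ENNReal.ofReal a := by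
      rw [ha, ar, ENNReal.ofReal_toReal hfin.ne]
    have h3 : ∫⁻ p in Ioo ρ₁ ρ₀ ×ˢ Ioo (-(π / 2 - κ)) (π / 2 - κ), ‖deriv F (pp c p.1 p.2)‖ₑ ≤
        ∫⁻ p in Ioo ρ₁ ρ₀ ×ˢ Ioo (-(π / 2 - κ)) (π / 2 - κ),
          (ENNReal.ofReal (t / 2) *
            (ENNReal.ofReal p.1 * ENNReal.ofReal (‖deriv F (pp c p.1 p.2)‖ ^ 2)) +
            ENNReal.ofReal (1 / (2 * t) * p.1⁻¹)) := by
      refine setLIntegral_mono' (measurableSet_Ioo.prod measurableSet_Ioo) fun p hp => ?_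
      have hp1 : 0 < p.1 := h1.trans hp.1.1
      rw [← ofReal_norm, ← ENNReal.ofReal_mul hp1.le, ← ENNReal.ofReal_mul (by positivity),
        ← ENNReal.ofReal_add (by positivity) (by positivity)]
      refine ENNReal.ofReal_le_ofReal ?_
      set x := ‖deriv F (pp c p.1 p.2)‖
      have e : t / 2 * (p.1 * x ^ 2) + 1 / (2 * t) * p.1⁻¹ - x =
          (t * p.1 * x - 1) ^ 2 / (2 * t * p.1) := by
        field_simp
        ring
      have : 0 ≤ (t * p.1 * x - 1) ^ 2 / (2 * t * p.1) := by positivity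
      linarith
    have hm : Measurable fun p : ℝ × ℝ => ENNReal.ofReal (1 / (2 * t) * p.1⁻¹) := by fun_prop
    rw [lintegral_add_right _ hm, lintegral_const_mul' _ _ ENNReal.ofReal_ne_top,
      lin_inv hκ hκ1 h1 h01 ht] at h3
    have h4 := hF.polar_le (c := c) hκ hκ1 h1 h01 hC
    rw [← hF.vol hC hstrip, hv] at h4
    have h5 : ENNReal.ofReal ‖D‖ ≤
        ENNReal.ofReal (t / 2 * a + (π - 2 * κ) * Real.log (ρ₀ / ρ₁) / (2 * t)) := by
      rw [ofReal_norm, ENNReal.ofReal_add (by positivity) (by positivity),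
        ENNReal.ofReal_mul (by positivity)]
      refine h2.trans (h3.trans ?_)
      gcongr
    exact (ENNReal.ofReal_le_ofReal_iff (by positivity)).1 h5
  have hD2 : ‖D‖ ^ 2 ≤ a * ((π - 2 * κ) * Real.log (ρ₀ / ρ₁)) := by
    set b := (π - 2 * κ) * Real.log (ρ₀ / ρ₁) with hbdef
    have hb0 : 0 ≤ b := by positivity
    rcases (norm_nonneg D).eq_or_lt with h | h
    · rw [← h]; nlinarith [mul_nonneg ha0 hb0]
    · rcases ha0.eq_or_lt with h' | h'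
      · exfalso
        rcases hb0.eq_or_lt with h'' | h''
        · have := key 1 one_pos
          rw [← h', ← h''] at this
          simp at this
          rw [this] at h; simp at h
        · have := key (b / ‖D‖) (by positivity)
          rw [← h'] at this
          have e : b / (2 * (b / ‖D‖)) = ‖D‖ / 2 := by field_simp
          rw [e] at this
          linarith
      · have := key (‖D‖ / a) (by positivity)
        have e1 : ‖D‖ / a / 2 * a = ‖D‖ / 2 := by field_simp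
        have e2 : b / (2 * (‖D‖ / a)) = a * b / (2 * ‖D‖) := by field_simp
        rw [e1, e2] at this
        have h3 : ‖D‖ / 2 ≤ a * b / (2 * ‖D‖) := by linarith
        rw [div_le_div_iff₀ (by norm_num) (by positivity)] at h3
        nlinarith
  rw [hPa, norm_mul, mul_pow, Complex.norm_real, Real.norm_of_nonneg (by positivity)]
  calc (1 / (π - 2 * κ)) ^ 2 * ‖D‖ ^ 2 ≤
      (1 / (π - 2 * κ)) ^ 2 * (a * ((π - 2 * κ) * Real.log (ρ₀ / ρ₁))) := by gcongr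
    _ = Real.log (ρ₀ / ρ₁) / (π - 2 * κ) * a := by field_simp

/-- if `F` is close to `p` on the arc, so is the average -/
theorem Pa_near (hF : Fn F A) {κ c ρ : ℝ} (hκ : 0 < κ) (hκ1 : κ ≤ 1 / 4) (hρ : 0 < ρ) {p : ℂ}
    {b : ℝ} (h : ∀ φ : ℝ, |φ| ≤ π / 2 - κ →
      ‖F ⟨ρ * Real.cos φ, c + ρ * Real.sin φ⟩ - p‖ ≤ b) : ‖Pa F κ c ρ - p‖ ≤ b := by
  have hpi := Real.pi_gt_three
  have hb : 0 < π - 2 * κ := by linarith
  have hInt : IntervalIntegrable (fun φ => F (pp c ρ φ)) volume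
      (-(π / 2 - κ)) (π / 2 - κ) := by
    refine ContinuousOn.intervalIntegrable ?_
    refine hF.diff.continuousOn.comp ?_ ?_
    · exact ((continuous_pp c).comp (by fun_prop : Continuous fun φ : ℝ => (ρ, φ))).continuousOn
    · intro φ hφ
      rw [uIcc_of_le (by linarith)] at hφ
      exact pp_re_pos hκ hρ (abs_le.2 ⟨hφ.1, hφ.2⟩)
  have e : Pa F κ c ρ - p = ((1 / (π - 2 * κ) : ℝ) : ℂ) *
      ∫ φ in (-(π / 2 - κ))..(π / 2 - κ), (F (pp c ρ φ) - p) := by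
    rw [intervalIntegral.integral_sub hInt intervalIntegrable_const,
      intervalIntegral.integral_const, mul_sub, Complex.real_smul]
    have : ((1 / (π - 2 * κ) : ℝ) : ℂ) * (((π / 2 - κ - -(π / 2 - κ) : ℝ) : ℂ) * p) = p := by
      rw [← mul_assoc, ← Complex.ofReal_mul]
      have : 1 / (π - 2 * κ) * (π / 2 - κ - -(π / 2 - κ)) = 1 := by
        field_simp
        ring
      rw [this]; simp
    rw [this]
    rfl
  rw [e, norm_mul, Complex.norm_real, Real.norm_of_nonneg (by positivity)]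
  have h2 : ‖∫ φ in (-(π / 2 - κ))..(π / 2 - κ), (F (pp c ρ φ) - p)‖ ≤
      b * |π / 2 - κ - -(π / 2 - κ)| := by
    refine intervalIntegral.norm_integral_le_of_norm_le_const fun φ hφ => ?_
    rw [uIoc_of_le (by linarith)] at hφ
    exact h φ (abs_le.2 ⟨hφ.1.le, hφ.2⟩)
  rw [abs_of_pos (by linarith)] at h2
  calc 1 / (π - 2 * κ) * ‖∫ φ in (-(π / 2 - κ))..(π / 2 - κ), (F (pp c ρ φ) - p)‖ ≤
      1 / (π - 2 * κ) * (b * (π / 2 - κ - -(π / 2 - κ))) := by gcongr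
    _ = b := by field_simp; ring

end Pool.Agent.Helper90.G2
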