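import Mathlib

/-!
# Project G2 (MP_16b0ee_an): the integral means spectrum near `t = 2`, definitions

`F (u) = ψ (e^u)` on the right half plane. Boxes `Bx c ℓ` (centre `c` of the side on the imaginary
axis, side `ℓ ≤ 1`), their upper parts `Wn c ℓ q` (heights between `q ℓ` and `ℓ`), the top point
`zt c ℓ`. `Vp δ Q p` is the integral of `|w - p|^(-δ)` over `Q`, and `V` is `Vp` of the image of a box
with `p` the image of its top point. `ch N c ℓ d`, `d < N`, are the centres of the `N` boxes of side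
`ℓ / N` in `Bx c ℓ`.
-/

set_option autoImplicit false

namespace Pool.Agent.Helper90.G2

open MeasureTheory Set
open scoped Real

/-- box -/
def Bx (c ℓ : ℝ) : Set ℂ := {u | 0 < u.re ∧ u.re < ℓ ∧ |u.im - c| < ℓ / 2}

/-- upper part of the box: heights between `q ℓ` and `ℓ` -/
def Wn (c ℓ q : ℝ) : Set ℂ := {u | q * ℓ < u.re ∧ u.re < ℓ ∧ |u.im - c| < ℓ / 2}

/-- top point of the box -/
def zt (c ℓ : ℝ) : ℂ := ⟨ℓ, c⟩

/-- the class of functions: `F (u) = ψ (e^u)` -/
structure Fn (F : ℂ → ℂ) (A : ℝ) : Prop where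
  diff : DifferentiableOn ℂ F {u | 0 < u.re}
  inj : ∀ c : ℝ, InjOn F {u | 0 < u.re ∧ |u.im - c| < π}
  per : ∀ u : ℂ, 0 < u.re → F (u + 2 * π * Complex.I) = F u
  area : ∀ c : ℝ, volume (F '' Bx c 1) ≤ ENNReal.ofReal A

/-- area of an image -/
noncomputable def ar (F : ℂ → ℂ) (S : Set ℂ) : ℝ := (volume (F '' S)).toReal

/-- the integral of `|w - p|^(-δ)` over `Q` -/
noncomputable def Vp (δ : ℝ) (Q : Set ℂ) (p : ℂ) : ℝ := ∫ w in Q, ‖w - p‖ ^ (-δ)

/-- the functional of a box -/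
noncomputable def V (F : ℂ → ℂ) (δ c ℓ : ℝ) : ℝ := Vp δ (F '' Bx c ℓ) (F (zt c ℓ))

/-- the centre of the child number `d` -/
noncomputable def ch (N : ℕ) (c ℓ : ℝ) (d : ℕ) : ℝ := c + (((d : ℝ) + 1 / 2) / N - 1 / 2) * ℓ

/-- child number `d` is not near the two sides -/
def Cen (κ : ℝ) (N d : ℕ) : Prop := |((d : ℝ) + 1 / 2) / N - 1 / 2| ≤ 1 / 2 - κ

open Classical in
/-- the weight of a child -/
noncomputable def chi (κ c : ℝ) (N d : ℕ) : ℝ := if Cen κ N d then 1 else Real.exp (-c)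

end Pool.Agent.Helper90.G2
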