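import Pool.Agent.Helper90.G2.Crude
import Pool.Agent.Helper90.G2.Sharp
import Pool.Agent.Helper90.G2.Rec

/-!
# G2-WINDOW: the recursion over a window of `M` generations

`N = 2^M`, `R = 500 (1 + log N)`, `ar = ar F (Wn c ℓ (1/N))`, `r = R √ar`, `S = (sS κ (log N))²`,
`K = cK M ε = 9 π R² N / (4 ε) ≥ 1`, `η = ε / K`, `a = e^(δ² K) - 1 ≤ 2 δ² K`, `g = e^(δ m)` with
`m = δ (1 + 32 δ) π S / (4 (1 - ε))`, `c = C2 δ² M`. `rec_real` with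
`Vp d = Vc`, `w = Vw`. (h2): `Fn.kids_move` with `m := δ K`, `s := r`:
`er δ (δ K) r = (1 + 32 δ) π R² ar / (4 K) (r / (δ K))^(-δ) ≤ (ε / N) ar r^(-δ) ≤ (ε/N) w` (`1 + 32 δ ≤ 9`,
`δ K ≤ 1`). (h3): `Cen` gives `|ch - c| ≤ ℓ/2 - κ ℓ`, `Fn.sharp` with `q = 1/N`, `Fn.kids_move` with
`s := √S √ar`: `er δ m s = (1 - ε) ar (s / m)^(-δ) ≤ (1 - ε) ar r^(-δ)` because `m ≤ √S / R`.
(h4): `Fn.crudeM`. `hδ3`: `δ² ≤ ε / (4 K²)` gives `a ≤ η / 2`; also `a η ≤ 2 δ² ε`. Final factor: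
`g + a η + c (2 η + ε) ≤ exp (δ m + 2 δ² ε + 3 ε c)`.
-/

set_option autoImplicit false

namespace Pool.Agent.Helper90.G2

open MeasureTheory Set
open scoped Real

variable {F : ℂ → ℂ} {A : ℝ}

/-- the constant `K` -/
noncomputable def cK (M : ℕ) (ε : ℝ) : ℝ :=
  9 * π * (500 * (1 + Real.log ((2 ^ M : ℕ) : ℝ))) ^ 2 * ((2 ^ M : ℕ) : ℝ) / (4 * ε)

/-- the constant `m / δ` -/
noncomputable def cm (M : ℕ) (κ ε δ : ℝ) : ℝ :=
  (1 + 32 * δ) * π * sS κ (Real.log ((2 ^ M : ℕ) : ℝ)) ^ 2 / (4 * (1 - ε))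

theorem Window_sS {κ L : ℝ} (hκ : 0 < κ) (hκ1 : κ ≤ 1 / 4) : 0 < sS κ L := by
  have h1 : 0 ≤ Real.log (2 / κ) := by
    refine Real.log_nonneg ?_
    rw [le_div_iff₀ hκ]
    linarith
  have h2 := Real.sqrt_nonneg (L / (π - 2 * κ))
  unfold sS
  linarith

/-- the error of a move in the whole window -/
theorem Window_er1 {δ K R a0 ε N : ℝ} (h0 : 0 < δ) (h1 : δ ≤ 1 / 4) (hε : 0 < ε) (hN : 0 < N)
    (hR : 0 < R) (ha : 0 < a0) (hK : K = 9 * π * R ^ 2 * N / (4 * ε)) (hδK : δ * K ≤ 1) :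
    er δ (δ * K) (R * √a0) ≤ ε / N * (a0 * (R * √a0) ^ (-δ)) := by
  have hπ := Real.pi_pos
  have hK0 : 0 < K := by rw [hK]; positivity
  have hs : √a0 ^ 2 = a0 := Real.sq_sqrt ha.le
  have hs0 : 0 < √a0 := Real.sqrt_pos.2 ha
  have hr : 0 < R * √a0 := mul_pos hR hs0
  have hm : 0 < δ * K := mul_pos h0 hK0
  have e1 : (R * √a0 / (δ * K)) ^ (-δ) ≤ (R * √a0) ^ (-δ) := by
    refine Real.rpow_le_rpow_of_nonpos hr ?_ (by linarith)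
    rw [le_div_iff₀ hm]
    nlinarith
  have e2 : δ * (1 + 32 * δ) * (π * (R * √a0) ^ 2 / (4 * (δ * K))) =
      (1 + 32 * δ) / 9 * (ε / N * a0) := by
    rw [mul_pow, hs, hK]
    field_simp
  have h9 : (1 + 32 * δ) / 9 ≤ 1 := by linarith
  have hp : 0 ≤ (R * √a0) ^ (-δ) := Real.rpow_nonneg hr.le _
  have hq : 0 ≤ ε / N * a0 := by positivity
  have h90 : 0 ≤ (1 + 32 * δ) / 9 := by positivity
  unfold er
  rw [e2]
  calc (1 + 32 * δ) / 9 * (ε / N * a0) * (R * √a0 / (δ * K)) ^ (-δ)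
      ≤ (1 + 32 * δ) / 9 * (ε / N * a0) * (R * √a0) ^ (-δ) :=
        mul_le_mul_of_nonneg_left e1 (mul_nonneg h90 hq)
    _ ≤ 1 * (ε / N * a0) * (R * √a0) ^ (-δ) :=
        mul_le_mul_of_nonneg_right (mul_le_mul_of_nonneg_right h9 hq) hp
    _ = ε / N * (a0 * (R * √a0) ^ (-δ)) := by ring

/-- the error of a sharp move -/
theorem Window_er2 {δ m R a0 ε S : ℝ} (h0 : 0 < δ) (hε1 : ε < 1) (hR : 0 < R) (ha : 0 < a0)
    (hS : 0 < S) (hm : m = (1 + 32 * δ) * π * S ^ 2 / (4 * (1 - ε))) (h5 : δ * m * R ≤ S) :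
    er δ (δ * m) (√a0 * S) ≤ (1 - ε) * (a0 * (R * √a0) ^ (-δ)) := by
  have hπ := Real.pi_pos
  have hε' : 0 < 1 - ε := by linarith
  have hm0 : 0 < m := by rw [hm]; positivity
  have hs : √a0 ^ 2 = a0 := Real.sq_sqrt ha.le
  have hs0 : 0 < √a0 := Real.sqrt_pos.2 ha
  have hr : 0 < R * √a0 := mul_pos hR hs0
  have hdm : 0 < δ * m := mul_pos h0 hm0
  have e1 : (√a0 * S / (δ * m)) ^ (-δ) ≤ (R * √a0) ^ (-δ) := by
    refine Real.rpow_le_rpow_of_nonpos hr ?_ (by linarith)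
    rw [le_div_iff₀ hdm]
    nlinarith
  have e2 : δ * (1 + 32 * δ) * (π * (√a0 * S) ^ 2 / (4 * (δ * m))) = (1 - ε) * a0 := by
    rw [mul_pow, hs, hm]
    field_simp
  unfold er
  rw [e2, mul_assoc (1 - ε) a0]
  exact mul_le_mul_of_nonneg_left (mul_le_mul_of_nonneg_left e1 ha.le) hε'.le

theorem Window_cen {κ c ℓ : ℝ} (hℓ : 0 < ℓ) {N d : ℕ} (h : Cen κ N d) :
    |ch N c ℓ d - c| ≤ ℓ / 2 - κ * ℓ := by
  unfold Cen at h
  have e : ch N c ℓ d - c = (((d : ℝ) + 1 / 2) / N - 1 / 2) * ℓ := by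
    unfold ch; ring
  rw [e, abs_mul, abs_of_pos hℓ]
  calc |((d : ℝ) + 1 / 2) / N - 1 / 2| * ℓ ≤ (1 / 2 - κ) * ℓ :=
        mul_le_mul_of_nonneg_right h hℓ.le
    _ = ℓ / 2 - κ * ℓ := by ring

/-- moving the point in the whole window (for every child) -/
theorem Window_move (hF : Fn F A) {ε : ℝ} {N : ℕ} (hN2 : 2 ≤ N) (hε : 0 < ε) {δ K : ℝ}
    (h0 : 0 < δ) (h14 : δ ≤ 1 / 4)
    (hK : K = 9 * π * (500 * (1 + Real.log N)) ^ 2 * N / (4 * ε)) (h2 : δ * K ≤ 1)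
    {c ℓ : ℝ} (hℓ : 0 < ℓ) (hℓ1 : ℓ ≤ 1) {d : ℕ} (hd : d < N) :
    V F δ (ch N c ℓ d) (ℓ / N) ≤ (1 + (Real.exp (δ ^ 2 * K) - 1)) * Vc F δ c ℓ N d +
      ε / N * Vw F δ c ℓ N := by
  have hNr0 : (0 : ℝ) < N := by
    have : 0 < N := by omega
    exact_mod_cast this
  have hlog : 0 ≤ Real.log N := Real.log_natCast_nonneg N
  have hR : 0 < 500 * (1 + Real.log N) := by linarith
  obtain ⟨hq, hq1⟩ := one_div_N hN2
  have hpos := hF.ar_pos (c := c) hℓ hℓ1 hq hq1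
  have hK0 : 0 < K := by rw [hK]; positivity
  have hloss := hF.loss (c := c) h0 (by linarith : δ ≤ 1) hℓ hℓ1 hN2
  have k1 := hF.kids_move (m := δ * K) (s := 500 * (1 + Real.log N) *
    √(ar F (Wn c ℓ (1 / N)))) (by positivity) h2 h0 h14
    (mul_pos hR (Real.sqrt_pos.2 hpos)) hℓ hℓ1 hN2 hd (hF.kids_rad hℓ hℓ1 hN2 hd)
  have k2 := Window_er1 (N := N) h0 h14 hε hNr0 hR hpos hK h2
  have k3 : ε / N * (ar F (Wn c ℓ (1 / N)) *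
      (500 * (1 + Real.log N) * √(ar F (Wn c ℓ (1 / N)))) ^ (-δ)) ≤
      ε / N * Vw F δ c ℓ N := mul_le_mul_of_nonneg_left hloss (by positivity)
  have e : Real.exp (δ * (δ * K)) = 1 + (Real.exp (δ ^ 2 * K) - 1) := by
    rw [show δ * (δ * K) = δ ^ 2 * K by ring]; ring
  rw [e] at k1
  linarith

/-- `Window_move` for `N = 2^M`, `K = cK M ε` -/
theorem Fn.window_move (hF : Fn F A) {ε : ℝ} {M : ℕ} (hM : 1 ≤ M) (hε : 0 < ε) {δ : ℝ}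
    (h0 : 0 < δ) (h14 : δ ≤ 1 / 4) (h2 : δ * cK M ε ≤ 1)
    {c ℓ : ℝ} (hℓ : 0 < ℓ) (hℓ1 : ℓ ≤ 1) {d : ℕ} (hd : d < 2 ^ M) :
    V F δ (ch (2 ^ M) c ℓ d) (ℓ / ((2 ^ M : ℕ) : ℝ)) ≤
      (1 + (Real.exp (δ ^ 2 * cK M ε) - 1)) * Vc F δ c ℓ (2 ^ M) d +
        ε / ((2 ^ M : ℕ) : ℝ) * Vw F δ c ℓ (2 ^ M) := by
  have hN2 : 2 ≤ 2 ^ M := by
    calc 2 = 2 ^ 1 := by norm_num
      _ ≤ 2 ^ M := Nat.pow_le_pow_right (by norm_num) hM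
  exact Window_move (K := cK M ε) hF hN2 hε h0 h14 rfl h2 hℓ hℓ1 hd

/-- moving the point of a central child -/
theorem Window_sharp (hF : Fn F A) {κ ε : ℝ} {N : ℕ} (hN2 : 2 ≤ N) (hκ : 0 < κ) (hκ1 : κ ≤ 1 / 4)
    (hε1 : ε < 1) (hM : 2 / (N : ℝ) < κ ^ 2) {δ m : ℝ} (h0 : 0 < δ) (h14 : δ ≤ 1 / 4)
    (hm : m = (1 + 32 * δ) * π * sS κ (Real.log N) ^ 2 / (4 * (1 - ε))) (h4 : δ * m ≤ 1)
    (h5 : δ * m * (500 * (1 + Real.log N)) ≤ sS κ (Real.log N))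
    {c ℓ : ℝ} (hℓ : 0 < ℓ) (hℓ1 : ℓ ≤ 1) {d : ℕ} (hd : d < N) (hcen : Cen κ N d) :
    V F δ (ch N c ℓ d) (ℓ / N) ≤ Real.exp (δ * (δ * m)) * Vc F δ c ℓ N d +
      (1 - ε) * Vw F δ c ℓ N := by
  have hπ3 := Real.pi_gt_three
  have hlog : 0 ≤ Real.log N := Real.log_natCast_nonneg N
  have hR : 0 < 500 * (1 + Real.log N) := by linarith
  obtain ⟨hq, hq1⟩ := one_div_N hN2
  have hpos := hF.ar_pos (c := c) hℓ hℓ1 hq hq1
  have hS : 0 < sS κ (Real.log N) := Window_sS hκ hκ1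
  have hε' : 0 < 1 - ε := by linarith
  have hm0 : 0 < m := by rw [hm]; positivity
  have hloss := hF.loss (c := c) h0 (by linarith : δ ≤ 1) hℓ hℓ1 hN2
  have hsh := hF.sharp (c := c) (c' := ch N c ℓ d) hℓ hℓ1 hκ hκ1 hq
    (by rw [mul_one_div]; exact hM) (Window_cen hℓ hcen)
  rw [one_div_one_div, one_div_mul_eq_div] at hsh
  have k1 := hF.kids_move (m := δ * m) (by positivity) h4 h0 h14
    (mul_pos (Real.sqrt_pos.2 hpos) hS) hℓ hℓ1 hN2 hd hsh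
  have k2 := Window_er2 h0 hε1 hR hpos hS hm h5
  have k3 : (1 - ε) * (ar F (Wn c ℓ (1 / N)) *
      (500 * (1 + Real.log N) * √(ar F (Wn c ℓ (1 / N)))) ^ (-δ)) ≤
      (1 - ε) * Vw F δ c ℓ N := mul_le_mul_of_nonneg_left hloss hε'.le
  linarith

/-- the window inequality with the constants as parameters -/
theorem Window_aux (hF : Fn F A) {κ ε : ℝ} {N : ℕ} (hN2 : 2 ≤ N) (hκ : 0 < κ) (hκ1 : κ ≤ 1 / 4)
    (hε : 0 < ε) (hε1 : ε ≤ 1 / 2) (hM : 2 / (N : ℝ) < κ ^ 2) {δ K m c' θ : ℝ} (h0 : 0 < δ)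
    (h14 : δ ≤ 1 / 4) (hK : K = 9 * π * (500 * (1 + Real.log N)) ^ 2 * N / (4 * ε))
    (hm : m = (1 + 32 * δ) * π * sS κ (Real.log N) ^ 2 / (4 * (1 - ε)))
    (h2 : δ * K ≤ 1) (h3 : 4 * δ ^ 2 * K ^ 2 ≤ ε) (h4 : δ * m ≤ 1)
    (h5 : δ * m * (500 * (1 + Real.log N)) ≤ sS κ (Real.log N)) (hc' : 0 ≤ c')
    (hθ : 2 * c' * K / ε ≤ θ) {c ℓ : ℝ} (hℓ : 0 < ℓ) (hℓ1 : ℓ ≤ 1)
    (hcr : ∑ d ∈ Finset.range N, V F δ (ch N c ℓ d) (ℓ / N) ≤ Real.exp c' * V F δ c ℓ) :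
    ∑ d ∈ Finset.range N, chi κ c' N d * V F δ (ch N c ℓ d) (ℓ / N) ^ (1 + θ) ≤
      Real.exp (c' * θ + δ ^ 2 * m + 2 * δ ^ 2 * ε + 3 * ε * c') * V F δ c ℓ ^ (1 + θ) := by
  have hπ3 := Real.pi_gt_three
  have hNr : (2 : ℝ) ≤ N := by exact_mod_cast hN2
  have hNr0 : (0 : ℝ) < N := by linarith
  have hlog : 0 ≤ Real.log N := Real.log_natCast_nonneg N
  have hR1 : (1 : ℝ) ≤ 500 * (1 + Real.log N) := by linarith
  have hR : 0 < 500 * (1 + Real.log N) := by linarith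
  have hS : 0 < sS κ (Real.log N) := Window_sS hκ hκ1
  have hε' : 0 < 1 - ε := by linarith
  have hK1 : 1 ≤ K := by
    rw [hK, le_div_iff₀ (by positivity)]
    have a1 : (1:ℝ) ≤ (500 * (1 + Real.log N)) ^ 2 := one_le_pow₀ hR1
    have a2 : (1:ℝ) ≤ (500 * (1 + Real.log N)) ^ 2 * N :=
      one_le_mul_of_one_le_of_one_le a1 (by linarith)
    nlinarith
  have hK0 : 0 < K := by linarith
  have hm0 : 0 < m := by rw [hm]; positivity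
  -- smallness of `δ² K`
  have hx0 : 0 ≤ δ ^ 2 * K := by positivity
  have hx1 : δ ^ 2 * K ≤ ε / (4 * K) := by
    rw [le_div_iff₀ (by positivity)]
    calc δ ^ 2 * K * (4 * K) = 4 * δ ^ 2 * K ^ 2 := by ring
      _ ≤ ε := h3
  have hη1 : ε / K ≤ ε := div_le_self hε.le hK1
  have hη0 : 0 ≤ ε / K := by positivity
  have hx2 : δ ^ 2 * K ≤ 1 / 8 := by
    have e : ε / (4 * K) = ε / K / 4 := by field_simp
    rw [e] at hx1
    linarith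
  have ha0 : 0 ≤ Real.exp (δ ^ 2 * K) - 1 := by
    have := Real.add_one_le_exp (δ ^ 2 * K)
    linarith
  have ha2 : Real.exp (δ ^ 2 * K) - 1 ≤ 2 * (δ ^ 2 * K) := by
    have hb := Real.exp_bound_div_one_sub_of_interval hx0 (by linarith : δ ^ 2 * K < 1)
    have hc : 1 / (1 - δ ^ 2 * K) ≤ 1 + 2 * (δ ^ 2 * K) := by
      rw [div_le_iff₀ (by linarith)]
      nlinarith
    linarith
  have haη : Real.exp (δ ^ 2 * K) - 1 ≤ ε / K / 2 := by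
    have e : ε / K / 2 = 2 * (ε / (4 * K)) := by field_simp; norm_num
    rw [e]
    linarith
  have hθ0 : 0 ≤ θ := le_trans (by positivity) hθ
  have hcθ : c' ≤ θ * (ε / K / 2) := by
    have e : c' = 2 * c' * K / ε * (ε / K / 2) := by field_simp
    calc c' = 2 * c' * K / ε * (ε / K / 2) := e
      _ ≤ θ * (ε / K / 2) := mul_le_mul_of_nonneg_right hθ (by positivity)
  have hw : 0 ≤ Vw F δ c ℓ N := vp_nonneg _ _ _
  have hrec := rec_real (κ := κ) (g := Real.exp (δ * (δ * m))) (c := c') (ε := ε) (η := ε / K)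
    (θ := θ) (a := Real.exp (δ ^ 2 * K) - 1) (w := Vw F δ c ℓ N) (v := V F δ c ℓ)
    (by omega : 0 < N) (fun d => Vc F δ c ℓ N d)
    (fun d => V F δ (ch N c ℓ d) (ℓ / N)) hw ha0 (by linarith) haη
    (Real.one_le_exp (by positivity)) hc' hε.le (by linarith) hη0 (by linarith) hθ0 hcθ
    (fun d _ => vp_nonneg _ _ _) (fun d _ => vp_nonneg _ _ _)
    (hF.kids_add h0 (by linarith) hℓ hℓ1 hN2) ?_ ?_ hcr
  · refine hrec.trans ?_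
    have hv : 0 ≤ V F δ c ℓ ^ (1 + θ) := Real.rpow_nonneg (vp_nonneg _ _ _) _
    refine mul_le_mul_of_nonneg_right ?_ hv
    have hg1 : 1 ≤ Real.exp (δ * (δ * m)) := Real.one_le_exp (by positivity)
    have b1 : (Real.exp (δ ^ 2 * K) - 1) * (ε / K) ≤ 2 * δ ^ 2 * ε := by
      calc (Real.exp (δ ^ 2 * K) - 1) * (ε / K) ≤ 2 * (δ ^ 2 * K) * (ε / K) :=
            mul_le_mul_of_nonneg_right ha2 hη0
        _ = 2 * δ ^ 2 * ε := by field_simp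
    have b2 : c' * (2 * (ε / K) + ε) ≤ 3 * ε * c' := by nlinarith
    have b3 : 0 ≤ 2 * δ ^ 2 * ε + 3 * ε * c' := by positivity
    have b4 : Real.exp (δ * (δ * m)) + (Real.exp (δ ^ 2 * K) - 1) * (ε / K) +
        c' * (2 * (ε / K) + ε) ≤
        Real.exp (δ * (δ * m)) * Real.exp (2 * δ ^ 2 * ε + 3 * ε * c') := by
      have b5 := Real.add_one_le_exp (2 * δ ^ 2 * ε + 3 * ε * c')
      nlinarith
    calc Real.exp (c' * θ) * (Real.exp (δ * (δ * m)) +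
          (Real.exp (δ ^ 2 * K) - 1) * (ε / K) + c' * (2 * (ε / K) + ε))
        ≤ Real.exp (c' * θ) *
          (Real.exp (δ * (δ * m)) * Real.exp (2 * δ ^ 2 * ε + 3 * ε * c')) :=
          mul_le_mul_of_nonneg_left b4 (Real.exp_pos _).le
      _ = Real.exp (c' * θ + δ ^ 2 * m + 2 * δ ^ 2 * ε + 3 * ε * c') := by
          rw [← Real.exp_add, ← Real.exp_add]
          congr 1
          ring
  · intro d hd
    exact Window_move hF hN2 hε h0 h14 hK h2 hℓ hℓ1 hd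
  · intro d hd hcen
    exact Window_sharp hF hN2 hκ hκ1 (by linarith) hM h0 h14 hm h4 h5 hℓ hℓ1 hd hcen

theorem Fn.window (hF : Fn F A) {κ ε : ℝ} {M : ℕ} (hκ : 0 < κ) (hκ1 : κ ≤ 1 / 4) (hε : 0 < ε)
    (hε1 : ε ≤ 1 / 2) (hM : 2 / ((2 ^ M : ℕ) : ℝ) < κ ^ 2) {δ : ℝ} (h0 : 0 < δ)
    (h1 : δ ≤ 1 / C2) (h2 : δ * cK M ε ≤ 1) (h3 : 4 * δ ^ 2 * cK M ε ^ 2 ≤ ε)
    (h4 : δ * cm M κ ε δ ≤ 1)
    (h5 : δ * cm M κ ε δ * (500 * (1 + Real.log ((2 ^ M : ℕ) : ℝ))) ≤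
      sS κ (Real.log ((2 ^ M : ℕ) : ℝ)))
    {θ : ℝ} (hθ : 2 * C2 * M * cK M ε / ε * δ ^ 2 ≤ θ) {c ℓ : ℝ} (hℓ : 0 < ℓ) (hℓ1 : ℓ ≤ 1) :
    ∑ d ∈ Finset.range (2 ^ M), chi κ (C2 * δ ^ 2 * M) (2 ^ M) d *
        V F δ (ch (2 ^ M) c ℓ d) (ℓ / ((2 ^ M : ℕ) : ℝ)) ^ (1 + θ) ≤
      Real.exp (C2 * δ ^ 2 * M * θ + δ ^ 2 * cm M κ ε δ + 2 * δ ^ 2 * ε +
        3 * ε * (C2 * δ ^ 2 * M)) * V F δ c ℓ ^ (1 + θ) := by
  have hC2 : (0:ℝ) < C2 := by unfold C2; norm_num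
  have h14 : δ ≤ 1 / 4 := by
    refine h1.trans ?_
    unfold C2
    norm_num
  have hN2 : 2 ≤ 2 ^ M := by
    rcases Nat.eq_zero_or_pos M with h | h
    · subst h
      exfalso
      norm_num at hM
      nlinarith
    · calc 2 = 2 ^ 1 := by norm_num
        _ ≤ 2 ^ M := Nat.pow_le_pow_right (by norm_num) h
  refine Window_aux (K := cK M ε) (m := cm M κ ε δ) hF hN2 hκ hκ1 hε hε1 hM h0 h14 rfl rfl h2 h3
    h4 h5 (by positivity) ?_ hℓ hℓ1 (hF.crudeM h0 h1 M hℓ hℓ1)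
  refine le_trans (le_of_eq ?_) hθ
  ring

end Pool.Agent.Helper90.G2
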