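import Pool.Agent.Helper90.G2.Defs

/-!
# G2-WORDS: iteration of the window inequality

`chK` is the product of the weights of the digits. Induction on `K`:
`ch N (ch (N^K) c ℓ d) (ℓ / N^K) e = ch (N^(K+1)) c ℓ (N d + e)`, and
`∑ over range (N^(K+1))` = double sum over `d < N^K`, `e < N` (`Words_sum`). Number of `e < N` which
are not `Cen`: `e + 1/2 < κ N` or `e + 1/2 > N - κ N`, at most `2 κ N + 2 ≤ 3 κ N`.
-/

set_option autoImplicit false

namespace Pool.Agent.Helper90.G2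

open Finset

/-- product of the weights of the digits -/
noncomputable def chK (κ c : ℝ) (N : ℕ) : ℕ → ℕ → ℝ
  | 0, _ => 1
  | K + 1, d => chK κ c N K (d / N) * chi κ c N (d % N)

theorem Words_chi_nonneg (κ c : ℝ) (N d : ℕ) : 0 ≤ chi κ c N d := by
  unfold chi
  split_ifs
  · exact zero_le_one
  · exact (Real.exp_pos _).le

/-- digits: a sum over `range (m * N)` is a double sum -/
theorem Words_sum (N : ℕ) (g : ℕ → ℝ) (m : ℕ) :
    ∑ d ∈ range (m * N), g d = ∑ a ∈ range m, ∑ e ∈ range N, g (N * a + e) := by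
  induction m with
  | zero => simp
  | succ m ih =>
    rw [add_mul, one_mul, sum_range_add, ih, sum_range_succ]
    congr 1
    refine sum_congr rfl fun e _ => ?_
    rw [mul_comm m N]

theorem chK_nonneg (κ c : ℝ) (N K d : ℕ) : 0 ≤ chK κ c N K d := by
  induction K generalizing d with
  | zero => exact zero_le_one
  | succ K ih => exact mul_nonneg (ih _) (Words_chi_nonneg κ c N _)

theorem Words_chK (κ c : ℝ) {N : ℕ} (hN : 0 < N) (K a e : ℕ) (he : e < N) :
    chK κ c N (K + 1) (N * a + e) = chK κ c N K a * chi κ c N e := by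
  have h1 : (N * a + e) / N = a := by
    rw [Nat.mul_add_div hN, Nat.div_eq_of_lt he, add_zero]
  have h2 : (N * a + e) % N = e := by
    rw [Nat.mul_add_mod, Nat.mod_eq_of_lt he]
  show chK κ c N K ((N * a + e) / N) * chi κ c N ((N * a + e) % N) = _
  rw [h1, h2]

theorem sum_chK (κ c : ℝ) {N : ℕ} (hN : 0 < N) (K : ℕ) :
    ∑ d ∈ range (N ^ K), chK κ c N K d = (∑ e ∈ range N, chi κ c N e) ^ K := by
  induction K with
  | zero => simp [chK]
  | succ K ih =>
    rw [pow_succ, Words_sum, pow_succ, ← ih, sum_mul]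
    refine sum_congr rfl fun a _ => ?_
    rw [mul_sum]
    exact sum_congr rfl fun e he => Words_chK κ c hN K a e (mem_range.1 he)

theorem sum_chi_ge {κ c : ℝ} (hκ : 0 < κ) (hκ1 : κ ≤ 1 / 4) (hc : 0 ≤ c) {N : ℕ}
    (hN : 2 ≤ κ * N) : (N : ℝ) * (1 - 3 * κ * c) ≤ ∑ e ∈ range N, chi κ c N e := by
  classical
  have hN0 : (0 : ℝ) < N := by
    by_contra h
    push Not at h
    nlinarith
  obtain ⟨a, ha⟩ : ∃ a : ℕ, a = ⌈κ * N⌉₊ := ⟨_, rfl⟩
  have ha1 : κ * N ≤ a := by rw [ha]; exact Nat.le_ceil _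
  have ha2 : (a : ℝ) < κ * N + 1 := by
    rw [ha]
    exact Nat.ceil_lt_add_one (by linarith)
  have hsub : (range N).filter (fun d => ¬ Cen κ N d) ⊆ range a ∪ Ico (N - a) N := by
    intro d hd
    rw [mem_filter, mem_range] at hd
    obtain ⟨hdN, hd⟩ := hd
    unfold Cen at hd
    rw [not_le, lt_abs] at hd
    rw [mem_union, mem_range, mem_Ico]
    rcases hd with hd | hd
    · right
      refine ⟨?_, hdN⟩
      have h1 : 1 - κ < ((d : ℝ) + 1 / 2) / N := by linarith
      rw [lt_div_iff₀ hN0] at h1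
      have h2 : (N : ℝ) < d + a + 1 := by nlinarith
      have h3 : N < d + a + 1 := by exact_mod_cast h2
      omega
    · left
      have h1 : ((d : ℝ) + 1 / 2) / N < κ := by linarith
      rw [div_lt_iff₀ hN0] at h1
      have h2 : (d : ℝ) < a := by linarith
      exact_mod_cast h2
  have hcard : (((range N).filter (fun d => ¬ Cen κ N d)).card : ℝ) ≤ 3 * κ * N := by
    have h1 : ((range N).filter (fun d => ¬ Cen κ N d)).card ≤ a + a := by
      refine (card_le_card hsub).trans ((card_union_le _ _).trans ?_)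
      rw [card_range, Nat.card_Ico]
      omega
    have h2 : (((range N).filter (fun d => ¬ Cen κ N d)).card : ℝ) ≤ a + a := by
      exact_mod_cast h1
    linarith
  have hterm : ∀ e ∈ range N, 1 - (if ¬ Cen κ N e then c else 0) ≤ chi κ c N e := by
    intro e _
    unfold chi
    by_cases h : Cen κ N e
    · rw [if_neg (not_not.2 h), if_pos h, sub_zero]
    · rw [if_pos h, if_neg h]
      have := Real.add_one_le_exp (-c)
      linarith
  refine le_trans ?_ (sum_le_sum hterm)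
  rw [sum_sub_distrib, sum_const, card_range, nsmul_eq_mul, mul_one, ← sum_filter, sum_const,
    nsmul_eq_mul]
  have h4 : (((range N).filter (fun d => ¬ Cen κ N d)).card : ℝ) * c ≤ 3 * κ * N * c :=
    mul_le_mul_of_nonneg_right hcard hc
  linarith

theorem Words_ch {N : ℕ} (hN : 1 ≤ N) (K a e : ℕ) (c ℓ : ℝ) :
    ch N (ch (N ^ K) c ℓ a) (ℓ / ((N ^ K : ℕ) : ℝ)) e = ch (N ^ (K + 1)) c ℓ (N * a + e) := by
  have hN0 : (N : ℝ) ≠ 0 := by
    have : 0 < N := hN
    positivity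
  unfold ch
  push_cast
  field_simp
  ring

theorem words {f : ℝ → ℝ → ℝ} {κ c' G : ℝ} {N : ℕ} (hN : 1 ≤ N) (hG : 0 ≤ G)
    (h : ∀ c ℓ : ℝ, 0 < ℓ → ℓ ≤ 1 →
      ∑ d ∈ range N, chi κ c' N d * f (ch N c ℓ d) (ℓ / N) ≤ G * f c ℓ) (K : ℕ) :
    ∀ c ℓ : ℝ, 0 < ℓ → ℓ ≤ 1 →
      ∑ d ∈ range (N ^ K), chK κ c' N K d * f (ch (N ^ K) c ℓ d) (ℓ / ((N ^ K : ℕ) : ℝ)) ≤
        G ^ K * f c ℓ := by
  have hN1 : (1 : ℝ) ≤ N := by exact_mod_cast hN
  induction K with
  | zero =>
    intro c ℓ _ _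
    have e1 : ch (N ^ 0) c ℓ 0 = c := by
      unfold ch
      push_cast
      rw [pow_zero]
      ring
    have e2 : ℓ / ((N ^ 0 : ℕ) : ℝ) = ℓ := by
      rw [pow_zero, Nat.cast_one, div_one]
    rw [e2]
    have e3 : ∑ d ∈ range (N ^ 0), chK κ c' N 0 d * f (ch (N ^ 0) c ℓ d) ℓ =
        f (ch (N ^ 0) c ℓ 0) ℓ := by
      simp [chK]
    rw [e3, e1, pow_zero, one_mul]
  | succ K ih =>
    intro c ℓ hℓ hℓ1
    obtain ⟨r, hr⟩ : ∃ r : ℝ, r = ℓ / ((N ^ K : ℕ) : ℝ) := ⟨_, rfl⟩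
    have hNK : (1 : ℝ) ≤ ((N ^ K : ℕ) : ℝ) := by
      push_cast
      exact one_le_pow₀ hN1
    have hr0 : 0 < r := by
      rw [hr]
      positivity
    have hr1 : r ≤ 1 := by
      rw [hr, div_le_one (by linarith)]
      linarith
    have e1 : ℓ / ((N ^ (K + 1) : ℕ) : ℝ) = r / N := by
      rw [hr, div_div]
      push_cast
      rw [pow_succ]
    rw [e1]
    have e2 : ∑ d ∈ range (N ^ (K + 1)), chK κ c' N (K + 1) d * f (ch (N ^ (K + 1)) c ℓ d) (r / N) =
        ∑ a ∈ range (N ^ K), chK κ c' N K a *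
          ∑ e ∈ range N, chi κ c' N e * f (ch N (ch (N ^ K) c ℓ a) r e) (r / N) := by
      rw [pow_succ, Words_sum]
      refine sum_congr rfl fun a _ => ?_
      rw [mul_sum]
      refine sum_congr rfl fun e he => ?_
      rw [Words_chK κ c' hN K a e (mem_range.1 he), hr, Words_ch hN, ← pow_succ]
      ring
    rw [e2]
    calc ∑ a ∈ range (N ^ K), chK κ c' N K a *
          ∑ e ∈ range N, chi κ c' N e * f (ch N (ch (N ^ K) c ℓ a) r e) (r / N)
        ≤ ∑ a ∈ range (N ^ K), chK κ c' N K a * (G * f (ch (N ^ K) c ℓ a) r) :=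
          sum_le_sum fun a _ => mul_le_mul_of_nonneg_left (h _ _ hr0 hr1) (chK_nonneg _ _ _ _ _)
      _ = G * ∑ a ∈ range (N ^ K), chK κ c' N K a * f (ch (N ^ K) c ℓ a) r := by
          rw [mul_sum]
          exact sum_congr rfl fun a _ => by ring
      _ ≤ G * (G ^ K * f c ℓ) := by
          refine mul_le_mul_of_nonneg_left ?_ hG
          have := ih c ℓ hℓ hℓ1
          rwa [← hr] at this
      _ = G ^ (K + 1) * f c ℓ := by ring

end Pool.Agent.Helper90.G2
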