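import Pool.Agent.Helper90.G2.Apo

/-!
# G2-WT: the weighted integral

Put `d = 1 / m`. Where `log (|v + 1| / |v|) > m` one has `|v| < 1 / (e^m - 1) ≤ d`, and
`|v|^(-δ) = d^(-δ) (d / |v|)^δ ≤ d^(-δ) (1 + 2 δ (d / |v|)^(1/2))` because
`e^(δ x) ≤ 1 + 2 δ e^(x/2)` for `x ≥ 0`, `δ ≤ 1/4`. Moreover `log (|v + 1| / |v|) ≤ 1 / |v|` and
`∫_(|v| ≤ d) d^(1/2) |v|^(-3/2) = 4 π d`. Total: `m^δ (π / (4 m) + 8 π δ / m)`.
-/

set_option autoImplicit false

namespace Pool.Agent.Helper90.G2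

open MeasureTheory Set
open scoped Real

/-- `e^(δ x) ≤ 1 + 2 δ e^(x/2)` -/
private theorem wt_exp {δ x : ℝ} (h0 : 0 < δ) (h1 : δ ≤ 1 / 4) (hx : 0 ≤ x) :
    Real.exp (δ * x) ≤ 1 + 2 * δ * Real.exp (x / 2) := by
  -- `1 - δ x ≤ e^(-δ x)`
  have e1 : 1 - δ * x ≤ Real.exp (-(δ * x)) := by
    have := Real.add_one_le_exp (-(δ * x))
    linarith
  have e2 : Real.exp (δ * x) * Real.exp (-(δ * x)) = 1 := by
    rw [← Real.exp_add, add_neg_cancel, Real.exp_zero]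
  have e3 : Real.exp (δ * x) - 1 ≤ δ * x * Real.exp (δ * x) := by
    have := mul_le_mul_of_nonneg_left e1 (Real.exp_pos (δ * x)).le
    rw [e2] at this
    nlinarith
  have e4 : Real.exp (δ * x) ≤ Real.exp (x / 4) := by
    apply Real.exp_le_exp.2
    nlinarith
  have e5 : x / 2 ≤ Real.exp (x / 4) := by
    have h2 := Real.quadratic_le_exp_of_nonneg (x := x / 4) (by positivity)
    nlinarith [sq_nonneg (x / 4 - 1)]
  have e6 : Real.exp (x / 2) = Real.exp (x / 4) * Real.exp (x / 4) := by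
    rw [← Real.exp_add]
    congr 1
    ring
  have e7 : δ * x * Real.exp (δ * x) ≤ δ * x * Real.exp (x / 4) :=
    mul_le_mul_of_nonneg_left e4 (by positivity)
  have e8 : x / 2 * Real.exp (x / 4) ≤ Real.exp (x / 4) * Real.exp (x / 4) :=
    mul_le_mul_of_nonneg_right e5 (Real.exp_pos _).le
  rw [e6]
  nlinarith

/-- `y^δ ≤ 1 + 2 δ y^(1/2)` -/
private theorem wt_rpow {δ y : ℝ} (h0 : 0 < δ) (h1 : δ ≤ 1 / 4) (hy : 1 ≤ y) :
    y ^ δ ≤ 1 + 2 * δ * y ^ (1 / 2 : ℝ) := by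
  have h := wt_exp h0 h1 (Real.log_nonneg hy)
  have hy0 : 0 < y := by linarith
  rw [Real.rpow_def_of_pos hy0, Real.rpow_def_of_pos hy0]
  calc Real.exp (Real.log y * δ) = Real.exp (δ * Real.log y) := by rw [mul_comm]
    _ ≤ _ := h
    _ = _ := by
      congr 3
      ring

/-- the integral of `|v|^(-3/2)` over a disk -/
private theorem wt_ball {d : ℝ} (hd : 0 < d) :
    ∫⁻ v in Metric.ball (0 : ℂ) d, ENNReal.ofReal (‖v‖ ^ (-(3 / 2) : ℝ)) =
      ENNReal.ofReal (4 * π * d ^ (1 / 2 : ℝ)) := by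
  have hint : IntegrableOn (fun v : ℂ => ‖v‖ ^ (-(3 / 2) : ℝ)) (Metric.ball 0 d) := by
    refine integrableOn_ball_of_norm_le_rpow (C := 1) (α := 3 / 2) ?_ ?_ ?_ ?_
    · rw [Complex.finrank_real_complex]
      norm_num
    · rw [Complex.finrank_real_complex]
      norm_num
    · refine Filter.Eventually.of_forall fun v => ?_
      rw [one_mul, Real.norm_of_nonneg (by positivity)]
    · exact (measurable_norm.pow_const _).aestronglyMeasurable
  rw [← ofReal_integral_eq_lintegral_ofReal hint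
    (Filter.Eventually.of_forall fun v => by positivity)]
  congr 1
  have e1 : ∫ v in Metric.ball (0 : ℂ) d, ‖v‖ ^ (-(3 / 2) : ℝ) =
      ∫ v : ℂ, (Iio d).indicator (fun y : ℝ => y ^ (-(3 / 2) : ℝ)) ‖v‖ := by
    rw [← integral_indicator Metric.isOpen_ball.measurableSet]
    congr 1
    funext v
    by_cases hv : ‖v‖ < d
    · rw [indicator_of_mem (by simpa using hv), indicator_of_mem (show ‖v‖ ∈ Iio d from hv)]
    · rw [indicator_of_notMem (by simpa using hv), indicator_of_notMem (show ‖v‖ ∉ Iio d from hv)]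
  rw [e1, integral_fun_norm_addHaar volume ((Iio d).indicator fun y : ℝ => y ^ (-(3 / 2) : ℝ)),
    Complex.finrank_real_complex]
  have e2 : (volume : Measure ℂ).real (Metric.ball 0 1) = π := by
    rw [Measure.real, Complex.volume_ball]
    simp
  have e3 : ∫ y in Ioi (0 : ℝ), y ^ (2 - 1) • (Iio d).indicator (fun y : ℝ => y ^ (-(3 / 2) : ℝ)) y =
      2 * d ^ (1 / 2 : ℝ) := by
    have e4 : ∫ y in Ioi (0 : ℝ), y ^ (2 - 1) •
        (Iio d).indicator (fun y : ℝ => y ^ (-(3 / 2) : ℝ)) y =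
        ∫ y in Ioi (0 : ℝ), (Iio d).indicator (fun y : ℝ => y ^ (-(1 / 2) : ℝ)) y := by
      refine setIntegral_congr_fun measurableSet_Ioi fun y hy => ?_
      have hy' : (0 : ℝ) < y := hy
      by_cases h : y < d
      · simp only [indicator_of_mem (show y ∈ Iio d from h), smul_eq_mul]
        rw [show (2 - 1 : ℕ) = 1 from rfl, pow_one]
        conv_lhs => rw [← Real.rpow_one y, ← Real.rpow_mul hy'.le, one_mul,
          ← Real.rpow_add hy']
        norm_num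
      · simp only [indicator_of_notMem (show y ∉ Iio d from h), smul_eq_mul, mul_zero]
    rw [e4, setIntegral_indicator measurableSet_Iio,
      show Ioi (0 : ℝ) ∩ Iio d = Ioo 0 d from rfl, ← integral_Ioc_eq_integral_Ioo,
      ← intervalIntegral.integral_of_le hd.le, integral_rpow (Or.inl (by norm_num))]
    rw [show (-(1 / 2) + 1 : ℝ) = 1 / 2 by norm_num, Real.zero_rpow (by norm_num)]
    ring
  rw [e2, e3]
  simp only [nsmul_eq_mul, smul_eq_mul]
  push_cast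
  ring

/-- the pointwise bound -/
private theorem wt_pt {m δ : ℝ} (hm : 0 < m) (h0 : 0 < δ) (h1 : δ ≤ 1 / 4) (v : ℂ) :
    ENNReal.ofReal (‖v‖ ^ (-δ) * max (Real.log (‖v + 1‖ / ‖v‖) - m) 0) ≤
      ENNReal.ofReal (m ^ δ) * ENNReal.ofReal (max (Real.log (‖v + 1‖ / ‖v‖) - m) 0) +
      ENNReal.ofReal (2 * δ * m ^ δ * (1 / m) ^ (1 / 2 : ℝ)) *
        (Metric.ball (0 : ℂ) (1 / m)).indicator
          (fun v => ENNReal.ofReal (‖v‖ ^ (-(3 / 2) : ℝ))) v := by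
  rcases le_or_gt (Real.log (‖v + 1‖ / ‖v‖) - m) 0 with hL | hL
  · rw [max_eq_right hL, mul_zero, ENNReal.ofReal_zero]
    exact zero_le
  rw [max_eq_left hL.le]
  have hmδ : 0 < m ^ δ := Real.rpow_pos_of_pos hm δ
  have hq : 0 < ‖v + 1‖ / ‖v‖ := by
    rcases (div_nonneg (norm_nonneg (v + 1)) (norm_nonneg v)).lt_or_eq with h | h
    · exact h
    · rw [← h, Real.log_zero] at hL
      linarith
  have hv : 0 < ‖v‖ := by
    rcases (norm_nonneg v).lt_or_eq with h | h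
    · exact h
    · rw [← h, div_zero] at hq
      exact absurd hq (lt_irrefl _)
  have hexp : Real.exp m < ‖v + 1‖ / ‖v‖ := (Real.lt_log_iff_exp_lt hq).1 (by linarith)
  have htri : ‖v + 1‖ ≤ ‖v‖ + 1 := by
    have := norm_add_le v 1
    rwa [norm_one] at this
  have hr : m * ‖v‖ < 1 := by
    rw [lt_div_iff₀ hv] at hexp
    have := Real.add_one_le_exp m
    nlinarith
  have hrm : ‖v‖ < 1 / m := by
    rw [lt_div_iff₀ hm]
    linarith
  have hlog : Real.log (‖v + 1‖ / ‖v‖) - m ≤ 1 / ‖v‖ := by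
    have h2 := Real.log_le_sub_one_of_pos hq
    have h3 : ‖v + 1‖ / ‖v‖ ≤ (‖v‖ + 1) / ‖v‖ := by gcongr
    rw [add_div, div_self hv.ne'] at h3
    linarith
  rw [indicator_of_mem (show v ∈ Metric.ball (0 : ℂ) (1 / m) by simpa using hrm),
    ← ENNReal.ofReal_mul hmδ.le, ← ENNReal.ofReal_mul (by positivity),
    ← ENNReal.ofReal_add (by positivity) (by positivity)]
  apply ENNReal.ofReal_le_ofReal
  obtain ⟨L, hLd⟩ : ∃ L : ℝ, L = Real.log (‖v + 1‖ / ‖v‖) - m := ⟨_, rfl⟩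
  rw [← hLd] at hL hlog ⊢
  obtain ⟨r, hrd⟩ : ∃ r : ℝ, r = ‖v‖ := ⟨_, rfl⟩
  rw [← hrd] at hv hlog hr ⊢
  have hy : 1 ≤ 1 / (m * r) := by
    rw [le_div_iff₀ (by positivity)]
    linarith
  have h4 := wt_rpow h0 h1 hy
  have h5 : r ^ (-δ) = m ^ δ * (1 / (m * r)) ^ δ := by
    rw [one_div, Real.inv_rpow (by positivity), Real.mul_rpow hm.le hv.le, Real.rpow_neg hv.le]
    field_simp
  have h6 : (1 / (m * r)) ^ (1 / 2 : ℝ) * (1 / r) = (1 / m) ^ (1 / 2 : ℝ) * r ^ (-(3 / 2) : ℝ) := by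
    rw [one_div (m * r), mul_inv, Real.mul_rpow (by positivity) (by positivity), ← one_div m,
      mul_assoc]
    congr 1
    rw [Real.inv_rpow hv.le, ← Real.rpow_neg hv.le, one_div r, ← Real.rpow_neg_one r,
      ← Real.rpow_add hv]
    norm_num
  have h7 : r ^ (-δ) ≤ m ^ δ * (1 + 2 * δ * (1 / (m * r)) ^ (1 / 2 : ℝ)) := by
    rw [h5]
    exact mul_le_mul_of_nonneg_left h4 hmδ.le
  have h8 : r ^ (-δ) * L ≤ m ^ δ * (1 + 2 * δ * (1 / (m * r)) ^ (1 / 2 : ℝ)) * L :=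
    mul_le_mul_of_nonneg_right h7 hL.le
  have h9 : m ^ δ * (2 * δ * (1 / (m * r)) ^ (1 / 2 : ℝ)) * L ≤
      m ^ δ * (2 * δ * (1 / (m * r)) ^ (1 / 2 : ℝ)) * (1 / r) :=
    mul_le_mul_of_nonneg_left hlog (by positivity)
  have h10 : m ^ δ * (2 * δ * (1 / (m * r)) ^ (1 / 2 : ℝ)) * (1 / r) =
      2 * δ * m ^ δ * (1 / m) ^ (1 / 2 : ℝ) * r ^ (-(3 / 2) : ℝ) := by
    rw [mul_assoc (2 * δ * m ^ δ), ← h6]
    ring
  rw [← h10]
  calc r ^ (-δ) * L ≤ m ^ δ * (1 + 2 * δ * (1 / (m * r)) ^ (1 / 2 : ℝ)) * L := h8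
    _ = m ^ δ * L + m ^ δ * (2 * δ * (1 / (m * r)) ^ (1 / 2 : ℝ)) * L := by ring
    _ ≤ _ := by linarith

theorem wt_int {m δ : ℝ} (hm : 0 < m) (hm1 : m ≤ 1) (h0 : 0 < δ) (h1 : δ ≤ 1 / 4) :
    ∫⁻ v : ℂ, ENNReal.ofReal (‖v‖ ^ (-δ) * max (Real.log (‖v + 1‖ / ‖v‖) - m) 0) ≤
      ENNReal.ofReal ((1 + 32 * δ) * (π / (4 * m)) * m ^ δ) := by
  have hmδ : 0 < m ^ δ := Real.rpow_pos_of_pos hm δ
  have hmeas : Measurable fun v : ℂ =>
      ENNReal.ofReal (max (Real.log (‖v + 1‖ / ‖v‖) - m) 0) := by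
    fun_prop
  calc ∫⁻ v : ℂ, ENNReal.ofReal (‖v‖ ^ (-δ) * max (Real.log (‖v + 1‖ / ‖v‖) - m) 0)
      ≤ ∫⁻ v : ℂ, (ENNReal.ofReal (m ^ δ) *
          ENNReal.ofReal (max (Real.log (‖v + 1‖ / ‖v‖) - m) 0) +
        ENNReal.ofReal (2 * δ * m ^ δ * (1 / m) ^ (1 / 2 : ℝ)) *
          (Metric.ball (0 : ℂ) (1 / m)).indicator
            (fun v => ENNReal.ofReal (‖v‖ ^ (-(3 / 2) : ℝ))) v) :=
        lintegral_mono fun v => wt_pt hm h0 h1 v
    _ = ENNReal.ofReal (m ^ δ) *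
          (∫⁻ v : ℂ, ENNReal.ofReal (max (Real.log (‖v + 1‖ / ‖v‖) - m) 0)) +
        ENNReal.ofReal (2 * δ * m ^ δ * (1 / m) ^ (1 / 2 : ℝ)) *
          ENNReal.ofReal (4 * π * (1 / m) ^ (1 / 2 : ℝ)) := by
        rw [lintegral_add_left (hmeas.const_mul _), lintegral_const_mul _ hmeas,
          lintegral_const_mul' _ _ ENNReal.ofReal_ne_top,
          lintegral_indicator Metric.isOpen_ball.measurableSet, wt_ball (by positivity)]
    _ ≤ ENNReal.ofReal (m ^ δ) * ENNReal.ofReal (π / (4 * m)) +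
        ENNReal.ofReal (2 * δ * m ^ δ * (1 / m) ^ (1 / 2 : ℝ)) *
          ENNReal.ofReal (4 * π * (1 / m) ^ (1 / 2 : ℝ)) := by
        gcongr
        exact apo_int hm
    _ = ENNReal.ofReal ((1 + 32 * δ) * (π / (4 * m)) * m ^ δ) := by
        rw [← ENNReal.ofReal_mul hmδ.le, ← ENNReal.ofReal_mul (by positivity),
          ← ENNReal.ofReal_add (by positivity) (by positivity)]
        congr 1
        have h2 : (1 / m) ^ (1 / 2 : ℝ) * (1 / m) ^ (1 / 2 : ℝ) = 1 / m := by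
          rw [← Real.rpow_add (by positivity)]
          norm_num
        calc m ^ δ * (π / (4 * m)) + 2 * δ * m ^ δ * (1 / m) ^ (1 / 2 : ℝ) *
              (4 * π * (1 / m) ^ (1 / 2 : ℝ))
            = m ^ δ * (π / (4 * m)) + 8 * δ * m ^ δ * π *
              ((1 / m) ^ (1 / 2 : ℝ) * (1 / m) ^ (1 / 2 : ℝ)) := by ring
          _ = _ := by
            rw [h2]
            field_simp
            ring

end Pool.Agent.Helper90.G2
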